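import Pool.Agent.BisRt.Targets

/-!
# Target DBL: double counting and symmetry of the weight
-/

set_option autoImplicit false

namespace Pool.Agent.BisRt

open Finset Pool.Agent.PT Pool.Agent.BisTh Pool.Agent.BisRg

namespace DBL_

lemma card_nb (adj : ℕ → ℕ → Bool) (Y : Finset ℕ) (i : ℕ) :
    (nb adj Y i).card = ∑ j ∈ Y, if adj i j = true then 1 else 0 := by
  unfold nb
  rw [card_filter]

lemma dbl (adj : ℕ → ℕ → Bool) (X Y : Finset ℕ) :
    ∑ i ∈ X, (nb adj Y i).card = ∑ j ∈ Y, (nb (tr adj) X j).card := by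
  simp only [card_nb]
  rw [sum_comm]
  rfl

lemma add_nb (adj : ℕ → ℕ → Bool) {n : ℕ} {Y : Finset ℕ} (hY : Y ⊆ range n) (i : ℕ) :
    (nb adj Y i).card + (nb adj (range n \ Y) i).card = (nb adj (range n) i).card := by
  simp only [card_nb]
  rw [add_comm, sum_sdiff hY]

end DBL_

theorem p_DBL : T_DBL := by
  intro adj
  refine ⟨DBL_.dbl adj, fun n X Y => DBL_.dbl adj _ _, ?_, ?_⟩
  · rintro n d ⟨hr, hc⟩ X Y hX hY
    have h1 : ∑ i ∈ X, (nb adj Y i).card + ∑ i ∈ X, (nb adj (range n \ Y) i).card =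
        d * X.card := by
      rw [← sum_add_distrib, mul_comm, ← smul_eq_mul, ← sum_const]
      refine sum_congr rfl fun i hi => ?_
      rw [DBL_.add_nb adj hY]
      exact hr i (mem_range.1 (hX hi))
    have h2 : ∑ j ∈ range n \ Y, (nb (tr adj) X j).card +
        ∑ j ∈ range n \ Y, (nb (tr adj) (range n \ X) j).card = d * (range n \ Y).card := by
      rw [← sum_add_distrib, mul_comm, ← smul_eq_mul, ← sum_const]
      refine sum_congr rfl fun j hj => ?_
      rw [DBL_.add_nb (tr adj) hX]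
      exact hc j (mem_range.1 (mem_sdiff.1 hj).1)
    have h3 : ∑ i ∈ X, (nb adj (range n \ Y) i).card =
        ∑ j ∈ range n \ Y, (nb (tr adj) X j).card := DBL_.dbl adj _ _
    have h4 : Ed adj n X Y = ∑ j ∈ range n \ Y, (nb (tr adj) (range n \ X) j).card :=
      DBL_.dbl adj _ _
    have h5 : (range n \ Y).card + Y.card = n := by
      rw [card_sdiff_add_card_eq_card hY, card_range]
    rw [h3] at h1
    rw [← h4] at h2
    have h6 : d * (range n \ Y).card + d * Y.card = d * n := by rw [← mul_add, h5]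
    rw [mul_add]
    omega
  · intro n d θ X Y
    unfold Wt Psi
    have h : Ed adj n X Y = Ed (tr adj) n Y X := DBL_.dbl adj _ _
    have ht : tr (tr adj) = adj := rfl
    rw [h, ht, add_comm (X.card : ℝ) Y.card, add_comm (Sf adj n d X Y)]

end Pool.Agent.BisRt
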