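import Pool.Agent.BisRt.Targets

set_option autoImplicit false

/-!
# INN: removing a vertex and its neighbours
-/

namespace Pool.Agent.BisRt

open Finset Pool.Agent.BisTh Pool.Agent.BisRg

namespace INN_

variable {adj : ℕ → ℕ → Bool} {n : ℕ} {X Y : Finset ℕ} {u : ℕ}

theorem compl_erase (hX : X ⊆ range n) (hu : u ∈ X) :
    range n \ X.erase u = insert u (range n \ X) := by
  ext i
  simp only [mem_sdiff, mem_erase, mem_insert, not_and, ne_eq]
  constructor
  · rintro ⟨h1, h2⟩
    by_cases h : i = u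
    · exact Or.inl h
    · exact Or.inr ⟨h1, fun hi => h2 h hi⟩
  · rintro (rfl | ⟨h1, h2⟩)
    · exact ⟨hX hu, fun h => absurd rfl h⟩
    · exact ⟨h1, fun _ => h2⟩

theorem compl_sdiff {N : Finset ℕ} (hY : Y ⊆ range n) (hN : N ⊆ Y) :
    range n \ (Y \ N) = (range n \ Y) ∪ N := by
  ext j
  simp only [mem_sdiff, mem_union, not_and, not_not]
  constructor
  · rintro ⟨h1, h2⟩
    by_cases h : j ∈ Y
    · exact Or.inr (h2 h)
    · exact Or.inl ⟨h1, h⟩
  · rintro (⟨h1, h2⟩ | h)
    · exact ⟨h1, fun h => absurd h h2⟩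
    · exact ⟨hY (hN h), fun _ => h⟩

theorem nb_union_card {A N : Finset ℕ} (h : Disjoint A N) (i : ℕ) :
    (nb adj (A ∪ N) i).card = (nb adj A i).card + (nb adj N i).card := by
  unfold nb
  rw [filter_union, card_union_of_disjoint]
  exact disjoint_filter_filter h

theorem nb_insert_true {C : Finset ℕ} {j : ℕ} (hC : u ∉ C) (h : adj u j = true) :
    (nb (tr adj) (insert u C) j).card = (nb (tr adj) C j).card + 1 := by
  unfold nb tr
  rw [filter_insert, if_pos h, card_insert_of_notMem]
  exact fun h1 => hC (mem_filter.1 h1).1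

theorem nb_insert_false {C : Finset ℕ} {j : ℕ} (h : ¬ adj u j = true) :
    nb (tr adj) (insert u C) j = nb (tr adj) C j := by
  unfold nb tr
  rw [filter_insert, if_neg h]

theorem ov_eq (i : ℕ) : ov adj Y u i = (nb adj Y u).filter fun j => adj i j = true := by
  ext j
  simp only [ov, nb, mem_inter, mem_filter]
  tauto

end INN_

open INN_ in
/-- INN. -/
theorem p_INN (h_REG : T_REG) (h_DBL : T_DBL) : T_INN := by
  intro adj n d hreg X Y hX hY u hu
  obtain ⟨-, r2, r3⟩ := h_REG adj n d hreg
  obtain ⟨d1, -⟩ := h_DBL adj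
  have hN : nb adj Y u ⊆ Y := filter_subset _ _
  have hun : u < n := mem_range.1 (hX hu)
  have huC : u ∉ range n \ X := fun h => (mem_sdiff.1 h).2 hu
  have hdis : Disjoint (range n \ Y) (nb adj Y u) := by
    rw [disjoint_left]
    exact fun j h1 h2 => (mem_sdiff.1 h1).2 (hN h2)
  have hadj : ∀ j ∈ nb adj Y u, adj u j = true := fun j h => (mem_filter.1 h).2
  have hnot : ∀ j ∈ Y \ nb adj Y u, ¬ adj u j = true := fun j h h1 =>
    (mem_sdiff.1 h).2 (mem_filter.2 ⟨(mem_sdiff.1 h).1, h1⟩)
  refine ⟨?_, fun i => ?_, fun j hj => ?_, ?_⟩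
  · unfold Ed
    rw [compl_erase hX hu, compl_sdiff hY hN,
      sum_congr rfl fun i _ => nb_union_card hdis i, sum_add_distrib, sum_insert huC,
      d1 (insert u (range n \ X)) (nb adj Y u),
      sum_congr rfl fun j hj => nb_insert_true huC (hadj j hj), sum_add_distrib]
    have h1 := r2 Y hY u hun
    unfold inc
    rw [sum_const, smul_eq_mul, mul_one]
    omega
  · unfold inc
    rw [compl_erase hX hu]
    have h1 : nb adj Y i = nb adj (Y \ nb adj Y u) i ∪ ov adj Y u i := by
      ext j
      simp only [nb, ov, mem_union, mem_inter, mem_filter, mem_sdiff, not_and]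
      tauto
    have h2 : Disjoint (nb adj (Y \ nb adj Y u) i) (ov adj Y u i) := by
      rw [disjoint_left]
      intro j h3 h4
      exact (mem_sdiff.1 (mem_filter.1 h3).1).2 (mem_inter.1 h4).2
    rw [h1, sum_union h2]
    congr 1
    refine sum_congr rfl fun j hj => ?_
    rw [nb_insert_false (hnot j (mem_filter.1 hj).1)]
  · unfold inc
    have h1 : nb (tr adj) (X.erase u) j = nb (tr adj) X j := by
      unfold nb
      rw [filter_erase, erase_eq_of_notMem]
      exact fun h => hnot j hj (mem_filter.1 h).2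
    rw [h1]
    refine sum_le_sum fun i _ => card_le_card ?_
    unfold nb
    exact filter_subset_filter _ (sdiff_subset_sdiff le_rfl sdiff_subset)
  · have h1 : ∀ i, ∑ j ∈ ov adj Y u i, (nb (tr adj) (range n \ X) j).card =
        ∑ j ∈ nb adj Y u, if adj i j = true then (nb (tr adj) (range n \ X) j).card else 0 := by
      intro i
      rw [ov_eq, sum_filter]
    rw [sum_congr rfl fun i _ => h1 i, sum_comm]
    unfold inc
    rw [mul_sum]
    refine sum_le_sum fun j hj => ?_
    rw [← sum_filter, sum_const, smul_eq_mul]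
    have h2 : (X.filter fun i => adj i j = true).card ≤ d :=
      (r3 X hX j (mem_range.1 (hY (hN hj)))).2
    exact Nat.mul_le_mul_right _ h2

end Pool.Agent.BisRt
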