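import Pool.Agent.BisRt.Targets

/-!
# EDG: degrees and edges of the rows of a state (MP_29585b_lc)
-/

set_option autoImplicit false

namespace Pool.Agent.BisRt

open Finset Pool.Agent.PT Pool.Agent.BisTh Pool.Agent.BisRg

namespace EDG_

theorem nadj_aj (R : List (List Bool)) (i j : ℕ) : (!(nadj (R.getD i []) j)) = aj R i j := by
  simp [nadj, aj]

theorem countP_card (l : List ℕ) (hl : l.Nodup) (p : ℕ → Bool) :
    l.countP p = (l.toFinset.filter fun j => p j = true).card := by
  rw [← List.toFinset_filter, List.toFinset_card_of_nodup (hl.filter p),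
    List.countP_eq_length_filter]

theorem dg_card (R : List (List Bool)) (l : List ℕ) (hl : l.Nodup) (i : ℕ) :
    dg (R.getD i []) l = (nb (aj R) l.toFinset i).card := by
  have h : (fun j => !(nadj (R.getD i []) j)) = fun j => aj R i j := by
    funext j
    exact nadj_aj R i j
  unfold dg
  rw [h, countP_card l hl]
  rfl

end EDG_

theorem p_EDG : T_EDG := by
  intro R n s hs
  obtain ⟨h1, h2, -, -⟩ := hs
  refine ⟨fun i => EDG_.dg_card R s.2 h2 i, fun j => ?_, ?_⟩
  · unfold dgR rws
    rw [List.countP_map]
    have h : ((fun u => !(nadj u j)) ∘ fun i => R.getD i []) = fun i => aj R i j := by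
      funext i
      exact EDG_.nadj_aj R i j
    rw [h, EDG_.countP_card s.1 h1]
    rfl
  · unfold edges rws
    rw [List.map_map, List.sum_toFinset _ h1]
    congr 1
    apply List.map_congr_left
    intro i _
    exact EDG_.dg_card R s.2 h2 i

end Pool.Agent.BisRt
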