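import Pool.Agent.BisRt.Targets

/-!
# LFB: the bound for a leaf
-/

set_option autoImplicit false

namespace Pool.Agent.BisRt

open Finset Pool.Agent.PT Pool.Agent.BisTh Pool.Agent.BisRg

namespace LFB_

/-- the base of the exponential -/
theorem exists_base (d : ℕ) (hd : 5 ≤ d) : ∃ r : ℝ, 1 ≤ r ∧ r ^ (d / 5) = 4 / 3 ∧
    2 * Real.log 2 ≤ d * Real.log r := by
  have hd1 : 1 ≤ d / 5 := by omega
  have hpos : (0 : ℝ) < ((d / 5 : ℕ) : ℝ) := by exact_mod_cast hd1
  have hr1 : (1 : ℝ) ≤ (4 / 3 : ℝ) ^ ((1 : ℝ) / ((d / 5 : ℕ) : ℝ)) :=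
    Real.one_le_rpow (by norm_num) (by positivity)
  have hrd : ((4 / 3 : ℝ) ^ ((1 : ℝ) / ((d / 5 : ℕ) : ℝ))) ^ (d / 5) = 4 / 3 := by
    rw [← Real.rpow_natCast, ← Real.rpow_mul (by norm_num), one_div,
      inv_mul_cancel₀ hpos.ne', Real.rpow_one]
  refine ⟨_, hr1, hrd, ?_⟩
  set r : ℝ := (4 / 3 : ℝ) ^ ((1 : ℝ) / ((d / 5 : ℕ) : ℝ)) with hr
  have h0 : 0 ≤ Real.log r := Real.log_nonneg hr1
  have h1 : ((d / 5 : ℕ) : ℝ) * Real.log r = Real.log (4 / 3) := by
    rw [← Real.log_pow, hrd]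
  have h2 : 2 * Real.log 2 ≤ 5 * Real.log (4 / 3) := by
    have h3 : 2 * Real.log 2 = Real.log (2 ^ 2) := by rw [Real.log_pow]; norm_num
    have h4 : 5 * Real.log (4 / 3) = Real.log ((4 / 3) ^ 5) := by rw [Real.log_pow]; norm_num
    rw [h3, h4]
    exact Real.log_le_log (by norm_num) (by norm_num)
  have h5 : 5 * ((d / 5 : ℕ) : ℝ) ≤ d := by
    have h6 : 5 * (d / 5) ≤ d := by omega
    exact_mod_cast h6
  calc 2 * Real.log 2 ≤ 5 * Real.log (4 / 3) := h2
    _ = 5 * ((d / 5 : ℕ) : ℝ) * Real.log r := by rw [← h1]; ring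
    _ ≤ d * Real.log r := mul_le_mul_of_nonneg_right h5 h0

/-- the numerical part -/
theorem final (n d E e x : ℕ) (hd : 5 ≤ d) (hx : d * x + E = d * n + e) (r c : ℝ) (hr : 1 ≤ r)
    (hc : 0 < c) (hr2 : 2 * Real.log 2 ≤ d * Real.log r) (h : r ^ e * c ≤ 2 ^ x) :
    c ≤ 2 ^ n * Real.exp (-(69 / 100 * ((E : ℝ) / d))) := by
  have hd0 : (0 : ℝ) < d := by
    have : 0 < d := by omega
    exact_mod_cast this
  have hre : (0 : ℝ) < r ^ e := by positivity
  have h1 : (e : ℝ) * Real.log r + Real.log c ≤ x * Real.log 2 := by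
    have h2 := Real.log_le_log (by positivity) h
    rwa [Real.log_mul hre.ne' hc.ne', Real.log_pow, Real.log_pow] at h2
  have hx' : (d : ℝ) * x + E = d * n + e := by exact_mod_cast hx
  have hl : (69 / 100 : ℝ) ≤ Real.log 2 := by
    have := Real.log_two_gt_d9
    linarith
  have he : (0 : ℝ) ≤ e := Nat.cast_nonneg e
  have hE : (0 : ℝ) ≤ E := Nat.cast_nonneg E
  have h3 : (e : ℝ) * (2 * Real.log 2) ≤ e * (d * Real.log r) :=
    mul_le_mul_of_nonneg_left hr2 he
  have h4 : d * Real.log c ≤ d * (n * Real.log 2) - 69 / 100 * E := by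
    have h5 : d * ((e : ℝ) * Real.log r + Real.log c) ≤ d * (x * Real.log 2) :=
      mul_le_mul_of_nonneg_left h1 hd0.le
    have h6 : d * ((x : ℝ) * Real.log 2) = (d * n + e - E) * Real.log 2 := by
      rw [← hx']
      ring
    have h7 : 0 ≤ (e : ℝ) * Real.log 2 := mul_nonneg he (by linarith)
    have h8 : (69 / 100 : ℝ) * E ≤ Real.log 2 * E := mul_le_mul_of_nonneg_right hl hE
    nlinarith
  have h9 : Real.log c ≤ n * Real.log 2 + -(69 / 100 * ((E : ℝ) / d)) := by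
    have h10 : d * Real.log c ≤ d * (n * Real.log 2 + -(69 / 100 * ((E : ℝ) / d))) := by
      have h11 : d * (n * Real.log 2 + -(69 / 100 * ((E : ℝ) / d))) =
          d * (n * Real.log 2) - 69 / 100 * E := by
        field_simp
        ring
      rw [h11]
      exact h4
    exact le_of_mul_le_mul_left h10 hd0
  calc c = Real.exp (Real.log c) := (Real.exp_log hc).symm
    _ ≤ Real.exp (n * Real.log 2 + -(69 / 100 * ((E : ℝ) / d))) := Real.exp_le_exp.2 h9
    _ = 2 ^ n * Real.exp (-(69 / 100 * ((E : ℝ) / d))) := by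
      rw [Real.exp_add, ← Real.log_pow, Real.exp_log (by positivity)]

end LFB_

open LFB_ in
theorem p_LFB (h_EDG : T_EDG) (h_DBL : T_DBL) : T_LFB := by
  intro R n d hReg hd s hs hlow
  obtain ⟨e1, e2, e3⟩ := h_EDG R n s hs
  obtain ⟨g1, g2, g3, g4⟩ := hs
  have hX : s.1.toFinset ⊆ range n := fun i hi => mem_range.2 (g3 i (List.mem_toFinset.1 hi))
  have hY : s.2.toFinset ⊆ range n := fun j hj => mem_range.2 (g4 j (List.mem_toFinset.1 hj))
  have h3 := (h_DBL (aj R)).2.2.1 n d hReg _ _ hX hY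
  rw [← e3, List.toFinset_card_of_nodup g1, List.toFinset_card_of_nodup g2] at h3
  obtain ⟨l1, l2⟩ := hlow
  have hu : ∀ u ∈ rws R s, dg u s.2 ≤ d / 5 := by
    intro u hu
    obtain ⟨i, hi', rfl⟩ := List.mem_map.1 hu
    rw [e1 i]
    by_contra hcon
    have h5 : i ∈ hi (aj R) d s.1.toFinset s.2.toFinset := by
      unfold hi
      rw [mem_filter]
      exact ⟨List.mem_toFinset.2 hi', by omega⟩
    rw [l1] at h5
    exact absurd h5 (notMem_empty _)
  have hj : ∀ j ∈ s.2, dgR (rws R s) j ≤ d / 5 := by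
    intro j hj'
    rw [e2 j]
    by_contra hcon
    have h5 : j ∈ hi (tr (aj R)) d s.2.toFinset s.1.toFinset := by
      unfold hi
      rw [mem_filter]
      exact ⟨List.mem_toFinset.2 hj', by omega⟩
    rw [l2] at h5
    exact absurd h5 (notMem_empty _)
  obtain ⟨r, hr1, hr2, hr3⟩ := exists_base d hd
  have h6 := p_MAS p_EFL (d / 5) r hr1 hr2 (rws R s) s.2 hu hj
  have hlen : (rws R s).length = s.1.length := List.length_map _
  rw [hlen] at h6
  have hc : (0 : ℝ) < (cs R s : ℝ) := by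
    have h7 : 2 ^ s.2.length ≤ cs R s := cnt_ge_right _ _
    have h8 : 0 < cs R s := lt_of_lt_of_le (by positivity) h7
    exact_mod_cast h8
  exact final n d _ _ _ hd h3 r _ hr1 hc hr3 h6

end Pool.Agent.BisRt
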