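import Pool.Agent.BisRt.Targets

/-!
# Lists and sets

MP_29585b_lc, project BRT, block LNK.
-/

set_option autoImplicit false

namespace Pool.Agent.BisRt

open Finset Pool.Agent.PT Pool.Agent.BisTh Pool.Agent.BisRg

namespace LNK_

lemma filter_len {L : List ℕ} (h : L.Nodup) (p : ℕ → Bool) :
    (L.filter p).length = (L.toFinset.filter fun x => p x = true).card := by
  rw [← List.toFinset_filter, List.toFinset_card_of_nodup (h.filter p)]

lemma nbr_len (R : List (List Bool)) {J : List ℕ} (hJ : J.Nodup) (i : ℕ) :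
    (nbr R J i).length = (nb (aj R) J.toFinset i).card :=
  filter_len hJ fun j => aj R i j

lemma nbl_len (R : List (List Bool)) {I : List ℕ} (hI : I.Nodup) (j : ℕ) :
    (nbl R I j).length = (nb (tr (aj R)) I.toFinset j).card :=
  filter_len hI fun i => aj R i j

lemma nbr_toF (R : List (List Bool)) (J : List ℕ) (i : ℕ) :
    (nbr R J i).toFinset = nb (aj R) J.toFinset i :=
  List.toFinset_filter J fun j => aj R i j

lemma nbl_toF (R : List (List Bool)) (I : List ℕ) (j : ℕ) :
    (nbl R I j).toFinset = nb (tr (aj R)) I.toFinset j :=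
  List.toFinset_filter I fun i => aj R i j

lemma cmp_nodup {V : List ℕ} (I : List ℕ) (hV : V.Nodup) : (cmp V I).Nodup :=
  hV.filter _

lemma cmp_toF (n : ℕ) (I : List ℕ) :
    (cmp (List.range n) I).toFinset = range n \ I.toFinset := by
  ext i
  simp only [cmp, List.toFinset_filter, mem_filter, List.mem_toFinset, List.mem_range,
    Bool.not_eq_true', List.any_eq_false, decide_eq_true_eq, mem_sdiff, mem_range]
  refine and_congr_right fun _ => ⟨fun h hi => h i hi rfl, fun h x hx hxi => h (hxi ▸ hx)⟩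

lemma flat {L : List ℕ} (hL : L.Nodup) (f : ℕ → List ℕ) (g : ℕ → ℕ)
    (h : ∀ a, (f a).length = g a) : (L.flatMap f).length = ∑ a ∈ L.toFinset, g a := by
  rw [List.length_flatMap, List.sum_toFinset g hL]
  congr 1
  exact List.map_congr_left fun a _ => h a

end LNK_

open LNK_ in
theorem p_LNK : T_LNK := by
  intro R n s hs
  obtain ⟨h1, h2, -, -⟩ := hs
  have hc1 := cmp_nodup s.1 (List.nodup_range (n := n))
  have hc2 := cmp_nodup s.2 (List.nodup_range (n := n))
  refine ⟨nbr_len R h2, nbl_len R h1, fun i => ?_, fun j => ?_, ?_⟩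
  · unfold incL inc
    have hd : (nbr R s.2 i).Nodup := h2.filter _
    rw [flat hd _ _ fun j => nbl_len R hc1 j, cmp_toF, nbr_toF]
  · unfold incR inc
    have hd : (nbl R s.1 j).Nodup := h1.filter _
    rw [flat hd _ _ fun i => nbr_len R hc2 i, cmp_toF, nbl_toF]
    rfl
  · unfold ed Ed
    rw [flat hc1 _ _ fun i => nbr_len R hc2 i, cmp_toF, cmp_toF]

end Pool.Agent.BisRt
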