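import Pool.Agent.BisRt.Targets

/-!
# Proof of NUM (MP_29585b_lc)

Numerical estimates for the growth factor and for the limits of the algorithm.
-/

set_option autoImplicit false

namespace Pool.Agent.BisRt

open Finset Pool.Agent.PT Pool.Agent.BisTh Pool.Agent.BisRg

namespace NUM_

theorem two_pow_le_exp (m : ℕ) : (2 : ℝ) ^ m ≤ Real.exp (m : ℝ) := by
  have h : (2 : ℝ) ≤ Real.exp 1 := by
    have := Real.add_one_le_exp (1 : ℝ)
    linarith
  calc (2 : ℝ) ^ m ≤ (Real.exp 1) ^ m := pow_le_pow_left₀ (by norm_num) h m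
    _ = Real.exp (m : ℝ) := by rw [← Real.exp_nat_mul, mul_one]

theorem gr_pow (n : ℕ) : gr (Nat.size n + 1) ^ (2 * n) ≤ Real.exp 1 := by
  have h1 : n < 2 ^ (Nat.size n) := Nat.lt_size_self n
  have h2 : 2 * n ≤ 2 ^ (Nat.size n + 1) := by
    rw [pow_succ]
    omega
  have h3 : 2 * (n : ℝ) ≤ 2 ^ (Nat.size n + 1) := by exact_mod_cast h2
  have h4 := two_pow_le_exp (Nat.size n + 1)
  have hx0 : 0 < Real.exp (-((Nat.size n + 1 : ℕ) : ℝ)) := Real.exp_pos _
  have hxm : Real.exp (-((Nat.size n + 1 : ℕ) : ℝ)) *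
      Real.exp ((Nat.size n + 1 : ℕ) : ℝ) = 1 := by
    rw [← Real.exp_add, neg_add_cancel, Real.exp_zero]
  have hgr : gr (Nat.size n + 1) = 1 + Real.exp (-((Nat.size n + 1 : ℕ) : ℝ)) := rfl
  rw [hgr]
  generalize Real.exp (-((Nat.size n + 1 : ℕ) : ℝ)) = x at *
  have h5 : 2 * (n : ℝ) * x ≤ 1 := by
    have h6 : 2 * (n : ℝ) ≤ Real.exp ((Nat.size n + 1 : ℕ) : ℝ) := le_trans h3 h4
    have h7 := mul_le_mul_of_nonneg_right h6 hx0.le
    linarith [mul_comm x (Real.exp ((Nat.size n + 1 : ℕ) : ℝ))]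
  calc (1 + x) ^ (2 * n) ≤ (Real.exp x) ^ (2 * n) := by
        apply pow_le_pow_left₀ (by positivity)
        have := Real.add_one_le_exp x
        linarith
    _ = Real.exp (2 * (n : ℝ) * x) := by
        rw [← Real.exp_nat_mul]
        push_cast
        rfl
    _ ≤ Real.exp 1 := Real.exp_le_exp.mpr h5

/-- `2 ^ size w ≤ 2 w`. -/
theorem size_le (w : ℕ) (hw : 1 ≤ w) : 2 ^ (Nat.size w) ≤ 2 * w := by
  have h0 : 0 < Nat.size w := Nat.size_pos.mpr hw
  have h1 : Nat.size w - 1 < Nat.size w := by omega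
  have h2 : 2 ^ (Nat.size w - 1) ≤ w := Nat.lt_size.mp h1
  have h3 : Nat.size w = (Nat.size w - 1) + 1 := by omega
  rw [h3, pow_succ]
  omega

theorem exp_two_le : Real.exp 2 ≤ 8 := by
  have h := Real.exp_one_lt_d9
  have h2 : Real.exp 2 = Real.exp 1 * Real.exp 1 := by
    rw [← Real.exp_add]
    norm_num
  rw [h2]
  have h0 : 0 < Real.exp 1 := Real.exp_pos 1
  nlinarith

/-- `e ^ (680 m) ≤ (2 ^ m) ^ 1020`. -/
theorem exp_le (m : ℕ) : Real.exp (680 * (m : ℝ)) ≤ ((2 : ℝ) ^ m) ^ 1020 := by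
  have h1 : Real.exp (680 * (m : ℝ)) = (Real.exp 2) ^ (340 * m) := by
    rw [← Real.exp_nat_mul]
    congr 1
    push_cast
    ring
  have h2 : (8 : ℝ) ^ (340 * m) = ((2 : ℝ) ^ m) ^ 1020 := by
    have h3 : (8 : ℝ) = 2 ^ 3 := by norm_num
    rw [h3, ← pow_mul, ← pow_mul]
    congr 1
    ring
  rw [h1, ← h2]
  exact pow_le_pow_left₀ (Real.exp_pos 2).le exp_two_le _

/-- `2 ^ m ≤ B ^ 2`. -/
theorem two_pow_le (w t : ℕ) (hw : 1 ≤ w) (ht : 1 ≤ t) :
    2 ^ (Nat.size w + Nat.size t + 1) ≤ (2 * w + 2 * t + 3) ^ 2 := by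
  have h1 := size_le w hw
  have h2 := size_le t ht
  have h3 : 2 ^ (Nat.size w) * 2 ^ (Nat.size t) ≤ (2 * w) * (2 * t) := Nat.mul_le_mul h1 h2
  rw [pow_succ, pow_add]
  nlinarith

end NUM_

open NUM_ in
theorem p_NUM : T_NUM := by
  refine ⟨fun n _ => gr_pow n, ?_⟩
  intro n d k w t hd hn hk ht
  have hw : 1 ≤ w := le_trans Nat.one_le_two_pow hk
  have hks : k < Nat.size w := Nat.lt_size.mpr hk
  have hd0 : (0 : ℝ) < d := by exact_mod_cast hd
  have hst : 0 < Nat.size t := Nat.size_pos.mpr ht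
  have hnd : (n : ℝ) / d ≤ k := by
    rw [div_le_iff₀ hd0]
    have : (n : ℝ) ≤ (d : ℝ) * k := by exact_mod_cast hn
    linarith
  have hKd : (((d * (1000 * (Nat.size w + Nat.size t + 1)) : ℕ) : ℝ) / d) =
      1000 * ((Nat.size w : ℝ) + Nat.size t + 1) := by
    push_cast
    field_simp
  have hks' : (k : ℝ) + 1 ≤ Nat.size w := by exact_mod_cast hks
  have hst' : (1 : ℝ) ≤ Nat.size t := by exact_mod_cast hst
  rw [hKd]
  constructor
  · rw [← Real.exp_add, ← Real.exp_add]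
    have h1 : Real.exp (1 + 80 * ((n : ℝ) / d) +
        3 / 5 * (1000 * ((Nat.size w : ℝ) + Nat.size t + 1))) ≤
        Real.exp (680 * ((Nat.size w + Nat.size t + 1 : ℕ) : ℝ)) := by
      apply Real.exp_le_exp.mpr
      push_cast
      linarith
    have h2 := exp_le (Nat.size w + Nat.size t + 1)
    have h3 : ((2 : ℝ) ^ (Nat.size w + Nat.size t + 1)) ≤ ((2 * w + 2 * t + 3 : ℕ) : ℝ) ^ 2 := by
      exact_mod_cast two_pow_le w t hw ht
    have h4 : ((2 : ℝ) ^ (Nat.size w + Nat.size t + 1)) ^ 1020 ≤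
        (((2 * w + 2 * t + 3 : ℕ) : ℝ) ^ 2) ^ 1020 :=
      pow_le_pow_left₀ (by positivity) h3 _
    have h5 : (((2 * w + 2 * t + 3 : ℕ) : ℝ) ^ 2) ^ 1020 ≤
        ((2 * w + 2 * t + 3 : ℕ) : ℝ) ^ 2100 := by
      rw [← pow_mul]
      apply pow_le_pow_right₀
      · have : 1 ≤ 2 * w + 2 * t + 3 := by omega
        exact_mod_cast this
      · norm_num
    have h6 : (((2 * w + 2 * t + 3) ^ 2100 : ℕ) : ℝ) = ((2 * w + 2 * t + 3 : ℕ) : ℝ) ^ 2100 :=
      Nat.cast_pow _ _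
    rw [h6]
    exact h1.trans (h2.trans (h4.trans h5))
  · have h1 : 2 * (t : ℝ) ≤ Real.exp ((Nat.size t + 1 : ℕ) : ℝ) := by
      have h2 : t < 2 ^ (Nat.size t) := Nat.lt_size_self t
      have h3 : 2 * t ≤ 2 ^ (Nat.size t + 1) := by
        rw [pow_succ]
        omega
      have h4 : 2 * (t : ℝ) ≤ 2 ^ (Nat.size t + 1) := by exact_mod_cast h3
      exact h4.trans (two_pow_le_exp _)
    rw [← Real.exp_add, ← Real.exp_add, ← Real.exp_add]
    calc 2 * (t : ℝ) * Real.exp (1 + -(9 / 100 * (1000 * ((Nat.size w : ℝ) + Nat.size t + 1))) +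
          (1 + 80 * ((n : ℝ) / d)))
        ≤ Real.exp ((Nat.size t + 1 : ℕ) : ℝ) * Real.exp (-((Nat.size t + 1 : ℕ) : ℝ)) := by
          apply mul_le_mul h1 _ (Real.exp_pos _).le (Real.exp_pos _).le
          apply Real.exp_le_exp.mpr
          push_cast
          linarith
      _ = 1 := by rw [← Real.exp_add, add_neg_cancel, Real.exp_zero]

end Pool.Agent.BisRt
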