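import Pool.Agent.BisRt.Targets

/-!
# PTC: the candidates, the chosen one and the number of edges in polynomial time
-/

set_option autoImplicit false

namespace Pool.Agent.BisRt

open Finset Pool.Agent.PT Pool.Agent.BisTh Pool.Agent.BisRg

namespace PTC_

/-- the step of `best` -/
def bst (b c : Bool × ℕ × ℕ) : Bool × ℕ × ℕ := cond (decide (b.2.2 < c.2.2)) c b

theorem foldl_mem (l : List (Bool × ℕ × ℕ)) : ∀ b : Bool × ℕ × ℕ,
    l.foldl bst b = b ∨ l.foldl bst b ∈ l := by
  induction l with
  | nil => intro b; left; rfl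
  | cons c l ih =>
    intro b
    rw [List.foldl_cons]
    rcases ih (bst b c) with h | h
    · rw [h]
      unfold bst
      cases decide (b.2.2 < c.2.2)
      · left; rfl
      · right; exact List.mem_cons_self
    · right; exact List.mem_cons_of_mem _ h

theorem headD_mem (l : List (Bool × ℕ × ℕ)) (d : Bool × ℕ × ℕ) : l.headD d = d ∨ l.headD d ∈ l := by
  cases l with
  | nil => left; rfl
  | cons c l => right; exact List.mem_cons_self

section

variable {γ : Type} [Dat γ] [hC : Fact Core]

theorem aj_pt {R : γ → List (List Bool)} {i j : γ → ℕ} (hR : PolyF R) (hi : PolyF i)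
    (hj : PolyF j) : PolyF (fun x => aj (R x) (i x) (j x)) := by
  unfold aj
  fun_prop

theorem nbr_pt {R : γ → List (List Bool)} {J : γ → List ℕ} {i : γ → ℕ} (hR : PolyF R)
    (hJ : PolyF J) (hi : PolyF i) : PolyF (fun x => nbr (R x) (J x) (i x)) := by
  unfold nbr
  exact PolyF.filter (f := fun (x : γ) j => aj (R x) (i x) j)
    (aj_pt (by fun_prop) (by fun_prop) (by fun_prop)) hJ

theorem nbl_pt {R : γ → List (List Bool)} {I : γ → List ℕ} {j : γ → ℕ} (hR : PolyF R)
    (hI : PolyF I) (hj : PolyF j) : PolyF (fun x => nbl (R x) (I x) (j x)) := by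
  unfold nbl
  exact PolyF.filter (f := fun (x : γ) i => aj (R x) i (j x))
    (aj_pt (by fun_prop) (by fun_prop) (by fun_prop)) hI

theorem cmp_pt {V I : γ → List ℕ} (hV : PolyF V) (hI : PolyF I) :
    PolyF (fun x => cmp (V x) (I x)) := by
  unfold cmp
  refine PolyF.filter (f := fun (x : γ) i => !((I x).any fun i' => decide (i' = i))) ?_ hV
  refine PolyF.not ?_
  exact PolyF.any (f := fun (p : γ × ℕ) i' => decide (i' = p.2)) (by fun_prop) (by fun_prop)

theorem incL_pt {R : γ → List (List Bool)} {V : γ → List ℕ} {s : γ → SI} {i : γ → ℕ}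
    (hR : PolyF R) (hV : PolyF V) (hs : PolyF s) (hi : PolyF i) :
    PolyF (fun x => incL (R x) (V x) (s x) (i x)) := by
  unfold incL
  have h1 : PolyF (fun x => nbr (R x) (s x).2 (i x)) := nbr_pt hR (by fun_prop) hi
  have h2 : PolyF (fun p : γ × ℕ => nbl (R p.1) (cmp (V p.1) (s p.1).1) p.2) :=
    nbl_pt (by fun_prop) (cmp_pt (by fun_prop) (by fun_prop)) (by fun_prop)
  exact (PolyF.flatMap (f := fun (x : γ) j => nbl (R x) (cmp (V x) (s x).1) j) h2 h1).length

theorem incR_pt {R : γ → List (List Bool)} {V : γ → List ℕ} {s : γ → SI} {j : γ → ℕ}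
    (hR : PolyF R) (hV : PolyF V) (hs : PolyF s) (hj : PolyF j) :
    PolyF (fun x => incR (R x) (V x) (s x) (j x)) := by
  unfold incR
  have h1 : PolyF (fun x => nbl (R x) (s x).1 (j x)) := nbl_pt hR (by fun_prop) hj
  have h2 : PolyF (fun p : γ × ℕ => nbr (R p.1) (cmp (V p.1) (s p.1).2) p.2) :=
    nbr_pt (by fun_prop) (cmp_pt (by fun_prop) (by fun_prop)) (by fun_prop)
  exact (PolyF.flatMap (f := fun (x : γ) i => nbr (R x) (cmp (V x) (s x).2) i) h2 h1).length

theorem ed_pt {R : γ → List (List Bool)} {V : γ → List ℕ} {s : γ → SI}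
    (hR : PolyF R) (hV : PolyF V) (hs : PolyF s) : PolyF (fun x => ed (R x) (V x) (s x)) := by
  unfold ed
  have h1 : PolyF (fun x => cmp (V x) (s x).1) := cmp_pt hV (by fun_prop)
  have h2 : PolyF (fun p : γ × ℕ => nbr (R p.1) (cmp (V p.1) (s p.1).2) p.2) :=
    nbr_pt (by fun_prop) (cmp_pt (by fun_prop) (by fun_prop)) (by fun_prop)
  exact (PolyF.flatMap (f := fun (x : γ) i => nbr (R x) (cmp (V x) (s x).2) i) h2 h1).length

theorem big_pt {D n : γ → ℕ} (hD : PolyF D) (hn : PolyF n) : PolyF (fun x => big (D x) (n x)) := by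
  unfold big
  fun_prop

theorem cands_pt {D : γ → ℕ} {R : γ → List (List Bool)} {V : γ → List ℕ} {s : γ → SI}
    (hD : PolyF D) (hR : PolyF R) (hV : PolyF V) (hs : PolyF s) :
    PolyF (fun x => cands (D x) (R x) (V x) (s x)) := by
  unfold cands
  have h1 : PolyF (fun x => (s x).1.filter fun i => big (D x) (nbr (R x) (s x).2 i).length) := by
    refine PolyF.filter (f := fun (x : γ) i => big (D x) (nbr (R x) (s x).2 i).length) ?_
      (by fun_prop)
    exact big_pt (by fun_prop) (nbr_pt (by fun_prop) (by fun_prop) (by fun_prop)).length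
  have h2 : PolyF (fun x => (s x).2.filter fun j => big (D x) (nbl (R x) (s x).1 j).length) := by
    refine PolyF.filter (f := fun (x : γ) j => big (D x) (nbl (R x) (s x).1 j).length) ?_
      (by fun_prop)
    exact big_pt (by fun_prop) (nbl_pt (by fun_prop) (by fun_prop) (by fun_prop)).length
  have h3 : PolyF (fun p : γ × ℕ => (false, p.2, incL (R p.1) (V p.1) (s p.1) p.2)) :=
    (PolyF.const _).pair ((PolyF.snd PolyF.id).pair
      (incL_pt (by fun_prop) (by fun_prop) (by fun_prop) (by fun_prop)))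
  have h4 : PolyF (fun p : γ × ℕ => (true, p.2, incR (R p.1) (V p.1) (s p.1) p.2)) :=
    (PolyF.const _).pair ((PolyF.snd PolyF.id).pair
      (incR_pt (by fun_prop) (by fun_prop) (by fun_prop) (by fun_prop)))
  exact PolyF.append
    (PolyF.map (f := fun (x : γ) i => (false, i, incL (R x) (V x) (s x) i)) h3 h1)
    (PolyF.map (f := fun (x : γ) j => (true, j, incR (R x) (V x) (s x) j)) h4 h2)

theorem best_pt : PolyF (fun l : List (Bool × ℕ × ℕ) => best l) := by
  unfold best
  refine PolyF.foldl (f := fun (_ : List (Bool × ℕ × ℕ)) (b c : Bool × ℕ × ℕ) => bst b c)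
    (by unfold bst; fun_prop) (by fun_prop) PolyF.id
    (fun l => sz l + sz ((false, 0, 0) : Bool × ℕ × ℕ)) (PolyB.sz.add (PolyB.const _)) ?_
  intro l l₁ hl₁
  rcases foldl_mem l₁ (l.headD (false, 0, 0)) with h | h
  · show sz (l₁.foldl bst (l.headD (false, 0, 0))) ≤ _
    rw [h]
    rcases headD_mem l (false, 0, 0) with h' | h'
    · rw [h']
      omega
    · have := sz_mem h'
      omega
  · have h1 := sz_mem h
    have h2 := sz_le_of_prefix hl₁
    show sz (l₁.foldl bst (l.headD (false, 0, 0))) ≤ _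
    omega

end

end PTC_

open PTC_ in
theorem p_PTC : T_PTC := by
  intro hC
  exact ⟨cands_pt (by fun_prop) (by fun_prop) (by fun_prop) (by fun_prop),
    ed_pt (by fun_prop) (by fun_prop) (by fun_prop), best_pt⟩

end Pool.Agent.BisRt
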