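import Pool.Agent.BisRt.Targets

set_option autoImplicit false

namespace Pool.Agent.BisRt

open Finset Pool.Agent.PT Pool.Agent.BisTh Pool.Agent.BisRg

namespace BST_

/-- the step of the fold -/
def stp (b c : Bool × ℕ × ℕ) : Bool × ℕ × ℕ := cond (decide (b.2.2 < c.2.2)) c b

theorem stp_or (b c : Bool × ℕ × ℕ) : stp b c = b ∨ stp b c = c := by
  unfold stp
  by_cases h : b.2.2 < c.2.2
  · right; simp [h]
  · left; simp [h]

theorem stp_ge (b c : Bool × ℕ × ℕ) : b.2.2 ≤ (stp b c).2.2 ∧ c.2.2 ≤ (stp b c).2.2 := by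
  unfold stp
  by_cases h : b.2.2 < c.2.2
  · simp [h]; omega
  · simp [h]; omega

theorem fold_spec (l : List (Bool × ℕ × ℕ)) : ∀ b : Bool × ℕ × ℕ,
    (l.foldl stp b = b ∨ l.foldl stp b ∈ l) ∧ b.2.2 ≤ (l.foldl stp b).2.2 ∧
    ∀ c ∈ l, c.2.2 ≤ (l.foldl stp b).2.2 := by
  induction l with
  | nil => intro b; simp
  | cons a l ih =>
    intro b
    rw [List.foldl_cons]
    obtain ⟨h1, h2, h3⟩ := ih (stp b a)
    obtain ⟨g1, g2⟩ := stp_ge b a
    refine ⟨?_, g1.trans h2, ?_⟩
    · rcases h1 with h1 | h1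
      · rw [h1]
        rcases stp_or b a with h | h
        · left; exact h
        · right; rw [h]; exact List.mem_cons_self
      · right; exact List.mem_cons_of_mem _ h1
    · intro c hc
      rcases List.mem_cons.1 hc with hc | hc
      · subst hc; exact g2.trans h2
      · exact h3 c hc

theorem best_spec (l : List (Bool × ℕ × ℕ)) (hl : l ≠ []) :
    best l ∈ l ∧ ∀ c ∈ l, c.2.2 ≤ (best l).2.2 := by
  have hb : best l = l.foldl stp (l.headD (false, 0, 0)) := rfl
  obtain ⟨h1, h2, h3⟩ := fold_spec l (l.headD (false, 0, 0))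
  rw [hb]
  refine ⟨?_, h3⟩
  rcases h1 with h1 | h1
  · rw [h1]
    cases l with
    | nil => exact absurd rfl hl
    | cons a l => simp
  · exact h1

theorem big_iff (D n : ℕ) : big D n = true ↔ D < 5 * n := by
  unfold big
  rw [decide_eq_true_iff]
  omega

theorem mem_cands (D : ℕ) (R : List (List Bool)) (V : List ℕ) (s : SI) (c : Bool × ℕ × ℕ) :
    c ∈ cands D R V s ↔
      (∃ i ∈ s.1, D < 5 * (nbr R s.2 i).length ∧ c = (false, i, incL R V s i)) ∨
      ∃ j ∈ s.2, D < 5 * (nbl R s.1 j).length ∧ c = (true, j, incR R V s j) := by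
  unfold cands
  rw [List.mem_append, List.mem_map, List.mem_map]
  constructor
  · rintro (⟨i, hi, h⟩ | ⟨j, hj, h⟩)
    · rw [List.mem_filter, big_iff] at hi
      exact Or.inl ⟨i, hi.1, hi.2, h.symm⟩
    · rw [List.mem_filter, big_iff] at hj
      exact Or.inr ⟨j, hj.1, hj.2, h.symm⟩
  · rintro (⟨i, hi, h, rfl⟩ | ⟨j, hj, h, rfl⟩)
    · exact Or.inl ⟨i, by rw [List.mem_filter, big_iff]; exact ⟨hi, h⟩, rfl⟩
    · exact Or.inr ⟨j, by rw [List.mem_filter, big_iff]; exact ⟨hj, h⟩, rfl⟩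

end BST_

open BST_ in
theorem p_BST (h_LNK : T_LNK) : T_BST := by
  intro R n D s hs
  obtain ⟨l1, l2, l3, l4, -⟩ := h_LNK R n s hs
  have hA : ∀ i, i ∈ hi (aj R) D s.1.toFinset s.2.toFinset ↔
      i ∈ s.1 ∧ D < 5 * (nbr R s.2 i).length := by
    intro i
    unfold hi
    rw [Finset.mem_filter, List.mem_toFinset, l1 i]
  have hB : ∀ j, j ∈ hi (tr (aj R)) D s.2.toFinset s.1.toFinset ↔
      j ∈ s.2 ∧ D < 5 * (nbl R s.1 j).length := by
    intro j
    unfold hi
    rw [Finset.mem_filter, List.mem_toFinset, l2 j]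
  constructor
  · intro h
    constructor
    · refine Finset.eq_empty_of_forall_notMem fun i hi' => ?_
      rw [hA] at hi'
      have : (false, i, incL R (List.range n) s i) ∈ cands D R (List.range n) s :=
        (mem_cands _ _ _ _ _).2 (Or.inl ⟨i, hi'.1, hi'.2, rfl⟩)
      rw [h] at this
      simp at this
    · refine Finset.eq_empty_of_forall_notMem fun j hj' => ?_
      rw [hB] at hj'
      have : (true, j, incR R (List.range n) s j) ∈ cands D R (List.range n) s :=
        (mem_cands _ _ _ _ _).2 (Or.inr ⟨j, hj'.1, hj'.2, rfl⟩)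
      rw [h] at this
      simp at this
  · intro h
    obtain ⟨hm, hmax⟩ := best_spec _ h
    have hm' := (mem_cands _ _ _ _ _).1 hm
    refine ⟨?_, ?_, ?_, ?_⟩
    · intro h1
      rcases hm' with ⟨i, hi1, hi2, he⟩ | ⟨j, hj1, hj2, he⟩
      · rw [he]
        exact ⟨(hA i).2 ⟨hi1, hi2⟩, l3 i⟩
      · rw [he] at h1; simp at h1
    · intro h1
      rcases hm' with ⟨i, hi1, hi2, he⟩ | ⟨j, hj1, hj2, he⟩
      · rw [he] at h1; simp at h1
      · rw [he]
        exact ⟨(hB j).2 ⟨hj1, hj2⟩, l4 j⟩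
    · intro i hi'
      rw [hA] at hi'
      have := hmax (false, i, incL R (List.range n) s i)
        ((mem_cands _ _ _ _ _).2 (Or.inl ⟨i, hi'.1, hi'.2, rfl⟩))
      rw [← l3 i]
      exact this
    · intro j hj'
      rw [hB] at hj'
      have := hmax (true, j, incR R (List.range n) s j)
        ((mem_cands _ _ _ _ _).2 (Or.inr ⟨j, hj'.1, hj'.2, rfl⟩))
      rw [← l4 j]
      exact this

end Pool.Agent.BisRt
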