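import Pool.Agent.BisRt.Targets

set_option autoImplicit false

namespace Pool.Agent.BisRt

open Finset Pool.Agent.PT Pool.Agent.BisTh Pool.Agent.BisRg

namespace CSK_

theorem perm_filter {l : List ℕ} {u : ℕ} (hl : l.Nodup) (hu : u ∈ l) :
    l.Perm (u :: l.filter fun i => !(decide (i = u))) := by
  have h1 := List.perm_cons_erase hu
  rw [hl.erase_eq_filter] at h1
  have h2 : (fun i => !(decide (i = u))) = (fun i : ℕ => i != u) := by
    funext i
    by_cases h : i = u <;> simp [h]
  rw [h2]
  exact h1

end CSK_

theorem p_CSK : T_CSK := by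
  intro R s h1 h2
  refine ⟨fun u m hu => ?_, fun v m hv => ?_⟩
  · have hp := (CSK_.perm_filter h1 hu).map fun i => R.getD i []
    have hc := Pool.Agent.BisRg.p_PRM.2 _ _ s.2 hp
    rw [List.map_cons, cnt] at hc
    simp only [kids, cond_false, List.map_cons, List.map_nil, List.sum_cons, List.sum_nil,
      add_zero, cs]
    rw [hc]
    rfl
  · have hp := CSK_.perm_filter h2 hv
    have hc := Pool.Agent.BisRg.p_PRM.1 (s.1.map fun i => R.getD i []) _ _ hp
    rw [cnt_cons_right, List.filter_map] at hc
    simp only [kids, cond_true, List.map_cons, List.map_nil, List.sum_cons, List.sum_nil,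
      add_zero, cs]
    rw [hc]
    rfl

end Pool.Agent.BisRt
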