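import Pool.Agent.BisRt.Targets

/-!
MP_29585b_lc, project BRT: the children of a state (target KID).
-/

set_option autoImplicit false

namespace Pool.Agent.BisRt

open Finset Pool.Agent.PT Pool.Agent.BisTh Pool.Agent.BisRg

namespace KID_

theorem er (l : List ℕ) (u : ℕ) :
    (l.filter fun i => !(decide (i = u))).toFinset = l.toFinset.erase u := by
  ext i
  simp only [List.mem_toFinset, List.mem_filter, Finset.mem_erase, Bool.not_eq_true',
    decide_eq_false_iff_not]
  exact and_comm

theorem lt (l : List ℕ) (u : ℕ) (h : u ∈ l) :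
    (l.filter fun i => !(decide (i = u))).length < l.length := by
  apply lt_of_le_of_ne (List.length_filter_le _ _)
  intro he
  rw [List.length_filter_eq_length_iff] at he
  have := he u h
  simp at this

theorem sd (l : List ℕ) (f : ℕ → Bool) :
    (l.filter fun i => !(f i)).toFinset = l.toFinset \ l.toFinset.filter fun i => f i = true := by
  ext i
  simp only [List.mem_toFinset, List.mem_filter, Finset.mem_sdiff, Finset.mem_filter,
    Bool.not_eq_true']
  constructor
  · rintro ⟨h1, h2⟩
    exact ⟨h1, fun h3 => by rw [h3.2] at h2; exact absurd h2 (by decide)⟩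
  · rintro ⟨h1, h2⟩
    refine ⟨h1, ?_⟩
    cases hf : f i
    · rfl
    · exact absurd ⟨h1, hf⟩ h2

theorem gd {n : ℕ} {s : SI} (h : GoodS n s) (p q : ℕ → Bool) :
    GoodS n (s.1.filter p, s.2.filter q) :=
  ⟨h.1.filter _, h.2.1.filter _, fun i hi => h.2.2.1 i (List.mem_of_mem_filter hi),
    fun j hj => h.2.2.2 j (List.mem_of_mem_filter hj)⟩

theorem gd1 {n : ℕ} {s : SI} (h : GoodS n s) (p : ℕ → Bool) :
    GoodS n (s.1.filter p, s.2) :=
  ⟨h.1.filter _, h.2.1, fun i hi => h.2.2.1 i (List.mem_of_mem_filter hi), h.2.2.2⟩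

theorem gd2 {n : ℕ} {s : SI} (h : GoodS n s) (q : ℕ → Bool) :
    GoodS n (s.1, s.2.filter q) :=
  ⟨h.1, h.2.1.filter _, h.2.2.1, fun j hj => h.2.2.2 j (List.mem_of_mem_filter hj)⟩

end KID_

open KID_

theorem p_KID : T_KID := by
  intro R n s hs
  refine ⟨fun u m hu => ?_, fun v m hv => ?_⟩
  · refine ⟨(s.1.filter fun i => !(decide (i = u)), s.2),
      (s.1.filter fun i => !(decide (i = u)), s.2.filter fun j => !(aj R u j)), rfl,
      gd1 hs _, gd hs _ _, er _ _, rfl, er _ _, sd _ _, ?_, ?_⟩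
    · exact Nat.add_lt_add_right (lt _ _ hu) _
    · exact Nat.add_lt_add_of_lt_of_le (lt _ _ hu) (List.length_filter_le _ _)
  · refine ⟨(s.1, s.2.filter fun j => !(decide (j = v))),
      (s.1.filter fun i => !(aj R i v), s.2.filter fun j => !(decide (j = v))), rfl,
      gd2 hs _, gd hs _ _, er _ _, rfl, er _ _, sd _ _, ?_, ?_⟩
    · exact Nat.add_lt_add_left (lt _ _ hv) _
    · exact Nat.add_lt_add_of_le_of_lt (List.length_filter_le _ _) (lt _ _ hv)

end Pool.Agent.BisRt
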