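import Pool.Agent.BisRt.Targets

set_option autoImplicit false

namespace Pool.Agent.BisRt

open Finset Pool.Agent.PT Pool.Agent.BisTh Pool.Agent.BisRg

namespace STS_

theorem mem_hi {adj : ℕ → ℕ → Bool} {d : ℕ} {X Y : Finset ℕ} {i : ℕ} (h : i ∈ hi adj d X Y) :
    i ∈ X := (Finset.mem_filter.1 h).1

theorem two (h_KID : T_KID) (h_CSK : T_CSK) (R : List (List Bool)) (n D : ℕ) (s : SI)
    (hs : GoodS n s) (c : Bool × ℕ × ℕ)
    (hc : Chosen (aj R) n D s.1.toFinset s.2.toFinset c) :
    ∃ s₁ s₂ : SI, kids R c s = [s₁, s₂] ∧ GoodS n s₁ ∧ GoodS n s₂ ∧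
      s₁.1.length + s₁.2.length < s.1.length + s.2.length ∧
      s₂.1.length + s₂.2.length < s.1.length + s.2.length ∧
      ((kids R c s).map (cs R)).sum = cs R s := by
  obtain ⟨b, u, m⟩ := c
  obtain ⟨h1, h2, -, -⟩ := hc
  obtain ⟨k1, k2⟩ := h_KID R n s hs
  obtain ⟨c1, c2⟩ := h_CSK R s hs.1 hs.2.1
  cases b with
  | false =>
    have hu : u ∈ s.1 := List.mem_toFinset.1 (mem_hi (h1 rfl).1)
    obtain ⟨s₁, s₂, e, g1, g2, -, -, -, -, l1, l2⟩ := k1 u m hu
    exact ⟨s₁, s₂, e, g1, g2, l1, l2, c1 u m hu⟩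
  | true =>
    have hu : u ∈ s.2 := List.mem_toFinset.1 (mem_hi (h2 rfl).1)
    obtain ⟨s₁, s₂, e, g1, g2, -, -, -, -, l1, l2⟩ := k2 u m hu
    exact ⟨s₁, s₂, e, g1, g2, l1, l2, c2 u m hu⟩

theorem sum_filter_le {α : Type} (f : α → ℕ) (p : α → Bool) (l : List α) :
    ((l.filter p).map f).sum ≤ (l.map f).sum := by
  induction l with
  | nil => simp
  | cons a l ih =>
    rw [List.filter_cons]
    split_ifs
    · simp only [List.map_cons, List.sum_cons]
      omega
    · simp only [List.map_cons, List.sum_cons]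
      omega

end STS_

open STS_ in
theorem p_STS (h_BST : T_BST) (h_KID : T_KID) (h_CSK : T_CSK) : T_STS := by
  intro R n D K s hs
  obtain ⟨hb1, hb2⟩ := h_BST R n D s hs
  by_cases hc : cands D R (List.range n) s = []
  · have e : stepT D K R (List.range n) s = [s] := by
      unfold stepT
      rw [hc]
      rfl
    rw [e]
    refine ⟨?_, by simp, by simp⟩
    intro s' h'
    rw [List.mem_singleton] at h'
    subst h'
    exact ⟨hs, id, Or.inl (hb1 hc)⟩
  · have hch := hb2 hc
    have he : (cands D R (List.range n) s).isEmpty = false := by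
      cases h : cands D R (List.range n) s with
      | nil => exact absurd h hc
      | cons a l => rfl
    have e : stepT D K R (List.range n) s =
        (kids R (best (cands D R (List.range n) s)) s).filter
          fun s' => decide (ed R (List.range n) s' ≤ K) := by
      unfold stepT
      rw [he]
      rfl
    obtain ⟨s₁, s₂, hk, g1, g2, l1, l2, hsum⟩ := two h_KID h_CSK R n D s hs _ hch
    rw [e]
    refine ⟨?_, ?_, ?_⟩
    · intro s' h'
      obtain ⟨m1, m2⟩ := List.mem_filter.1 h'
      rw [decide_eq_true_eq] at m2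
      rw [hk] at m1
      simp only [List.mem_cons, List.not_mem_nil, or_false] at m1
      rcases m1 with rfl | rfl
      · exact ⟨g1, fun _ => m2, Or.inr l1⟩
      · exact ⟨g2, fun _ => m2, Or.inr l2⟩
    · exact (sum_filter_le _ _ _).trans hsum.le
    · refine (List.length_filter_le _ _).trans ?_
      rw [hk]
      simp

end Pool.Agent.BisRt
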