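import Pool.Agent.BisRt.Targets

/-!
# GRA: graphs and rows
-/

set_option autoImplicit false

namespace Pool.Agent.BisRt

open Finset Pool.Agent.PT Pool.Agent.BisTh Pool.Agent.BisRg

namespace GRA_

theorem length_rowsOf (G : Bip) : (rowsOf G).length = G.a := by
  unfold rowsOf
  rw [List.length_map, List.length_finRange]

theorem map_getD_range (l : List (List Bool)) :
    (List.range l.length).map (fun i => l.getD i []) = l := by
  refine List.ext_getElem (by simp) ?_
  intro i h1 h2
  rw [List.getElem_map, List.getElem_range, List.getD_eq_getElem _ _ h2]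

theorem aj_rowsOf (G : Bip) (i : Fin G.a) (j : Fin G.b) :
    aj (rowsOf G) i.val j.val = G.adj i j := by
  unfold aj rowsOf
  rw [List.getD_eq_getElem ((List.finRange G.a).map (rowOf G)) [] (n := i.val) (by simp),
    List.getElem_map]
  unfold rowOf
  rw [List.getD_eq_getElem _ _ (by simp), List.getElem_map]
  simp

theorem degL_eq (G : Bip) (i : Fin G.a) :
    ((range G.b).filter fun j => aj (rowsOf G) i.val j = true).card = G.degL i := by
  have h : G.nbR {i} = univ.filter (fun j => G.adj i j = true) := by
    ext j
    simp [Bip.nbR]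
  unfold Bip.degL
  rw [h, card_filter, card_filter, sum_range]
  refine sum_congr rfl fun j _ => ?_
  rw [aj_rowsOf]

theorem degR_eq (G : Bip) (j : Fin G.b) :
    ((range G.a).filter fun i => aj (rowsOf G) i j.val = true).card = G.degR j := by
  have h : G.nbL {j} = univ.filter (fun i => G.adj i j = true) := by
    ext i
    simp [Bip.nbL]
  unfold Bip.degR
  rw [h, card_filter, card_filter, sum_range]
  refine sum_congr rfl fun i _ => ?_
  rw [aj_rowsOf]

end GRA_

open GRA_ in
theorem p_GRA : T_GRA := by
  intro G hab
  have hlen := length_rowsOf G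
  have hcs : cs (rowsOf G) (root G.a) = G.count := by
    rw [count_eq, ← hab]
    show cnt ((List.range G.a).map fun i => (rowsOf G).getD i []) (List.range G.a) =
      cnt (rowsOf G) (List.range G.a)
    have h := map_getD_range (rowsOf G)
    rw [hlen] at h
    rw [h]
  refine ⟨hlen, hcs, ?_, ?_⟩
  · rw [count_eq]
    have h := cnt_ge_left (rowsOf G) (List.range G.b)
    rwa [hlen] at h
  · rintro d ⟨-, hL, hR⟩
    refine ⟨fun i hi => ?_, fun j hj => ?_⟩
    · have h1 := degL_eq G ⟨i, hi⟩
      rw [← hab] at h1
      have h2 := hL ⟨i, hi⟩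
      refine h1.trans ?_
      omega
    · have hj' : j < G.b := hab ▸ hj
      have h1 := degR_eq G ⟨j, hj'⟩
      have h2 := hR ⟨j, hj'⟩
      refine h1.trans ?_
      omega

end Pool.Agent.BisRt
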