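import Pool.Agent.BisRt.Targets

/-!
# One step runs in polynomial time
-/

set_option autoImplicit false

namespace Pool.Agent.BisRt

open Finset Pool.Agent.PT Pool.Agent.BisTh Pool.Agent.BisRg

namespace PTS_

section

variable {γ : Type} [Dat γ] [hC : Fact Core]

theorem aj_pt {R : γ → List (List Bool)} {i j : γ → ℕ} (hR : PolyF R) (hi : PolyF i)
    (hj : PolyF j) : PolyF (fun x => aj (R x) (i x) (j x)) := by
  unfold aj
  fun_prop

theorem kids_pt {R : γ → List (List Bool)} {c : γ → Bool × ℕ × ℕ} {s : γ → SI} (hR : PolyF R)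
    (hc : PolyF c) (hs : PolyF s) : PolyF (fun x => kids (R x) (c x) (s x)) := by
  have a1 : PolyF (fun p : γ × ℕ => aj (R p.1) p.2 (c p.1).2.1) :=
    aj_pt (by fun_prop) (by fun_prop) (by fun_prop)
  have a2 : PolyF (fun p : γ × ℕ => aj (R p.1) (c p.1).2.1 p.2) :=
    aj_pt (by fun_prop) (by fun_prop) (by fun_prop)
  have b1 : PolyF (fun x : γ => (s x).2.filter fun j => !(decide (j = (c x).2.1))) :=
    PolyF.filter (f := fun (x : γ) j => !(decide (j = (c x).2.1))) (by fun_prop) (by fun_prop)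
  have b2 : PolyF (fun x : γ => (s x).1.filter fun i => !(decide (i = (c x).2.1))) :=
    PolyF.filter (f := fun (x : γ) i => !(decide (i = (c x).2.1))) (by fun_prop) (by fun_prop)
  have b3 : PolyF (fun x : γ => (s x).1.filter fun i => !(aj (R x) i (c x).2.1)) :=
    PolyF.filter (f := fun (x : γ) i => !(aj (R x) i (c x).2.1)) a1.not (by fun_prop)
  have b4 : PolyF (fun x : γ => (s x).2.filter fun j => !(aj (R x) (c x).2.1 j)) :=
    PolyF.filter (f := fun (x : γ) j => !(aj (R x) (c x).2.1 j)) a2.not (by fun_prop)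
  unfold kids
  fun_prop

end

theorem kids_len (R : List (List Bool)) (c : Bool × ℕ × ℕ) (s : SI) : (kids R c s).length = 2 := by
  unfold kids
  cases c.1 <;> simp

theorem kids_sz (R : List (List Bool)) (c : Bool × ℕ × ℕ) (s : SI) :
    ∀ q ∈ kids R c s, sz q ≤ sz s := by
  intro q hq
  have h2 : sz s = sz s.1 + sz s.2 + 1 := sz_pair s.1 s.2
  unfold kids at hq
  cases h : c.1 with
  | true =>
    rw [h, cond_true, List.mem_cons, List.mem_singleton] at hq
    rcases hq with hq | hq
    · rw [hq, sz_pair]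
      have h1 := sz_filter_le (fun j => !(decide (j = c.2.1))) s.2
      omega
    · rw [hq, sz_pair]
      have h1 := sz_filter_le (fun j => !(decide (j = c.2.1))) s.2
      have h3 := sz_filter_le (fun i => !(aj R i c.2.1)) s.1
      omega
  | false =>
    rw [h, cond_false, List.mem_cons, List.mem_singleton] at hq
    rcases hq with hq | hq
    · rw [hq, sz_pair]
      have h1 := sz_filter_le (fun i => !(decide (i = c.2.1))) s.1
      omega
    · rw [hq, sz_pair]
      have h1 := sz_filter_le (fun i => !(decide (i = c.2.1))) s.1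
      have h3 := sz_filter_le (fun j => !(aj R c.2.1 j)) s.2
      omega

end PTS_

theorem p_PTS (h_PTC : T_PTC) : T_PTS := by
  refine ⟨fun hC => ?_, fun D K R V s => ?_⟩
  · obtain ⟨h1, h2, h3⟩ := h_PTC hC
    have c1 : PolyF (fun x : ℕ × InS => cands x.2.1 x.2.2.1 x.2.2.2.1 x.2.2.2.2) :=
      h1.comp (g := fun x : ℕ × InS => x.2) (by fun_prop)
    have c2 : PolyF (fun x : ℕ × InS => best (cands x.2.1 x.2.2.1 x.2.2.2.1 x.2.2.2.2)) :=
      h3.comp c1
    have c3 : PolyF (fun x : ℕ × InS =>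
        kids x.2.2.1 (best (cands x.2.1 x.2.2.1 x.2.2.2.1 x.2.2.2.2)) x.2.2.2.2) :=
      PTS_.kids_pt (by fun_prop) c2 (by fun_prop)
    have c4 : PolyF (fun p : (ℕ × InS) × SI => ed p.1.2.2.1 p.1.2.2.2.1 p.2) :=
      h2.comp (g := fun p : (ℕ × InS) × SI => (p.1.2.1, p.1.2.2.1, p.1.2.2.2.1, p.2))
        (by fun_prop)
    have c5 : PolyF (fun p : (ℕ × InS) × SI => decide (ed p.1.2.2.1 p.1.2.2.2.1 p.2 ≤ p.1.1)) := by
      fun_prop
    have c6 : PolyF (fun x : ℕ × InS =>
        (kids x.2.2.1 (best (cands x.2.1 x.2.2.1 x.2.2.2.1 x.2.2.2.2)) x.2.2.2.2).filter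
          fun s' => decide (ed x.2.2.1 x.2.2.2.1 s' ≤ x.1)) :=
      PolyF.filter (f := fun (x : ℕ × InS) s' => decide (ed x.2.2.1 x.2.2.2.1 s' ≤ x.1)) c5 c3
    unfold stepT
    fun_prop
  · unfold stepT
    cases (cands D R V s).isEmpty with
    | true =>
      rw [cond_true]
      refine ⟨by simp, fun s' hs' => ?_⟩
      rw [List.mem_singleton] at hs'
      rw [hs']
    | false =>
      rw [cond_false]
      refine ⟨(List.length_filter_le _ _).trans (PTS_.kids_len R _ s).le, fun s' hs' => ?_⟩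
      exact PTS_.kids_sz R _ s s' (List.mem_filter.1 hs').1

end Pool.Agent.BisRt
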