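import Pool.Agent.BisRt.Targets

/-!
# Polynomial time: the whole algorithm
-/

set_option autoImplicit false

namespace Pool.Agent.BisRt

open Finset Pool.Agent.PT Pool.Agent.BisTh Pool.Agent.BisRg

namespace PTX_

theorem maxL_aux (l : List ℕ) : ∀ m : ℕ,
    l.foldl (fun m n => max m n) m = m ∨ l.foldl (fun m n => max m n) m ∈ l := by
  induction l with
  | nil => intro m; left; rfl
  | cons n l ih =>
    intro m
    rw [List.foldl_cons]
    rcases ih (max m n) with h | h
    · rw [h]
      rcases le_total m n with h' | h'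
      · right; rw [max_eq_right h']; exact List.mem_cons_self
      · left; exact max_eq_left h'
    · right; exact List.mem_cons_of_mem _ h

theorem maxL_pt {γ : Type} [Dat γ] [hC : Fact Core] {l : γ → List ℕ} (hl : PolyF l) :
    PolyF (fun x => maxL (l x)) := by
  unfold maxL
  refine PolyF.foldl (f := fun (_ : γ) (m : ℕ) n => max m n) (by fun_prop) (by fun_prop) hl
    (fun x => sz (l x) + 1) (hl.bound.add (PolyB.const 1)) ?_
  intro x l₁ hl₁
  rcases maxL_aux l₁ 0 with h | h
  · rw [h]
    have h1 : sz (0 : ℕ) = 1 := by rw [sz_nat]; simp [sz_nil]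
    omega
  · have h1 := sz_mem h
    have h2 := sz_le_of_prefix hl₁
    omega

end PTX_

theorem p_PTX (h_PTA : T_PTA) : T_PTX := by
  intro hC
  have h1 := h_PTA hC
  have h2 : PolyF (fun x : In₂ => List.range (true :: un x.2.2.2).length) := by
    refine PolyF.range_length ?_
    fun_prop
  have h4 : PolyF (fun p : In₂ × ℕ => algTD p.2 p.1.1 p.1.2.1 p.1.2.2.2) :=
    h1.comp (g := fun p : In₂ × ℕ => (p.2, p.1.1, p.1.2.1, p.1.2.2.2)) (by fun_prop)
  have h5 : PolyF (fun x : In₂ => algT x.1 x.2.1 x.2.2.2) := by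
    unfold algT
    exact PTX_.maxL_pt (PolyF.map (f := fun (x : In₂) D => algTD D x.1 x.2.1 x.2.2.2) h4 h2)
  unfold algU
  refine PolyF.cond ?_ h5 (PolyF.const _)
  fun_prop

end Pool.Agent.BisRt
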