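import Pool.Agent.BisRt.Targets

/-!
# Regular bipartite graphs in time `2 ^ O(n / d)`: the exponential function (target FFF)
-/

set_option autoImplicit false

namespace Pool.Agent.BisRt

open Finset Pool.Agent.PT Pool.Agent.BisTh Pool.Agent.BisRg

namespace FFF_

/-- `1 - e^(-s) ≤ s` -/
theorem one_sub_le (s : ℝ) : 1 - Real.exp (-s) ≤ s := by
  have h := Real.add_one_le_exp (-s)
  linarith

/-- `e^(-s) (1 + s) ≤ 1` -/
theorem mul_le (s : ℝ) : Real.exp (-s) * (1 + s) ≤ 1 := by
  have h1 := Real.add_one_le_exp s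
  have h2 : Real.exp (-s) * Real.exp s = 1 := by
    rw [← Real.exp_add, neg_add_cancel, Real.exp_zero]
  have h3 := Real.exp_pos (-s)
  nlinarith

theorem split (x y : ℝ) :
    Real.exp (-((x + y) / 10)) = Real.exp (-(x / 10)) * Real.exp (-(y / 10)) := by
  rw [← Real.exp_add]
  congr 1
  ring

end FFF_

open FFF_ in
/-- **FFF** -/
theorem p_FFF : T_FFF := by
  refine ⟨fun x => ?_, fun x y h => ?_, fun x y h0 h => ?_, fun x y h0 h1 => ?_,
    fun g h0 h1 => ?_, ?_⟩
  · unfold Ff
    positivity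
  · unfold Ff
    have h1 : Real.exp (-(y / 10)) ≤ Real.exp (-(x / 10)) := Real.exp_le_exp.2 (by linarith)
    linarith
  · unfold Ff
    have h1 := split x (y - x)
    rw [add_sub_cancel] at h1
    have h2 := one_sub_le ((y - x) / 10)
    have h3 : Real.exp (-(x / 10)) ≤ 1 := Real.exp_le_one_iff.2 (by linarith)
    have h4 := Real.exp_pos (-(x / 10))
    have h5 : Real.exp (-((y - x) / 10)) ≤ 1 := Real.exp_le_one_iff.2 (by linarith)
    rw [h1]
    have h6 : Real.exp (-(x / 10)) * (1 - Real.exp (-((y - x) / 10))) ≤ (y - x) / 10 := by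
      calc Real.exp (-(x / 10)) * (1 - Real.exp (-((y - x) / 10)))
          ≤ 1 * (1 - Real.exp (-((y - x) / 10))) :=
            mul_le_mul_of_nonneg_right h3 (by linarith)
        _ ≤ (y - x) / 10 := by linarith
    linarith
  · unfold Ff
    rw [split]
    have h2 := mul_le (y / 10)
    have h4 := Real.exp_pos (-(x / 10))
    have h5 := Real.exp_pos (-(y / 10))
    have h6 : 2 / 5 * y ≤ 5 * (1 - Real.exp (-(y / 10))) := by nlinarith
    have h7 := mul_le_mul_of_nonneg_right h6 h4.le
    linarith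
  · have h2 := mul_le g
    have h3 : 1 ≤ (1 - g / 2) * (1 + g) := by nlinarith
    exact le_of_mul_le_mul_right (h2.trans h3) (by linarith)
  · have h1 : (2.7 : ℝ) ≤ Real.exp 1 := by
      have h := Real.exp_one_gt_d9
      linarith
    have h2 : (2.7 : ℝ) ^ 7 ≤ Real.exp 7 := by
      have h3 : Real.exp 7 = Real.exp 1 ^ 7 := by
        rw [← Real.exp_nat_mul]
        norm_num
      rw [h3]
      exact pow_le_pow_left₀ (by norm_num) h1 7
    have h4 : (800 : ℝ) ≤ Real.exp 7 := le_trans (by norm_num) h2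
    rw [Real.exp_neg, one_div]
    exact inv_anti₀ (by norm_num) h4

end Pool.Agent.BisRt
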