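import Pool.Agent.BisRg.Main

/-!
# Regular bipartite graphs in time `2 ^ O(n / d)`: definitions

MP_29585b_lc. The branching always uses a vertex of maximal inner cost and drops the states with too
many edges between removed vertices.
-/

set_option autoImplicit false

namespace Pool.Agent.BisRt

open Finset Pool.Agent.BisTh Pool.Agent.BisRg

/-- The algorithm for regular graphs: time polynomial in `n`, `t` and `w`, where `w ≥ 2 ^ (n / d)`
and `d ≥ 125 (log n + 3)`. -/
def Statement5 : Prop :=
  ∃ A : Bip × ℕ × ℕ → ℕ, Nonempty (Turing.TM2ComputableInPolyTime encInput₂ encNat A) ∧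
    ∀ (G : Bip) (t w : ℕ), A (G, t, w) ≤ G.count ∧
      ∀ d k : ℕ, NearRegular G d 0 → G.a ≤ d * k → 2 ^ k ≤ w → 125 * (Nat.log 2 G.a + 3) ≤ d →
        t * (G.count - A (G, t, w)) ≤ G.count

/-- Polynomial time for `d`-regular graphs with `n ≤ q * d * log n`. -/
def Statement6 : Prop :=
  ∀ q : ℕ, ∃ A : Bip × ℕ → ℕ, Nonempty (Turing.TM2ComputableInPolyTime encInput encNat A) ∧
    ∀ (G : Bip) (t d : ℕ), NearRegular G d 0 → G.a ≤ q * (d * Nat.log 2 G.a) →
      A (G, t) ≤ G.count ∧ t * (G.count - A (G, t)) ≤ G.count

/-! ### The potential; vertices on both sides are the numbers below `n` -/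

/-- `adj` is `d`-regular on `range n`. -/
def Reg (adj : ℕ → ℕ → Bool) (n d : ℕ) : Prop :=
  (∀ i < n, ((range n).filter fun j => adj i j = true).card = d) ∧
  ∀ j < n, ((range n).filter fun i => adj i j = true).card = d

/-- The transposed relation. -/
def tr (adj : ℕ → ℕ → Bool) : ℕ → ℕ → Bool := fun j i => adj i j

/-- Neighbours of `i` in `Y`. -/
def nb (adj : ℕ → ℕ → Bool) (Y : Finset ℕ) (i : ℕ) : Finset ℕ := Y.filter fun j => adj i j = true

/-- Inner cost of `i ∈ X`: edges between the neighbours of `i` in `Y` and removed vertices. -/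
def inc (adj : ℕ → ℕ → Bool) (n : ℕ) (X Y : Finset ℕ) (i : ℕ) : ℕ :=
  ∑ j ∈ nb adj Y i, (nb (tr adj) (range n \ X) j).card

/-- Edges between removed vertices. -/
def Ed (adj : ℕ → ℕ → Bool) (n : ℕ) (X Y : Finset ℕ) : ℕ :=
  ∑ i ∈ range n \ X, (nb adj (range n \ Y) i).card

/-- The vertices of `X` with more than `d / 5` neighbours in `Y`. -/
def hi (adj : ℕ → ℕ → Bool) (d : ℕ) (X Y : Finset ℕ) : Finset ℕ :=
  X.filter fun i => d < 5 * (nb adj Y i).card

/-- `5 exp (- x / 10)`. -/
noncomputable def Ff (x : ℝ) : ℝ := 5 * Real.exp (-(x / 10))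

/-- The sum of the functions `Ff` over the vertices of one side. -/
noncomputable def Sf (adj : ℕ → ℕ → Bool) (n d : ℕ) (X Y : Finset ℕ) : ℝ :=
  ∑ i ∈ hi adj d X Y, Ff ((inc adj n X Y i : ℝ) / d)

/-- The potential. -/
noncomputable def Psi (adj : ℕ → ℕ → Bool) (n d : ℕ) (θ : ℝ) (X Y : Finset ℕ) : ℝ :=
  -(θ * ((Ed adj n X Y : ℝ) / d)) + 35 * (((X.card : ℝ) + Y.card) / d) +
    (Sf adj n d X Y + Sf (tr adj) n d Y X) / d

/-- The weight. -/
noncomputable def Wt (adj : ℕ → ℕ → Bool) (n d : ℕ) (θ : ℝ) (X Y : Finset ℕ) : ℝ :=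
  Real.exp (Psi adj n d θ X Y)

/-! ### The algorithm -/

/-- A state: remaining left and right vertices. -/
abbrev SI : Type := List ℕ × List ℕ

/-- Adjacency. -/
def aj (R : List (List Bool)) (i j : ℕ) : Bool := (R.getD i []).getD j false

/-- Neighbours of the left vertex `i` in `J`. -/
def nbr (R : List (List Bool)) (J : List ℕ) (i : ℕ) : List ℕ := J.filter fun j => aj R i j

/-- Neighbours of the right vertex `j` in `I`. -/
def nbl (R : List (List Bool)) (I : List ℕ) (j : ℕ) : List ℕ := I.filter fun i => aj R i j

/-- Complement of `I` in `V`. -/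
def cmp (V I : List ℕ) : List ℕ := V.filter fun i => !(I.any fun i' => decide (i' = i))

/-- Inner cost of a left vertex. -/
def incL (R : List (List Bool)) (V : List ℕ) (s : SI) (i : ℕ) : ℕ :=
  ((nbr R s.2 i).flatMap fun j => nbl R (cmp V s.1) j).length

/-- Inner cost of a right vertex. -/
def incR (R : List (List Bool)) (V : List ℕ) (s : SI) (j : ℕ) : ℕ :=
  ((nbl R s.1 j).flatMap fun i => nbr R (cmp V s.2) i).length

/-- Number of edges between removed vertices. -/
def ed (R : List (List Bool)) (V : List ℕ) (s : SI) : ℕ :=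
  ((cmp V s.1).flatMap fun i => nbr R (cmp V s.2) i).length

/-- `D < 5 n`. -/
def big (D n : ℕ) : Bool := decide (D < n + n + n + n + n)

/-- The candidates: side, vertex, inner cost. -/
def cands (D : ℕ) (R : List (List Bool)) (V : List ℕ) (s : SI) : List (Bool × ℕ × ℕ) :=
  ((s.1.filter fun i => big D (nbr R s.2 i).length).map fun i => (false, i, incL R V s i)) ++
    (s.2.filter fun j => big D (nbl R s.1 j).length).map fun j => (true, j, incR R V s j)

/-- An element with maximal third component. -/
def best (l : List (Bool × ℕ × ℕ)) : Bool × ℕ × ℕ :=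
  l.foldl (fun b c => cond (decide (b.2.2 < c.2.2)) c b) (l.headD (false, 0, 0))

/-- The two children of a state for a chosen vertex. -/
def kids (R : List (List Bool)) (c : Bool × ℕ × ℕ) (s : SI) : List SI :=
  cond c.1
    [(s.1, s.2.filter fun j => !(decide (j = c.2.1))),
      (s.1.filter fun i => !(aj R i c.2.1), s.2.filter fun j => !(decide (j = c.2.1)))]
    [(s.1.filter fun i => !(decide (i = c.2.1)), s.2),
      (s.1.filter fun i => !(decide (i = c.2.1)), s.2.filter fun j => !(aj R c.2.1 j))]

/-- One step; `K` is the limit for the number of edges between removed vertices. -/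
def stepT (D K : ℕ) (R : List (List Bool)) (V : List ℕ) (s : SI) : List SI :=
  cond (cands D R V s).isEmpty [s]
    ((kids R (best (cands D R V s)) s).filter fun s' => decide (ed R V s' ≤ K))

/-- All rounds; lists with more than `P.length` states are dropped. -/
def rounds (D K : ℕ) (P : Un) (R : List (List Bool)) (V : List ℕ) (L : List SI) : List SI :=
  (V ++ V).foldl (fun L _ => cond (decide (L.length ≤ P.length)) (L.flatMap (stepT D K R V)) []) L

/-- Bound for the number of states. -/
def capT (W T : Un) : Un := pw 2100 (W ++ W ++ T ++ T ++ [true, true, true])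

/-- `1000 (bits w + bits t + 1)`. -/
def limT (W T : Un) : Un := rep 1000 (W.length.bits ++ T.length.bits ++ [true])

/-- The limit `D * limT`. -/
def limD (D : ℕ) (W T : Un) (V : List ℕ) : ℕ :=
  ((V.filter fun i => decide (i < D)).flatMap fun _ => limT W T).length

/-- The rows of a state. -/
def toSt (R : List (List Bool)) (s : SI) : St := (s.1.map fun i => R.getD i [], s.2)

/-- The value for a fixed `D`; `V = range n`. -/
def algTD (D : ℕ) (W T : Un) (R : List (List Bool)) : ℕ :=
  tot (((rounds D (limD D W T (List.range R.length)) (capT W T) R (List.range R.length)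
    [(List.range R.length, List.range R.length)]).map (toSt R)).flatMap
      (leafExp (bud (capT W T) (T ++ T))))

/-- The value of the algorithm (only rows of length `R.length` are used). -/
def algT (W T : Un) (R : List (List Bool)) : ℕ :=
  maxL ((List.range (true :: un R).length).map fun D => algTD D W T R)

/-- The value of the algorithm, for graphs with sides of different sizes `0`. -/
def algU (W T B : Un) (R : List (List Bool)) : ℕ :=
  cond (decide (B.length = R.length)) (algT W T R) 0

/-- Number of independent pairs of a state. -/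
def cs (R : List (List Bool)) (s : SI) : ℕ := cnt (s.1.map fun i => R.getD i []) s.2

/-- A state consists of different vertices. -/
def GoodS (n : ℕ) (s : SI) : Prop :=
  s.1.Nodup ∧ s.2.Nodup ∧ (∀ i ∈ s.1, i < n) ∧ ∀ j ∈ s.2, j < n

end Pool.Agent.BisRt
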