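import Pool.Agent.BisRt.Targets

/-!
# ALT: the maximum over all degrees
-/

set_option autoImplicit false

namespace Pool.Agent.BisRt

open Finset Pool.Agent.PT Pool.Agent.BisTh Pool.Agent.BisRg

namespace ALT_

theorem mem_D (D : ℕ) (R : List (List Bool)) (hD : D ≤ R.length) :
    D ∈ List.range (true :: un R).length := by
  rw [List.mem_range, List.length_cons, un_length]
  omega

theorem le_algT (D : ℕ) (W T : Un) (R : List (List Bool)) (hD : D ≤ R.length) :
    algTD D W T R ≤ algT W T R := by
  unfold algT maxL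
  exact Pool.Agent.BisRg.ALW_.le_foldl_max _ _ _ (List.mem_map.2 ⟨D, mem_D D R hD, rfl⟩)

theorem deg_le {adj : ℕ → ℕ → Bool} {n d : ℕ} (h : Reg adj n d) (hn : 1 ≤ n) : d ≤ n := by
  have h1 := h.1 0 (by omega)
  have h2 := Finset.card_filter_le (range n) fun j => adj 0 j = true
  rw [h1, Finset.card_range] at h2
  exact h2

theorem nil_val (W T : Un) : algTD 0 W T [] = 1 := by
  unfold algTD
  rw [tot_flatMap_leafExp]
  simp [rounds, toSt, apx]

theorem nil_cs : cs [] (root 0) = 1 := by
  simp [cs, root, cnt]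

end ALT_

open ALT_ in
/-- The maximum over all degrees. -/
theorem p_ALT (h_ERR : T_ERR) : T_ALT := by
  refine ⟨fun W T R => ?_, fun d k W T R hR hd hk hW => ?_⟩
  · unfold algT maxL
    refine Pool.Agent.BisRg.ALW_.foldl_max_le _ _ _ (Nat.zero_le _) fun n hn => ?_
    obtain ⟨D, _, rfl⟩ := List.mem_map.1 hn
    exact h_ERR.1 D W T R
  · rcases Nat.eq_zero_or_pos R.length with h0 | h0
    · have hnil : R = [] := List.eq_nil_of_length_eq_zero h0
      subst hnil
      have h1 := le_algT 0 W T [] (Nat.zero_le _)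
      rw [nil_val] at h1
      have h2 : cs [] (root ([] : List (List Bool)).length) = 1 := nil_cs
      rw [h2, Nat.sub_eq_zero_of_le h1, Nat.mul_zero]
      exact Nat.zero_le _
    · have h1 := le_algT d W T R (deg_le hR h0)
      have h2 := h_ERR.2 d k W T R h0 hR hd hk hW
      exact (Nat.mul_le_mul_left _ (by omega)).trans h2

end Pool.Agent.BisRt
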