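import Pool.Agent.BisRt.Targets

/-!
# Target CBD: the weight bounds the number of independent pairs
-/

set_option autoImplicit false

namespace Pool.Agent.BisRt

open Finset Pool.Agent.PT Pool.Agent.BisTh Pool.Agent.BisRg

namespace CBD_

lemma one_le_gr (g : ℕ) : 1 ≤ gr g := by
  unfold gr
  have := Real.exp_pos (-(g : ℝ))
  linarith

/-- The induction step for two children. -/
lemma step {R : List (List Bool)} {n d g : ℕ} {c : Bool × ℕ × ℕ} {s s₁ s₂ : SI} {W W₁ W₂ : ℝ}
    (hk : kids R c s = [s₁, s₂]) (hs : ((kids R c s).map (cs R)).sum = cs R s)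
    (hW : ((kids R c s).map (WS R n d (69 / 100))).sum ≤ gr g * WS R n d (69 / 100) s)
    (h1 : s₁.1.length + s₁.2.length < s.1.length + s.2.length)
    (h2 : s₂.1.length + s₂.2.length < s.1.length + s.2.length)
    (eW : W = WS R n d (69 / 100) s) (e1 : W₁ = WS R n d (69 / 100) s₁)
    (e2 : W₂ = WS R n d (69 / 100) s₂) (p1 : 0 < W₁) (p2 : 0 < W₂)
    (i1 : (cs R s₁ : ℝ) ≤ 2 ^ n * gr g ^ (s₁.1.length + s₁.2.length) * W₁)
    (i2 : (cs R s₂ : ℝ) ≤ 2 ^ n * gr g ^ (s₂.1.length + s₂.2.length) * W₂) :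
    (cs R s : ℝ) ≤ 2 ^ n * gr g ^ (s.1.length + s.2.length) * W := by
  rw [hk] at hs hW
  simp only [List.map_cons, List.map_nil, List.sum_cons, List.sum_nil, add_zero] at hs hW
  rw [← e1, ← e2, ← eW] at hW
  obtain ⟨N, hN⟩ : ∃ N, s.1.length + s.2.length = N + 1 := ⟨s.1.length + s.2.length - 1, by omega⟩
  rw [hN] at h1 h2 ⊢
  have hg := one_le_gr g
  have q1 : gr g ^ (s₁.1.length + s₁.2.length) ≤ gr g ^ N :=
    pow_le_pow_right₀ hg (by omega)
  have q2 : gr g ^ (s₂.1.length + s₂.2.length) ≤ gr g ^ N :=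
    pow_le_pow_right₀ hg (by omega)
  have h2n : (0 : ℝ) ≤ 2 ^ n := by positivity
  have r1 : (cs R s₁ : ℝ) ≤ 2 ^ n * gr g ^ N * W₁ :=
    i1.trans (mul_le_mul_of_nonneg_right (mul_le_mul_of_nonneg_left q1 h2n) p1.le)
  have r2 : (cs R s₂ : ℝ) ≤ 2 ^ n * gr g ^ N * W₂ :=
    i2.trans (mul_le_mul_of_nonneg_right (mul_le_mul_of_nonneg_left q2 h2n) p2.le)
  have hc : (cs R s : ℝ) = cs R s₁ + cs R s₂ := by
    rw [← hs]
    push_cast
    ring
  have hgN : (0 : ℝ) ≤ 2 ^ n * gr g ^ N := mul_nonneg h2n (pow_nonneg (by linarith) _)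
  calc (cs R s : ℝ) = cs R s₁ + cs R s₂ := hc
    _ ≤ 2 ^ n * gr g ^ N * W₁ + 2 ^ n * gr g ^ N * W₂ := add_le_add r1 r2
    _ = 2 ^ n * gr g ^ N * (W₁ + W₂) := by ring
    _ ≤ 2 ^ n * gr g ^ N * (gr g * W) := mul_le_mul_of_nonneg_left hW hgN
    _ = 2 ^ n * gr g ^ (N + 1) * W := by ring

end CBD_

theorem p_CBD (h_BST : T_BST) (h_KID : T_KID) (h_CSK : T_CSK) (h_WKD : T_WKD) (h_LFB : T_LFB)
    (h_WRT : T_WRT) : T_CBD := by
  intro R n d g hR hd
  have hd1 : 1 ≤ d := by omega
  have key : ∀ N : ℕ, ∀ s : SI, s.1.length + s.2.length = N → GoodS n s → (cs R s : ℝ) ≤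
      2 ^ n * gr g ^ (s.1.length + s.2.length) * WS R n d (69 / 100) s := by
    intro N
    induction N using Nat.strong_induction_on with
    | _ N ih =>
      intro s hN hs
      have hpos : ∀ s' : SI, 0 < WS R n d (69 / 100) s' := by
        intro s'
        obtain ⟨w1, w2, -⟩ := h_WRT R n d hd1 s'
        rw [w2]
        exact mul_pos (Real.exp_pos _) w1
      by_cases hc : cands d R (List.range n) s = []
      · have hlow := (h_BST R n d s hs).1 hc
        have h1 := h_LFB R n d hR (by omega) s hs hlow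
        have h2 := (h_WRT R n d hd1 s).2.2.1 (69 / 100)
        have h3 : 1 ≤ gr g ^ (s.1.length + s.2.length) := one_le_pow₀ (CBD_.one_le_gr g)
        have h4 : (0 : ℝ) ≤ 2 ^ n := by positivity
        have h5 := hpos s
        calc (cs R s : ℝ) ≤ 2 ^ n * Real.exp
              (-(69 / 100 * ((Ed (aj R) n s.1.toFinset s.2.toFinset : ℝ) / d))) := h1
          _ ≤ 2 ^ n * WS R n d (69 / 100) s := mul_le_mul_of_nonneg_left h2 h4
          _ = 2 ^ n * 1 * WS R n d (69 / 100) s := by ring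
          _ ≤ 2 ^ n * gr g ^ (s.1.length + s.2.length) * WS R n d (69 / 100) s :=
            mul_le_mul_of_nonneg_right (mul_le_mul_of_nonneg_left h3 h4) h5.le
      · have hch := (h_BST R n d s hs).2 hc
        have hW := h_WKD R n d g hR hd (69 / 100) (by norm_num) s _ hs hch
        generalize best (cands d R (List.range n) s) = c at hch hW
        obtain ⟨b, u, m⟩ := c
        obtain ⟨c1, c2, -, -⟩ := hch
        cases b with
        | false =>
          have hu : u ∈ s.1 := by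
            have h6 := (c1 rfl).1
            exact List.mem_toFinset.1 (Finset.mem_filter.1 h6).1
          obtain ⟨s₁, s₂, hk, g1, g2, -, -, -, -, l1, l2⟩ := (h_KID R n s hs).1 u m hu
          have hsum := (h_CSK R s hs.1 hs.2.1).1 u m hu
          exact CBD_.step hk hsum hW l1 l2 rfl rfl rfl (hpos s₁) (hpos s₂)
            (ih _ (by omega) s₁ rfl g1) (ih _ (by omega) s₂ rfl g2)
        | true =>
          have hv : u ∈ s.2 := by
            have h6 := (c2 rfl).1
            exact List.mem_toFinset.1 (Finset.mem_filter.1 h6).1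
          obtain ⟨s₁, s₂, hk, g1, g2, -, -, -, -, l1, l2⟩ := (h_KID R n s hs).2 u m hv
          have hsum := (h_CSK R s hs.1 hs.2.1).2 u m hv
          exact CBD_.step hk hsum hW l1 l2 rfl rfl rfl (hpos s₁) (hpos s₂)
            (ih _ (by omega) s₁ rfl g1) (ih _ (by omega) s₂ rfl g2)
  intro s hs
  exact key _ s rfl hs

end Pool.Agent.BisRt
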