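import Pool.Agent.BisRt.Targets

/-!
# MP_29585b_lc, BisRt: target DPI
-/

set_option autoImplicit false

namespace Pool.Agent.BisRt

open Finset Pool.Agent.PT Pool.Agent.BisTh Pool.Agent.BisRg

namespace DPI_

theorem hi_sub {adj : ℕ → ℕ → Bool} {d : ℕ} {X X' Y Y' : Finset ℕ} (hX : X' ⊆ X)
    (hY : Y' ⊆ Y) : hi adj d X' Y' ⊆ hi adj d X Y := by
  intro i h
  unfold hi at *
  rw [mem_filter] at *
  refine ⟨hX h.1, lt_of_lt_of_le h.2 (Nat.mul_le_mul_left 5 (card_le_card ?_))⟩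
  unfold nb
  exact filter_subset_filter _ hY

theorem left (h_INN : T_INN) (h_FFF : T_FFF) {adj : ℕ → ℕ → Bool} {n d : ℕ}
    (hReg : Reg adj n d) (hd : 1 ≤ d) {X Y : Finset ℕ} (hX : X ⊆ range n) (hY : Y ⊆ range n)
    {u : ℕ} (hu : u ∈ X) :
    Sf adj n d (X.erase u) (Y \ nb adj Y u) ≤ Sf adj n d X Y + (inc adj n X Y u : ℝ) / 2 := by
  obtain ⟨-, h2, -, h4⟩ := h_INN adj n d hReg X Y hX hY u hu
  have hdr : (0 : ℝ) < d := by exact_mod_cast hd
  have step : ∀ i, Ff ((inc adj n (X.erase u) (Y \ nb adj Y u) i : ℝ) / d) ≤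
      Ff ((inc adj n X Y i : ℝ) / d) +
        ((∑ j ∈ ov adj Y u i, (nb (tr adj) (range n \ X) j).card : ℕ) : ℝ) / (2 * d) := by
    intro i
    have e := h2 i
    have hle : inc adj n (X.erase u) (Y \ nb adj Y u) i ≤ inc adj n X Y i := by omega
    have h := h_FFF.2.2.1 ((inc adj n (X.erase u) (Y \ nb adj Y u) i : ℝ) / d)
      ((inc adj n X Y i : ℝ) / d) (by positivity)
      (div_le_div_of_nonneg_right (by exact_mod_cast hle) hdr.le)
    have e' : (inc adj n X Y i : ℝ) = (inc adj n (X.erase u) (Y \ nb adj Y u) i : ℝ) +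
        ((∑ j ∈ ov adj Y u i, (nb (tr adj) (range n \ X) j).card : ℕ) : ℝ) := by
      exact_mod_cast e.symm
    have h5 : ((inc adj n X Y i : ℝ) / d -
        (inc adj n (X.erase u) (Y \ nb adj Y u) i : ℝ) / d) / 2 =
        ((∑ j ∈ ov adj Y u i, (nb (tr adj) (range n \ X) j).card : ℕ) : ℝ) / (2 * d) := by
      rw [e']
      field_simp
      ring
    linarith
  have hsub : hi adj d (X.erase u) (Y \ nb adj Y u) ⊆ hi adj d X Y :=
    hi_sub (erase_subset _ _) sdiff_subset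
  have h4' : (∑ i ∈ X, ((∑ j ∈ ov adj Y u i, (nb (tr adj) (range n \ X) j).card : ℕ) : ℝ)) ≤
      (d : ℝ) * (inc adj n X Y u : ℝ) := by
    exact_mod_cast h4
  calc Sf adj n d (X.erase u) (Y \ nb adj Y u)
      ≤ ∑ i ∈ hi adj d (X.erase u) (Y \ nb adj Y u), (Ff ((inc adj n X Y i : ℝ) / d) +
        ((∑ j ∈ ov adj Y u i, (nb (tr adj) (range n \ X) j).card : ℕ) : ℝ) / (2 * d)) := by
        unfold Sf
        exact sum_le_sum fun i _ => step i
    _ ≤ ∑ i ∈ hi adj d X Y, (Ff ((inc adj n X Y i : ℝ) / d) +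
        ((∑ j ∈ ov adj Y u i, (nb (tr adj) (range n \ X) j).card : ℕ) : ℝ) / (2 * d)) := by
        apply sum_le_sum_of_subset_of_nonneg hsub
        intro i _ _
        have := h_FFF.1 ((inc adj n X Y i : ℝ) / d)
        positivity
    _ = Sf adj n d X Y + (∑ i ∈ hi adj d X Y,
        ((∑ j ∈ ov adj Y u i, (nb (tr adj) (range n \ X) j).card : ℕ) : ℝ)) / (2 * d) := by
        rw [sum_add_distrib, sum_div]
        rfl
    _ ≤ Sf adj n d X Y + (∑ i ∈ X,
        ((∑ j ∈ ov adj Y u i, (nb (tr adj) (range n \ X) j).card : ℕ) : ℝ)) / (2 * d) := by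
        have : (∑ i ∈ hi adj d X Y,
            ((∑ j ∈ ov adj Y u i, (nb (tr adj) (range n \ X) j).card : ℕ) : ℝ)) ≤
            ∑ i ∈ X, ((∑ j ∈ ov adj Y u i, (nb (tr adj) (range n \ X) j).card : ℕ) : ℝ) :=
          sum_le_sum_of_subset_of_nonneg (filter_subset _ _) (fun i _ _ => Nat.cast_nonneg _)
        have h6 := div_le_div_of_nonneg_right this (by positivity : (0 : ℝ) ≤ 2 * d)
        linarith
    _ ≤ Sf adj n d X Y + (inc adj n X Y u : ℝ) / 2 := by
        have h6 := div_le_div_of_nonneg_right h4' (by positivity : (0 : ℝ) ≤ 2 * d)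
        have h7 : (d : ℝ) * (inc adj n X Y u : ℝ) / (2 * d) = (inc adj n X Y u : ℝ) / 2 := by
          field_simp
        linarith

theorem right (h_INN : T_INN) (h_FFF : T_FFF) {adj : ℕ → ℕ → Bool} {n d : ℕ}
    (hReg : Reg adj n d) (hd : 1 ≤ d) {X Y : Finset ℕ} (hX : X ⊆ range n) (hY : Y ⊆ range n)
    {u : ℕ} (hu : u ∈ X) :
    Sf (tr adj) n d (Y \ nb adj Y u) (X.erase u) ≤ Sf (tr adj) n d Y X := by
  obtain ⟨-, -, h3, -⟩ := h_INN adj n d hReg X Y hX hY u hu
  have hdr : (0 : ℝ) < d := by exact_mod_cast hd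
  have hsub : hi (tr adj) d (Y \ nb adj Y u) (X.erase u) ⊆ hi (tr adj) d Y X :=
    hi_sub sdiff_subset (erase_subset _ _)
  calc Sf (tr adj) n d (Y \ nb adj Y u) (X.erase u)
      ≤ ∑ j ∈ hi (tr adj) d (Y \ nb adj Y u) (X.erase u),
        Ff ((inc (tr adj) n Y X j : ℝ) / d) := by
        unfold Sf
        refine sum_le_sum fun j hj => ?_
        have hj' : j ∈ Y \ nb adj Y u := (mem_filter.mp hj).1
        exact h_FFF.2.1 _ _
          (div_le_div_of_nonneg_right (by exact_mod_cast h3 j hj') hdr.le)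
    _ ≤ Sf (tr adj) n d Y X :=
        sum_le_sum_of_subset_of_nonneg hsub (fun j _ _ => (h_FFF.1 _).le)

end DPI_

/-- DPI: the potential when `u` and its neighbours are removed. -/
theorem p_DPI (h_INN : T_INN) (h_FFF : T_FFF) : T_DPI := by
  intro adj n d hReg hd θ hθ X Y hX hY u hu
  have huX : u ∈ X := (mem_filter.mp hu).1
  have hN : d < 5 * (nb adj Y u).card := (mem_filter.mp hu).2
  have hE := (h_INN adj n d hReg X Y hX hY u huX).1
  have hL := DPI_.left h_INN h_FFF hReg hd hX hY huX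
  have hR := DPI_.right h_INN h_FFF hReg hd hX hY huX
  have hdr : (0 : ℝ) < d := by exact_mod_cast hd
  have hX1 : ((X.erase u).card : ℝ) = (X.card : ℝ) - 1 := by
    have := card_erase_add_one huX
    rw [← this]
    push_cast
    ring
  have hY1 : ((Y \ nb adj Y u).card : ℝ) = (Y.card : ℝ) - (nb adj Y u).card := by
    have h := card_sdiff_add_card_eq_card (filter_subset (fun j => adj u j = true) Y)
    have h' : (Y \ nb adj Y u).card + (nb adj Y u).card = Y.card := h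
    rw [← h']
    push_cast
    ring
  have hE1 : (Ed adj n (X.erase u) (Y \ nb adj Y u) : ℝ) / d =
      (Ed adj n X Y : ℝ) / d + 1 + (inc adj n X Y u : ℝ) / d := by
    rw [hE]
    push_cast
    field_simp
  have hC1 : 35 * ((((X.erase u).card : ℝ) + ((Y \ nb adj Y u).card : ℝ)) / d) ≤
      35 * (((X.card : ℝ) + Y.card) / d) - 7 := by
    rw [hX1, hY1]
    have hN' : (d : ℝ) ≤ 5 * ((nb adj Y u).card : ℝ) := by exact_mod_cast hN.le
    have h1 : 1 / 5 ≤ (1 + ((nb adj Y u).card : ℝ)) / d := by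
      rw [le_div_iff₀ hdr]
      linarith
    have h2 : ((X.card : ℝ) - 1 + ((Y.card : ℝ) - (nb adj Y u).card)) / d =
        ((X.card : ℝ) + Y.card) / d - (1 + ((nb adj Y u).card : ℝ)) / d := by
      field_simp
      ring
    rw [h2]
    linarith
  have hS1 : (Sf adj n d (X.erase u) (Y \ nb adj Y u) +
      Sf (tr adj) n d (Y \ nb adj Y u) (X.erase u)) / d ≤
      (Sf adj n d X Y + Sf (tr adj) n d Y X) / d + (inc adj n X Y u : ℝ) / d / 2 := by
    have h := div_le_div_of_nonneg_right (add_le_add hL hR) hdr.le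
    have h2 : (Sf adj n d X Y + (inc adj n X Y u : ℝ) / 2 + Sf (tr adj) n d Y X) / d =
        (Sf adj n d X Y + Sf (tr adj) n d Y X) / d + (inc adj n X Y u : ℝ) / d / 2 := by
      field_simp
      ring
    linarith
  have hc : 0 ≤ (inc adj n X Y u : ℝ) / d := by positivity
  have hθc : 3 / 5 * ((inc adj n X Y u : ℝ) / d) ≤ θ * ((inc adj n X Y u : ℝ) / d) :=
    mul_le_mul_of_nonneg_right hθ hc
  unfold Psi
  rw [hE1]
  have h3 : θ * ((Ed adj n X Y : ℝ) / d + 1 + (inc adj n X Y u : ℝ) / d) =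
      θ * ((Ed adj n X Y : ℝ) / d) + θ + θ * ((inc adj n X Y u : ℝ) / d) := by ring
  rw [h3]
  linarith

end Pool.Agent.BisRt
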