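import Pool.Agent.BisRt.Targets

/-!
# Target DPO of the project BisRt (MP_29585b_lc): the potential when a vertex is removed
-/

set_option autoImplicit false

namespace Pool.Agent.BisRt

open Finset Pool.Agent.PT Pool.Agent.BisTh Pool.Agent.BisRg

namespace DPO_

/-- the left side -/
theorem left (h_OUT : T_OUT) (h_FFF : T_FFF) (adj : ℕ → ℕ → Bool) (n d : ℕ) (X Y : Finset ℕ)
    (hX : X ⊆ range n) (hY : Y ⊆ range n) (u : ℕ) (hu : u ∈ X) :
    Sf adj n d (X.erase u) Y + ∑ i ∈ (hi adj d X Y).erase u,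
      (Ff ((inc adj n X Y i : ℝ) / d) -
        Ff ((inc adj n X Y i : ℝ) / d + ((ov adj Y u i).card : ℝ) / d)) ≤ Sf adj n d X Y := by
  obtain ⟨-, h2, -, -⟩ := h_OUT adj n X Y hX hY u hu
  have e1 : hi adj d (X.erase u) Y = (hi adj d X Y).erase u := by
    ext i
    simp only [hi, mem_filter, mem_erase]
    tauto
  have e2 : Sf adj n d (X.erase u) Y = ∑ i ∈ (hi adj d X Y).erase u,
      Ff ((inc adj n X Y i : ℝ) / d + ((ov adj Y u i).card : ℝ) / d) := by
    unfold Sf
    rw [e1]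
    refine Finset.sum_congr rfl fun i _ => ?_
    rw [h2 i]
    push_cast
    rw [add_div]
  rw [e2, ← Finset.sum_add_distrib]
  calc ∑ i ∈ (hi adj d X Y).erase u,
        (Ff ((inc adj n X Y i : ℝ) / d + ((ov adj Y u i).card : ℝ) / d) +
          (Ff ((inc adj n X Y i : ℝ) / d) -
            Ff ((inc adj n X Y i : ℝ) / d + ((ov adj Y u i).card : ℝ) / d)))
      = ∑ i ∈ (hi adj d X Y).erase u, Ff ((inc adj n X Y i : ℝ) / d) :=
        Finset.sum_congr rfl fun i _ => by ring
    _ ≤ Sf adj n d X Y := by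
        unfold Sf
        exact Finset.sum_le_sum_of_subset_of_nonneg (Finset.erase_subset _ _)
          fun i _ _ => (h_FFF.1 _).le

/-- the right side -/
theorem right (h_REG : T_REG) (h_OUT : T_OUT) (h_FFF : T_FFF) (adj : ℕ → ℕ → Bool) (n d : ℕ)
    (hreg : Reg adj n d) (hd : 1 ≤ d) (X Y : Finset ℕ)
    (hX : X ⊆ range n) (hY : Y ⊆ range n) (u : ℕ) (hu : u ∈ X) :
    Sf (tr adj) n d Y (X.erase u) ≤ Sf (tr adj) n d Y X +
      ((nb adj (range n \ Y) u).card : ℝ) / 2 := by
  obtain ⟨-, -, h3, h4⟩ := h_OUT adj n X Y hX hY u hu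
  obtain ⟨f1, -, f3, -⟩ := h_FFF
  have hd0 : (0 : ℝ) < d := by exact_mod_cast hd
  obtain ⟨r, hr⟩ : ∃ r : ℕ, r = (nb adj (range n \ Y) u).card := ⟨_, rfl⟩
  rw [← hr] at h3 ⊢
  have hsub : hi (tr adj) d Y (X.erase u) ⊆ hi (tr adj) d Y X := by
    intro j hj
    simp only [hi, mem_filter] at hj ⊢
    refine ⟨hj.1, hj.2.trans_le ?_⟩
    have h5 : (nb (tr adj) (X.erase u) j).card ≤ (nb (tr adj) X j).card := by
      refine Finset.card_le_card ?_
      intro i hi'
      simp only [nb, mem_filter, mem_erase] at hi' ⊢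
      exact ⟨hi'.1.2, hi'.2⟩
    omega
  have hterm : ∀ j ∈ hi (tr adj) d Y X,
      Ff ((inc (tr adj) n Y (X.erase u) j : ℝ) / d) ≤ Ff ((inc (tr adj) n Y X j : ℝ) / d) +
        (if adj u j = true then (r : ℝ) / d / 2 else 0) := by
    intro j _
    by_cases h : adj u j = true
    · rw [if_pos h]
      have h5 := h3 j h
      have h6 : (inc (tr adj) n Y X j : ℝ) = inc (tr adj) n Y (X.erase u) j + r := by
        exact_mod_cast h5.symm
      have h7 := f3 ((inc (tr adj) n Y (X.erase u) j : ℝ) / d) ((inc (tr adj) n Y X j : ℝ) / d)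
        (by positivity) (by
          rw [h6]
          gcongr
          have : (0 : ℝ) ≤ r := by positivity
          linarith)
      have h8 : (inc (tr adj) n Y X j : ℝ) / d - (inc (tr adj) n Y (X.erase u) j : ℝ) / d =
          (r : ℝ) / d := by
        rw [h6, add_div]
        ring
      rw [h8] at h7
      linarith
    · rw [if_neg h, add_zero]
      rw [h4 j (by simpa using h)]
  have hcard : ((hi (tr adj) d Y X).filter fun j => adj u j = true).card ≤ d := by
    have hun : u < n := Finset.mem_range.1 (hX hu)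
    have h5 := ((h_REG adj n d hreg).2.2 Y hY u hun).1
    refine le_trans (Finset.card_le_card ?_) h5
    intro j hj
    simp only [hi, nb, mem_filter] at hj ⊢
    exact ⟨hj.1.1, hj.2⟩
  calc Sf (tr adj) n d Y (X.erase u)
      ≤ ∑ j ∈ hi (tr adj) d Y X, Ff ((inc (tr adj) n Y (X.erase u) j : ℝ) / d) := by
        unfold Sf
        exact Finset.sum_le_sum_of_subset_of_nonneg hsub fun i _ _ => (f1 _).le
    _ ≤ ∑ j ∈ hi (tr adj) d Y X, (Ff ((inc (tr adj) n Y X j : ℝ) / d) +
        (if adj u j = true then (r : ℝ) / d / 2 else 0)) := Finset.sum_le_sum hterm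
    _ = Sf (tr adj) n d Y X +
        ((hi (tr adj) d Y X).filter fun j => adj u j = true).card * ((r : ℝ) / d / 2) := by
        rw [Finset.sum_add_distrib, ← Finset.sum_filter, Finset.sum_const, nsmul_eq_mul]
        rfl
    _ ≤ Sf (tr adj) n d Y X + d * ((r : ℝ) / d / 2) := by
        have h9 : (((hi (tr adj) d Y X).filter fun j => adj u j = true).card : ℝ) ≤ d := by
          exact_mod_cast hcard
        have h10 : 0 ≤ (r : ℝ) / d / 2 := by positivity
        have := mul_le_mul_of_nonneg_right h9 h10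
        linarith
    _ = Sf (tr adj) n d Y X + (r : ℝ) / 2 := by
        congr 1
        field_simp

end DPO_

open DPO_ in
theorem p_DPO (h_REG : T_REG) (h_OUT : T_OUT) (h_FFF : T_FFF) : T_DPO := by
  intro adj n d hreg hd θ hθ X Y hX hY u hu
  have hd0 : (0 : ℝ) < d := by exact_mod_cast hd
  have hl := left h_OUT h_FFF adj n d X Y hX hY u hu
  have hr := right h_REG h_OUT h_FFF adj n d hreg hd X Y hX hY u hu
  obtain ⟨h1, -, -, -⟩ := h_OUT adj n X Y hX hY u hu
  obtain ⟨r, hrr⟩ : ∃ r : ℕ, r = (nb adj (range n \ Y) u).card := ⟨_, rfl⟩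
  obtain ⟨Δ, hΔ⟩ : ∃ Δ : ℝ, Δ = ∑ i ∈ (hi adj d X Y).erase u,
      (Ff ((inc adj n X Y i : ℝ) / d) -
        Ff ((inc adj n X Y i : ℝ) / d + ((ov adj Y u i).card : ℝ) / d)) := ⟨_, rfl⟩
  rw [← hrr] at hr h1
  rw [← hΔ] at hl ⊢
  have hc : (((X.erase u).card : ℕ) : ℝ) ≤ X.card := by
    exact_mod_cast Finset.card_le_card (Finset.erase_subset u X)
  unfold Psi
  rw [h1]
  push_cast
  have hmain : -(θ * ((Ed adj n X Y : ℝ) + r)) + 35 * (((X.erase u).card : ℝ) + Y.card) +
      (Sf adj n d (X.erase u) Y + Sf (tr adj) n d Y (X.erase u)) + Δ ≤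
      -(θ * (Ed adj n X Y : ℝ)) + 35 * ((X.card : ℝ) + Y.card) +
        (Sf adj n d X Y + Sf (tr adj) n d Y X) := by
    have h0 : (0 : ℝ) ≤ r := by positivity
    nlinarith
  have h2 := div_le_div_of_nonneg_right hmain hd0.le
  refine le_trans (le_of_eq ?_) (h2.trans (le_of_eq ?_))
  · ring
  · ring

end Pool.Agent.BisRt
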