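import Pool.Agent.BisRt.Targets

set_option autoImplicit false

/-!
# ERR: the error of the value for a fixed threshold
-/

namespace Pool.Agent.BisRt

open Finset Pool.Agent.PT Pool.Agent.BisTh Pool.Agent.BisRg

namespace ERR_

/-- The states after all rounds. -/
def Lv (D : ℕ) (W T : Un) (R : List (List Bool)) : List SI :=
  rounds D (limD D W T (List.range R.length)) (capT W T) R (List.range R.length) [root R.length]

theorem algTD_eq (D : ℕ) (W T : Un) (R : List (List Bool)) :
    algTD D W T R = ((Lv D W T R).map fun s =>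
      apx (bud (capT W T) (T ++ T)).length (rws R s) s.2).sum := by
  unfold algTD
  rw [tot_flatMap_leafExp, List.map_map]
  rfl

theorem sum_err (R : List (List Bool)) (L : List SI) (b K N : ℕ)
    (h : ∀ s ∈ L, K * (cs R s - apx b (rws R s) s.2) ≤ N) :
    K * ((L.map (cs R)).sum - (L.map fun s => apx b (rws R s) s.2).sum) ≤ L.length * N := by
  induction L with
  | nil => simp
  | cons s L ih =>
    have h1 := ih fun s' hs' => h s' (List.mem_cons_of_mem _ hs')
    have h2 := h s List.mem_cons_self
    have h3 : ((s :: L).map (cs R)).sum - ((s :: L).map fun s => apx b (rws R s) s.2).sum ≤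
        (cs R s - apx b (rws R s) s.2) +
          ((L.map (cs R)).sum - (L.map fun s => apx b (rws R s) s.2).sum) := by
      simp only [List.map_cons, List.sum_cons]
      omega
    calc K * (((s :: L).map (cs R)).sum - ((s :: L).map fun s => apx b (rws R s) s.2).sum)
        ≤ K * ((cs R s - apx b (rws R s) s.2) +
          ((L.map (cs R)).sum - (L.map fun s => apx b (rws R s) s.2).sum)) :=
          Nat.mul_le_mul_left _ h3
      _ = K * (cs R s - apx b (rws R s) s.2) +
          K * ((L.map (cs R)).sum - (L.map fun s => apx b (rws R s) s.2).sum) :=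
          Nat.mul_add _ _ _
      _ ≤ N + L.length * N := Nat.add_le_add h2 h1
      _ = (s :: L).length * N := by rw [List.length_cons]; ring

theorem cap_length (W T : Un) :
    (capT W T).length = (2 * W.length + 2 * T.length + 3) ^ 2100 := by
  unfold capT
  rw [pw_length]
  have h : (W ++ W ++ T ++ T ++ [true, true, true]).length =
      2 * W.length + 2 * T.length + 3 := by
    simp only [List.length_append, List.length_cons, List.length_nil]
    omega
  rw [h]

theorem filter_range (D n : ℕ) (h : D ≤ n) :
    ((List.range n).filter fun i => decide (i < D)).length = D := by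
  obtain ⟨m, rfl⟩ := Nat.exists_eq_add_of_le h
  rw [List.range_add, List.filter_append, List.length_append]
  have h1 : (List.range D).filter (fun i => decide (i < D)) = List.range D := by
    rw [List.filter_eq_self]
    intro i hi
    simpa using List.mem_range.1 hi
  have h2 : ((List.range m).map (D + ·)).filter (fun i => decide (i < D)) = [] := by
    rw [List.filter_eq_nil_iff]
    intro i hi
    obtain ⟨j, -, rfl⟩ := List.mem_map.1 hi
    simp
  rw [h1, h2, List.length_range, List.length_nil, Nat.add_zero]

theorem flat_length (l : List ℕ) (P : Un) : (l.flatMap fun _ => P).length =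
    l.length * P.length := by
  induction l with
  | nil => simp
  | cons x l ih => rw [List.flatMap_cons, List.length_append, ih, List.length_cons]; ring

theorem limD_eq (D n : ℕ) (W T : Un) (h : D ≤ n) :
    limD D W T (List.range n) =
      D * (1000 * (Nat.size W.length + Nat.size T.length + 1)) := by
  unfold limD
  rw [flat_length, filter_range D n h]
  unfold limT
  rw [rep_length, List.length_append, List.length_append, ← Nat.size_eq_bits_len,
    ← Nat.size_eq_bits_len, List.length_singleton]

theorem size_le_log (n : ℕ) : Nat.size n ≤ Nat.log 2 n + 1 := by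
  rw [Nat.size_le]
  exact Nat.lt_pow_succ_log_self (by norm_num) n

theorem reg_le (adj : ℕ → ℕ → Bool) (n d : ℕ) (h : Reg adj n d) (hn : 1 ≤ n) : d ≤ n := by
  have h1 := h.1 0 hn
  rw [← h1]
  refine (Finset.card_filter_le _ _).trans ?_
  rw [Finset.card_range]

/-- The loss of the rounds. -/
theorem loss (a b : ℕ) (t N G E F M : ℝ) (hN : 0 ≤ N) (ht : 0 ≤ t)
    (hG : G ≤ Real.exp 1) (hG0 : 0 ≤ G) (hE : 0 ≤ E) (hF : 0 ≤ F)
    (hM : M = N * G * E)
    (h1 : (a : ℝ) ≤ b + M * (G * F))
    (h2 : 2 * t * (Real.exp 1 * E * (Real.exp 1 * F)) ≤ 1) :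
    2 * t * ((a - b : ℕ) : ℝ) ≤ N := by
  have h3 : ((a - b : ℕ) : ℝ) ≤ M * (G * F) := by
    rcases le_total a b with h | h
    · rw [Nat.sub_eq_zero_of_le h]
      subst hM
      rw [Nat.cast_zero]
      positivity
    · rw [Nat.cast_sub h]
      linarith
  have h4 : M * (G * F) ≤ N * (Real.exp 1 * E * (Real.exp 1 * F)) := by
    subst hM
    have h5 : G * E ≤ Real.exp 1 * E := mul_le_mul_of_nonneg_right hG hE
    have h6 : G * F ≤ Real.exp 1 * F := mul_le_mul_of_nonneg_right hG hF
    have h7 : G * E * (G * F) ≤ Real.exp 1 * E * (Real.exp 1 * F) :=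
      mul_le_mul h5 h6 (by positivity) (by positivity)
    calc N * G * E * (G * F) = N * (G * E * (G * F)) := by ring
      _ ≤ _ := mul_le_mul_of_nonneg_left h7 hN
  calc 2 * t * ((a - b : ℕ) : ℝ)
      ≤ 2 * t * (N * (Real.exp 1 * E * (Real.exp 1 * F))) :=
        mul_le_mul_of_nonneg_left (h3.trans h4) (by positivity)
    _ = N * (2 * t * (Real.exp 1 * E * (Real.exp 1 * F))) := by ring
    _ ≤ N * 1 := mul_le_mul_of_nonneg_left h2 hN
    _ = N := mul_one N

/-- The error of the leaves. -/
theorem leaf_err (t c K l E N : ℕ) (hc : 1 ≤ c) (hK : 2 * t * c ^ 3 ≤ K) (hl : l ≤ c)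
    (h : K * E ≤ l * N) : 2 * t * E ≤ N := by
  have h1 : c ^ 1 ≤ c ^ 3 := Nat.pow_le_pow_right hc (by norm_num)
  rw [pow_one] at h1
  have h2 : c * (2 * t * E) ≤ c * N := by
    calc c * (2 * t * E) = 2 * t * c * E := by ring
      _ ≤ 2 * t * c ^ 3 * E :=
        Nat.mul_le_mul_right _ (Nat.mul_le_mul_left _ h1)
      _ ≤ K * E := Nat.mul_le_mul_right _ hK
      _ ≤ l * N := h
      _ ≤ c * N := Nat.mul_le_mul_right _ hl
  exact Nat.le_of_mul_le_mul_left h2 (by omega)

theorem combine (t a b e N : ℕ) (h1 : 2 * t * (a - b) ≤ N) (h2 : 2 * t * (b - e) ≤ N) :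
    t * (a - e) ≤ N := by
  have h3 : a - e ≤ (a - b) + (b - e) := by omega
  have h4 : 2 * (t * (a - e)) ≤ 2 * N := by
    calc 2 * (t * (a - e)) ≤ 2 * (t * ((a - b) + (b - e))) :=
        Nat.mul_le_mul_left _ (Nat.mul_le_mul_left _ h3)
      _ = 2 * t * (a - b) + 2 * t * (b - e) := by ring
      _ ≤ N + N := Nat.add_le_add h1 h2
      _ = 2 * N := by ring
  omega

end ERR_

open ERR_ in
theorem p_ERR (h_RND : T_RND) (h_RLB : T_RLB) (h_LFE : T_LFE) (h_NUM : T_NUM) : T_ERR := by
  refine ⟨fun D W T R => ?_, fun d k W T R hn hreg hd hk hw => ?_⟩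
  · rw [algTD_eq]
    refine le_trans ?_ (h_RLB R R.length D (limD D W T (List.range R.length)) (capT W T))
    exact List.sum_le_sum fun s _ => apx_le _ _ _
  · rcases Nat.eq_zero_or_pos T.length with ht | ht
    · rw [ht, Nat.zero_mul]
      exact Nat.zero_le _
    have hdn : d ≤ R.length := reg_le _ _ _ hreg hn
    have hd1 : 1 ≤ d := by omega
    have hs := size_le_log R.length
    have hg : 125 * (Nat.size R.length + 1) + 10 ≤ d := by omega
    have hn1 := h_NUM.1 R.length hn
    obtain ⟨hn2, hn3⟩ := h_NUM.2 R.length d k W.length T.length hd1 hk hw ht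
    have hcap := cap_length W T
    have hlim := limD_eq d R.length W T hdn
    rw [← hcap, ← hlim] at hn2
    rw [← hlim] at hn3
    have hgr0 : (0 : ℝ) ≤ gr (Nat.size R.length + 1) ^ (2 * R.length) := by
      unfold gr
      positivity
    have hyp : gr (Nat.size R.length + 1) ^ (2 * R.length) *
        Real.exp (80 * ((R.length : ℝ) / d)) *
        Real.exp (3 / 5 * ((limD d W T (List.range R.length) : ℝ) / d)) ≤
        ((capT W T).length : ℝ) := by
      refine le_trans ?_ hn2
      refine mul_le_mul_of_nonneg_right ?_ (Real.exp_pos _).le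
      exact mul_le_mul_of_nonneg_right hn1 (Real.exp_pos _).le
    obtain ⟨r1, r2, r3⟩ := h_RND R R.length d (Nat.size R.length + 1)
      (limD d W T (List.range R.length)) (capT W T) hreg hg hyp
    have hcap1 : 1 ≤ (capT W T).length := by
      rw [hcap]
      exact Nat.one_le_pow _ _ (by omega)
    have hcast : ((rounds d (limD d W T (List.range R.length)) (capT W T) R
        (List.range R.length) [root R.length]).map fun s => (cs R s : ℝ)).sum =
        ((((Lv d W T R).map (cs R)).sum : ℕ) : ℝ) := by
      rw [Nat.cast_list_sum, List.map_map]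
      rfl
    rw [hcast] at r3
    have hl := loss _ _ (T.length : ℝ) (2 ^ R.length) _ _ _ _ (by positivity)
      (by positivity) hn1 hgr0 (Real.exp_pos _).le (Real.exp_pos _).le rfl r3 hn3
    have hl' : 2 * T.length * (cs R (root R.length) - ((Lv d W T R).map (cs R)).sum) ≤
        2 ^ R.length := by
      exact_mod_cast hl
    have hbud : (bud (capT W T) (T ++ T)).length =
        6 * ((T ++ T).length.size + 3 * (capT W T).length.size) := ALD_.bud_length _ _
    have herr : ∀ s ∈ Lv d W T R,
        2 ^ ((T ++ T).length.size + 3 * (capT W T).length.size) *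
          (cs R s - apx (bud (capT W T) (T ++ T)).length (rws R s) s.2) ≤ 2 ^ R.length := by
      intro s hs
      rw [hbud]
      exact h_LFE R R.length d hreg hd1 s (r1 s hs).1 (r1 s hs).2 _
    have h3 := sum_err R _ _ _ _ herr
    rw [← algTD_eq] at h3
    have h5 := ALD_.le_pow (T ++ T).length (capT W T).length
    have h6 : (T ++ T).length = 2 * T.length := by rw [List.length_append]; ring
    rw [h6] at h5 h3
    have h7 := leaf_err T.length (capT W T).length _ _ _ _ hcap1 h5 r2 h3
    exact combine _ _ _ _ _ hl' h7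

end Pool.Agent.BisRt
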