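import Pool.Agent.BisRt.Targets

set_option autoImplicit false

/-!
# The error of a leaf
-/

namespace Pool.Agent.BisRt

open Finset Pool.Agent.PT Pool.Agent.BisTh Pool.Agent.BisRg

theorem p_LFE (h_EDG : T_EDG) (h_DBL : T_DBL) : T_LFE := by
  intro R n d hreg hd s hs hlow k
  obtain ⟨hE1, hE2, hE3⟩ := h_EDG R n s hs
  obtain ⟨hN1, hN2, hI, hJ⟩ := hs
  obtain ⟨hl1, hl2⟩ := hlow
  have hX : s.1.toFinset ⊆ range n := fun i hi => mem_range.2 (hI i (List.mem_toFinset.1 hi))
  have hY : s.2.toFinset ⊆ range n := fun j hj => mem_range.2 (hJ j (List.mem_toFinset.1 hj))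
  have h3 := (h_DBL (aj R)).2.2.1 n d hreg _ _ hX hY
  rw [List.toFinset_card_of_nodup hN1, List.toFinset_card_of_nodup hN2, ← hE3] at h3
  have h4 := tLER d 0 n k hd (rws R s) s.2 ?_ ?_ ?_
  · rw [add_zero] at h4
    exact h4
  · intro u hu
    obtain ⟨i, him, rfl⟩ := List.mem_map.1 hu
    rw [hE1 i]
    by_contra hlt
    have h5 : i ∈ hi (aj R) d s.1.toFinset s.2.toFinset :=
      mem_filter.2 ⟨List.mem_toFinset.2 him, not_le.1 hlt⟩
    rw [hl1] at h5
    exact absurd h5 (notMem_empty i)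
  · intro j hj
    rw [hE2 j]
    by_contra hlt
    have h5 : j ∈ hi (tr (aj R)) d s.2.toFinset s.1.toFinset :=
      mem_filter.2 ⟨List.mem_toFinset.2 hj, not_le.1 hlt⟩
    rw [hl2] at h5
    exact absurd h5 (notMem_empty j)
  · have h6 : (rws R s).length = s.1.length := List.length_map _
    rw [h6, add_zero]
    omega

end Pool.Agent.BisRt
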