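import Pool.Agent.BisRt.Targets

/-!
# BRT-OUT: removing one vertex
-/

set_option autoImplicit false

namespace Pool.Agent.BisRt

open Finset Pool.Agent.PT Pool.Agent.BisTh Pool.Agent.BisRg

namespace OUT_

theorem sdiff_erase' {n : ℕ} {X : Finset ℕ} (hX : X ⊆ range n) {u : ℕ} (hu : u ∈ X) :
    range n \ X.erase u = insert u (range n \ X) := by
  ext x
  simp only [mem_sdiff, mem_erase, mem_insert]
  constructor
  · rintro ⟨h1, h2⟩
    by_cases hx : x = u
    · exact Or.inl hx
    · exact Or.inr ⟨h1, fun h => h2 ⟨hx, h⟩⟩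
  · rintro (h | ⟨h1, h2⟩)
    · subst h
      exact ⟨hX hu, fun h => h.1 rfl⟩
    · exact ⟨h1, fun h => h2 h.2⟩

theorem card_nb_insert (adj : ℕ → ℕ → Bool) {S : Finset ℕ} {u : ℕ} (hu : u ∉ S) (j : ℕ) :
    (nb (tr adj) (insert u S) j).card =
      (nb (tr adj) S j).card + if adj u j = true then 1 else 0 := by
  unfold nb tr
  rw [filter_insert]
  split_ifs with h
  · rw [card_insert_of_notMem]
    intro h1
    exact hu (mem_filter.1 h1).1
  · rfl

end OUT_

open OUT_ in
theorem p_OUT : T_OUT := by
  intro adj n X Y hX hY u hu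
  have hun : u ∉ range n \ X := fun h => (mem_sdiff.1 h).2 hu
  refine ⟨?_, ?_, ?_, ?_⟩
  · unfold Ed
    rw [sdiff_erase' hX hu, sum_insert hun, add_comm]
  · intro i
    unfold inc
    rw [sdiff_erase' hX hu]
    simp_rw [card_nb_insert adj hun]
    rw [sum_add_distrib, ← card_filter]
    congr 1
    apply congrArg
    unfold ov nb
    ext j
    simp only [mem_filter, mem_inter]
    tauto
  · intro j hj
    unfold inc
    have h1 : nb (tr adj) (X.erase u) j = (nb (tr adj) X j).erase u := by
      unfold nb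
      rw [filter_erase]
    have h2 : u ∈ nb (tr adj) X j := by
      unfold nb
      exact mem_filter.2 ⟨hu, hj⟩
    rw [h1]
    exact sum_erase_add _ _ h2
  · intro j hj
    unfold inc
    have h1 : nb (tr adj) (X.erase u) j = nb (tr adj) X j := by
      unfold nb
      ext x
      simp only [mem_filter, mem_erase]
      constructor
      · rintro ⟨⟨_, h⟩, h'⟩
        exact ⟨h, h'⟩
      · rintro ⟨h, h'⟩
        refine ⟨⟨?_, h⟩, h'⟩
        rintro rfl
        unfold tr at h'
        rw [hj] at h'
        exact Bool.noConfusion h'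
    rw [h1]

end Pool.Agent.BisRt
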