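import Pool.Agent.BisRt.Targets
import Pool.Agent.BisRg.P_WPT

/-!
# The value for a fixed `D` in polynomial time
-/

set_option autoImplicit false

namespace Pool.Agent.BisRt

open Finset Pool.Agent.PT Pool.Agent.BisTh Pool.Agent.BisRg

namespace PTA_

section

variable [hC : Fact Core]

/-- Input: `D`, `W`, `T`, rows. -/
abbrev InA : Type := ℕ × Un × Un × List (List Bool)

theorem cap_pt : PolyF (fun x : InA => capT x.2.1 x.2.2.1) := by
  unfold capT
  exact pw_pt 2100 (by fun_prop)

theorem range_pt : PolyF (fun x : InA => List.range x.2.2.2.length) :=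
  PolyF.range_length (by fun_prop)

theorem lim_pt : PolyF (fun x : InA =>
    limD x.1 x.2.1 x.2.2.1 (List.range x.2.2.2.length)) := by
  unfold limD
  have h2 : PolyF (fun x : InA =>
      (List.range x.2.2.2.length).filter fun i => decide (i < x.1)) :=
    PolyF.filter (f := fun (x : InA) i => decide (i < x.1)) (by fun_prop) range_pt
  have h3 : PolyF (fun x : InA => limT x.2.1 x.2.2.1) := by
    unfold limT
    exact rep_pt 1000 (by fun_prop)
  have h4 : PolyF (fun x : InA =>
      ((List.range x.2.2.2.length).filter fun i => decide (i < x.1)).flatMap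
        fun _ => limT x.2.1 x.2.2.1) :=
    PolyF.flatMap (f := fun (x : InA) (_ : ℕ) => limT x.2.1 x.2.2.1)
      (h3.comp (g := fun p : InA × ℕ => p.1) (by fun_prop)) h2
  exact h4.length

theorem rounds_pt (h_PTR : T_PTR) : PolyF (fun x : InA =>
    rounds x.1 (limD x.1 x.2.1 x.2.2.1 (List.range x.2.2.2.length)) (capT x.2.1 x.2.2.1)
      x.2.2.2 (List.range x.2.2.2.length)
      [(List.range x.2.2.2.length, List.range x.2.2.2.length)]) := by
  have h0 := h_PTR hC
  have hg : PolyF (fun x : InA =>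
      ((x.1, limD x.1 x.2.1 x.2.2.1 (List.range x.2.2.2.length)), capT x.2.1 x.2.2.1,
        x.2.2.2, List.range x.2.2.2.length)) :=
    ((PolyF.fst PolyF.id).pair lim_pt).pair
      (cap_pt.pair ((PolyF.snd (PolyF.snd (PolyF.snd PolyF.id))).pair range_pt))
  exact h0.comp hg

theorem toSt_pt : PolyF (fun p : InA × SI => toSt p.1.2.2.2 p.2) := by
  unfold toSt
  have h1 : PolyF (fun p : InA × SI => p.2.1.map fun i => p.1.2.2.2.getD i []) :=
    PolyF.map (f := fun (p : InA × SI) i => p.1.2.2.2.getD i []) (by fun_prop) (by fun_prop)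
  exact h1.pair (by fun_prop)

end

end PTA_

theorem p_PTA (h_PTR : T_PTR) : T_PTA := by
  intro hC
  have h1 := PTA_.rounds_pt (hC := hC) h_PTR
  have h2 : PolyF (fun x : PTA_.InA =>
      (rounds x.1 (limD x.1 x.2.1 x.2.2.1 (List.range x.2.2.2.length)) (capT x.2.1 x.2.2.1)
        x.2.2.2 (List.range x.2.2.2.length)
        [(List.range x.2.2.2.length, List.range x.2.2.2.length)]).map (toSt x.2.2.2)) :=
    PolyF.map (f := fun (x : PTA_.InA) s => toSt x.2.2.2 s) PTA_.toSt_pt h1
  have hTT : PolyF (fun x : PTA_.InA => x.2.2.1 ++ x.2.2.1) := by fun_prop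
  have h3 : PolyF (fun p : PTA_.InA × St =>
      leafExp (bud (capT p.1.2.1 p.1.2.2.1) (p.1.2.2.1 ++ p.1.2.2.1)) p.2) :=
    WPT_.leaf_pt (γ := PTA_.InA) (W := fun x => capT x.2.1 x.2.2.1)
      (T := fun x => x.2.2.1 ++ x.2.2.1) PTA_.cap_pt hTT
  have h4 := PolyF.flatMap
    (f := fun (x : PTA_.InA) s =>
      leafExp (bud (capT x.2.1 x.2.2.1) (x.2.2.1 ++ x.2.2.1)) s) h3 h2
  unfold algTD
  exact tot_pt h4

end Pool.Agent.BisRt
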