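import Pool.Agent.BisRt.Targets

/-!
# All rounds run in polynomial time
-/

set_option autoImplicit false

namespace Pool.Agent.BisRt

open Finset Pool.Agent.PT Pool.Agent.BisTh Pool.Agent.BisRg

namespace PTR_

theorem length_flatMap_le {α : Type} (l : List α) (f : α → List α)
    (h : ∀ x, (f x).length ≤ 2) : (l.flatMap f).length ≤ 2 * l.length := by
  induction l with
  | nil => simp
  | cons x l ih =>
    rw [List.flatMap_cons, List.length_append, List.length_cons]
    have h1 := h x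
    omega

/-- Sizes in a guarded sweep. -/
theorem sweep_bound (step : SI → List SI) (P : Un) (N : ℕ)
    (h2 : ∀ s, (step s).length ≤ 2) (h3 : ∀ s, ∀ q ∈ step s, sz q ≤ sz s) :
    ∀ (l : List ℕ) (L : List SI), (∀ s ∈ L, sz s ≤ N) → L.length ≤ 2 * P.length + 1 →
      sz (l.foldl (fun L _ => cond (decide (L.length ≤ P.length)) (L.flatMap step) []) L) ≤
        (2 * P.length + 1) * (N + 1) + 1
  | [], L, hM, hL => by
    rw [List.foldl_nil]
    exact (sz_list_le hM).trans (Nat.add_le_add_right (Nat.mul_le_mul hL le_rfl) _)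
  | k :: l, L, hM, hL => by
    rw [List.foldl_cons]
    by_cases h : L.length ≤ P.length
    · have e : (decide (L.length ≤ P.length)) = true := decide_eq_true h
      rw [e, cond_true]
      refine sweep_bound step P N h2 h3 l _ ?_ ?_
      · intro s hs
        obtain ⟨s', hs', hs⟩ := List.mem_flatMap.1 hs
        exact (h3 s' s hs).trans (hM s' hs')
      · have := length_flatMap_le L step h2
        omega
    · have e : (decide (L.length ≤ P.length)) = false := decide_eq_false h
      rw [e, cond_false]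
      exact sweep_bound step P N h2 h3 l [] (by simp) (by simp)

end PTR_

theorem p_PTR (h_PTS : T_PTS) : T_PTR := by
  intro hC
  have hs := h_PTS.1 hC
  unfold rounds
  refine PolyF.foldl (f := fun (x : (ℕ × ℕ) × Un × List (List Bool) × List ℕ)
    (L : List SI) (_ : ℕ) => cond (decide (L.length ≤ x.2.1.length))
      (L.flatMap (stepT x.1.1 x.1.2 x.2.2.1 x.2.2.2)) []) ?_ (by fun_prop) (by fun_prop)
    (fun x => (2 * sz x.2.1 + 1) * (sz (x.2.2.2, x.2.2.2) + 1) + 1) ?_ ?_
  · have h0 : PolyF (fun q : (((ℕ × ℕ) × Un × List (List Bool) × List ℕ) × List SI × ℕ) × SI =>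
        stepT q.1.1.1.1 q.1.1.1.2 q.1.1.2.2.1 q.1.1.2.2.2 q.2) :=
      hs.comp (g := fun q : (((ℕ × ℕ) × Un × List (List Bool) × List ℕ) × List SI × ℕ) × SI =>
        (q.1.1.1.2, q.1.1.1.1, q.1.1.2.2.1, q.1.1.2.2.2, q.2)) (by fun_prop)
    have h1 : PolyF (fun p : ((ℕ × ℕ) × Un × List (List Bool) × List ℕ) × List SI × ℕ =>
        p.2.1.flatMap (stepT p.1.1.1 p.1.1.2 p.1.2.2.1 p.1.2.2.2)) :=
      PolyF.flatMap (f := fun (p : ((ℕ × ℕ) × Un × List (List Bool) × List ℕ) × List SI × ℕ) s =>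
        stepT p.1.1.1 p.1.1.2 p.1.2.2.1 p.1.2.2.2 s) h0 (by fun_prop)
    fun_prop
  · have b1 : PolyB (fun x : (ℕ × ℕ) × Un × List (List Bool) × List ℕ => sz x.2.1) :=
      PolyF.bound (f := fun x : (ℕ × ℕ) × Un × List (List Bool) × List ℕ => x.2.1) (by fun_prop)
    have b2 : PolyB (fun x : (ℕ × ℕ) × Un × List (List Bool) × List ℕ =>
        sz (x.2.2.2, x.2.2.2)) :=
      PolyF.bound (f := fun x : (ℕ × ℕ) × Un × List (List Bool) × List ℕ =>
        (x.2.2.2, x.2.2.2)) (by fun_prop)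
    exact (((((PolyB.const 2).mul b1).add (PolyB.const 1)).mul
      (b2.add (PolyB.const 1))).add (PolyB.const 1))
  · intro x l₁ hl₁
    have h1 := PTR_.sweep_bound (stepT x.1.1 x.1.2 x.2.2.1 x.2.2.2) x.2.1
      (sz (x.2.2.2, x.2.2.2)) (fun s => (h_PTS.2 _ _ _ _ s).1) (fun s => (h_PTS.2 _ _ _ _ s).2)
      l₁ [(x.2.2.2, x.2.2.2)] (by simp) (by simp)
    refine h1.trans (Nat.add_le_add_right (Nat.mul_le_mul_right _ ?_) _)
    have := length_lt_sz x.2.1
    omega

end Pool.Agent.BisRt
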