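import Pool.Agent.BisRt.Targets

/-!
# ST5: the machine for regular graphs (MP_29585b_lc, job ST5, helper39)
-/

set_option autoImplicit false

namespace Pool.Agent.BisRt

open Finset Pool.Agent.PT Pool.Agent.BisTh Pool.Agent.BisRg

namespace ST5_

/-- The value of the algorithm on an instance. -/
def algUG (x : Bip × ℕ × ℕ) : ℕ :=
  algU (List.replicate x.2.2 true) (List.replicate x.2.1 true) (List.replicate x.1.b true)
    (rowsOf x.1)

theorem tm_algU (h_PTX : T_PTX) :
    Nonempty (Turing.TM2ComputableInPolyTime encInput₂ encNat algUG) := by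
  have hC : Fact Core := ⟨core⟩
  have h1 : PolyF (fun w : List Letter =>
      encNat (algU (ST1_.parse₂ w).1 (ST1_.parse₂ w).2.1 (ST1_.parse₂ w).2.2.1
        (ST1_.parse₂ w).2.2.2)) := by
    have h2 := (h_PTX hC).comp (ST1_.parse₂_pt (hC := hC))
    exact h2.bits
  refine tm_of_polyF h1 encInput₂ encNat _ fun x => ?_
  rw [ST1_.parse₂_encInput₂]
  rfl

theorem algUG_of_ne (G : Bip) (t w : ℕ) (h : G.a ≠ G.b) : algUG (G, t, w) = 0 := by
  unfold algUG algU
  simp only [List.length_replicate, ST1_.length_rowsOf]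
  rw [decide_eq_false (fun h' => h h'.symm)]
  rfl

theorem algUG_of_eq (G : Bip) (t w : ℕ) (h : G.a = G.b) :
    algUG (G, t, w) = algT (List.replicate w true) (List.replicate t true) (rowsOf G) := by
  unfold algUG algU
  simp only [List.length_replicate, ST1_.length_rowsOf]
  rw [decide_eq_true h.symm]
  rfl

end ST5_

open ST5_

theorem p_ST5 (h_PTX : T_PTX) (h_ALT : T_ALT) (h_GRA : T_GRA) : T_ST5 := by
  refine ⟨algUG, tm_algU h_PTX, fun G t w => ⟨?_, fun d k hG hk hw hd => ?_⟩⟩
  · by_cases hab : G.a = G.b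
    · obtain ⟨h1, h2, -, -⟩ := h_GRA G hab
      rw [algUG_of_eq G t w hab, ← h2, ← h1]
      exact h_ALT.1 _ _ _
    · rw [algUG_of_ne G t w hab]
      exact Nat.zero_le _
  · have hab : G.a = G.b := hG.1
    obtain ⟨h1, h2, h3, h4⟩ := h_GRA G hab
    have h5 := h_ALT.2 d k (List.replicate w true) (List.replicate t true) (rowsOf G)
      (by rw [h1]; exact h4 d hG) (by rw [h1]; exact hd) (by rw [h1]; exact hk)
      (by rw [List.length_replicate]; exact hw)
    rw [h1, h2, List.length_replicate, ← algUG_of_eq G t w hab] at h5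
    exact h5.trans h3

end Pool.Agent.BisRt
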