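import Pool.Agent.BisRt.Targets

/-!
# ST6: polynomial time for regular graphs with `n ≤ q d log n` (helper23)
-/

set_option autoImplicit false

namespace Pool.Agent.BisRt

open Finset Pool.Agent.PT Pool.Agent.BisTh Pool.Agent.BisRg

namespace ST6_

/-- The width. -/
def wid (k : ℕ) (B : Un) (X : List (List Bool)) : Un := pw k (B ++ un X ++ [true])

/-- The value. -/
def val6 (q : ℕ) (V T B : Un) (X : List (List Bool)) : ℕ :=
  max (algU (wid q B X) T B X) (algW V T B X)

/-- The value on a graph. -/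
def valG (q : ℕ) (V : Un) (x : Bip × ℕ) : ℕ :=
  val6 q V (List.replicate x.2 true) (List.replicate x.1.b true) (rowsOf x.1)

theorem pt7 (h_PTX : T_PTX) (hC : Fact Core) (q : ℕ) (V : Un) :
    PolyF (fun x : In => val6 q V x.1 x.2.1 x.2.2) := by
  have h3 : PolyF (fun x : In => wid q x.2.1 x.2.2) := by
    unfold wid
    exact pw_pt q (by fun_prop)
  have h1 : PolyF (fun x : In => ((wid q x.2.1 x.2.2, x.1, x.2.1, x.2.2) : In₂)) := by
    fun_prop
  have h0 : PolyF (fun _ : In => V) := PolyF.const V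
  have h4 : PolyF (fun x : In => ((V, x.1, x.2.1, x.2.2) : In₂)) := by
    fun_prop
  have h5 := (h_PTX hC).comp h1
  have h6 := (tWPT hC).comp h4
  unfold val6
  exact PolyF.nat_max h5 h6

theorem tm (h_PTX : T_PTX) (q : ℕ) (V : Un) :
    Nonempty (Turing.TM2ComputableInPolyTime encInput encNat (valG q V)) := by
  have hC : Fact Core := ⟨core⟩
  have h2 : PolyF (fun w : List Letter => encNat (val6 q V (parse w).1 (parse w).2.1
      (parse w).2.2)) :=
    ((pt7 h_PTX hC q V).comp (parse_pt (hC := hC))).bits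
  refine tm_of_polyF h2 encInput encNat _ fun x => ?_
  rw [parse_encInput]
  rfl

theorem wid_length (k : ℕ) (B : Un) (X : List (List Bool)) :
    (wid k B X).length = (B.length + X.length + 1) ^ k := by
  unfold wid
  rw [pw_length, List.length_append, List.length_append, un_length]
  rfl

theorem sub_le (m r : ℕ) : BisRg.Sub m r ≤ 2 ^ m := by
  unfold BisRg.Sub
  rw [← Nat.sum_range_choose m]
  refine Finset.sum_le_sum_of_ne_zero fun i _ hi => ?_
  rw [Finset.mem_range]
  by_contra h
  exact hi (Nat.choose_eq_zero_of_lt (by omega))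

/-- An exponential function is larger than a quadratic one. -/
theorem ev (K : ℕ) : ∃ l0 : ℕ, ∀ l : ℕ, l0 ≤ l → K * ((l + 3) * l) < 2 ^ l := by
  have h := tendsto_pow_const_div_const_pow_of_one_lt 2 (r := (2 : ℝ)) (by norm_num)
  have hK : (0 : ℝ) < 1 / (4 * (K + 1)) := by positivity
  obtain ⟨l0, hl⟩ := Filter.eventually_atTop.1 (h.eventually (gt_mem_nhds hK))
  refine ⟨max l0 1, fun l hl1 => ?_⟩
  have h1 := hl l ((le_max_left _ _).trans hl1)
  have hl2 : 1 ≤ l := (le_max_right _ _).trans hl1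
  have h2 : (0 : ℝ) < 2 ^ l := by positivity
  rw [div_lt_div_iff₀ h2 (by positivity), one_mul] at h1
  have h3 : (l : ℝ) ^ 2 * (4 * (K + 1)) < 2 ^ l := h1
  have h4 : ((l + 3) * l : ℕ) ≤ 4 * l ^ 2 := by nlinarith
  have h5 : (((l + 3) * l : ℕ) : ℝ) ≤ 4 * (l : ℝ) ^ 2 := by exact_mod_cast h4
  have h6 : ((K * ((l + 3) * l) : ℕ) : ℝ) < ((2 ^ l : ℕ) : ℝ) := by
    push_cast at h5 ⊢
    have hK0 : (0 : ℝ) ≤ K := by positivity
    have hl0 : (0 : ℝ) ≤ (l : ℝ) ^ 2 := by positivity
    nlinarith
  exact_mod_cast h6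

/-- Only finitely many sizes are small. -/
theorem small (q : ℕ) : ∃ m : ℕ, ∀ n d : ℕ, n ≤ q * (d * Nat.log 2 n) →
    d < 125 * (Nat.log 2 n + 3) → n ≤ m := by
  obtain ⟨l0, hl0⟩ := ev (125 * q)
  refine ⟨2 ^ l0, fun n d h1 h2 => ?_⟩
  rcases Nat.eq_zero_or_pos n with hn | hn
  · rw [hn]
    exact Nat.zero_le _
  by_contra hc
  have h3 : l0 ≤ Nat.log 2 n := by
    refine Nat.le_log_of_pow_le (by norm_num) (by omega)
  have h4 := hl0 _ h3
  have h5 : 2 ^ Nat.log 2 n ≤ n := Nat.pow_log_le_self 2 (by omega)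
  have h6 : q * (d * Nat.log 2 n) ≤ q * (125 * (Nat.log 2 n + 3) * Nat.log 2 n) :=
    Nat.mul_le_mul_left _ (Nat.mul_le_mul_right _ h2.le)
  have h7 : q * (125 * (Nat.log 2 n + 3) * Nat.log 2 n) =
      125 * q * ((Nat.log 2 n + 3) * Nat.log 2 n) := by ring
  omega

end ST6_

open ST6_ in
/-- Polynomial time for regular graphs with `n ≤ q d log n`. -/
theorem p_ST6 (h_PTX : T_PTX) (h_ALT : T_ALT) (h_GRA : T_GRA) : T_ST6 := by
  intro q
  obtain ⟨m, hm⟩ := small q
  refine ⟨valG q (List.replicate (2 ^ m) true), tm h_PTX q _, fun G t d hreg hn => ?_⟩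
  have hab : G.a = G.b := hreg.1
  obtain ⟨hRl, hcs, h2, hR⟩ := h_GRA G hab
  set B : Un := List.replicate G.b true with hB
  set T : Un := List.replicate t true with hT
  set X := rowsOf G with hX
  have hBl : B.length = G.b := by rw [hB, List.length_replicate]
  have hTl : T.length = t := by rw [hT, List.length_replicate]
  obtain ⟨V, hV⟩ : ∃ V : Un, V = List.replicate (2 ^ m) true := ⟨_, rfl⟩
  have hVl : V.length = 2 ^ m := by rw [hV, List.length_replicate]
  rw [← hV]
  have hval : valG q V (G, t) = max (algU (wid q B X) T B X) (algW V T B X) := rfl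
  have hcnt : G.count = cnt X (List.range B.length) := by rw [count_eq, hBl]
  have hU : algU (wid q B X) T B X = algT (wid q B X) T X := by
    unfold algU
    rw [hBl, hRl, hab]
    simp
  have hle1 : algU (wid q B X) T B X ≤ G.count := by
    rw [hU, ← hcs, ← hRl]
    exact h_ALT.1 _ _ _
  have hle2 : algW V T B X ≤ G.count := by
    rw [hcnt]
    exact tALW.1 _ _ _ _
  rw [hval]
  refine ⟨max_le hle1 hle2, ?_⟩
  by_cases hd : 125 * (Nat.log 2 G.a + 3) ≤ d
  · have h1 := h_ALT.2 d (q * Nat.log 2 G.a) (wid q B X) T X (by rw [hRl]; exact hR d hreg)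
      (by rw [hRl]; exact hd) (by rw [hRl]; linarith [hn, mul_left_comm q d (Nat.log 2 G.a)]) ?_
    · rw [hTl, hRl, hcs, ← hU] at h1
      refine le_trans (Nat.mul_le_mul_left _ ?_) (h1.trans h2)
      exact Nat.sub_le_sub_left (le_max_left _ _) _
    · rw [wid_length, hBl, hRl, hab]
      have h3 : 2 ^ Nat.log 2 G.b ≤ G.b + G.b + 1 := by
        rcases Nat.eq_zero_or_pos G.b with ha | ha
        · rw [ha]
          simp
        · have := Nat.pow_log_le_self 2 (x := G.b) (by omega)
          omega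
      rw [mul_comm, pow_mul]
      exact Nat.pow_le_pow_left h3 _
  · have hs : G.a ≤ m := hm G.a d hn (by omega)
    have hC : Cond 1 m B X := by
      intro X' Y' hX' hY'
      have e1 := hX'.length_le
      have e2 := hY'.length_le
      rw [List.length_range] at e2
      have e3 : X.length ≤ max X.length B.length := le_max_left _ _
      omega
    have hsub : ∀ r : ℕ, BisRg.Sub G.a r ≤ V.length := by
      intro r
      rw [hVl]
      exact (sub_le _ _).trans (Nat.pow_le_pow_right (by norm_num) hs)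
    have h1 := tALW.2 1 m le_rfl V T B X hC hVl.ge (by rw [hRl]; exact hsub _)
      (by rw [hBl, ← hab]; exact hsub _)
    rw [hTl, ← hcnt] at h1
    refine le_trans (Nat.mul_le_mul_left _ ?_) h1
    exact Nat.sub_le_sub_left (le_max_right _ _) _

end Pool.Agent.BisRt
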