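import Pool.Agent.BisRt.Targets

/-!
# STP: the step inequality
-/

set_option autoImplicit false

namespace Pool.Agent.BisRt

open Finset Pool.Agent.PT Pool.Agent.BisTh Pool.Agent.BisRg

namespace STP_

/-- the weight of a state whose potential is smaller by `a` -/
theorem wt_le {adj : ℕ → ℕ → Bool} {n d : ℕ} {θ : ℝ} {X Y X' Y' : Finset ℕ} {a : ℝ}
    (h : Psi adj n d θ X' Y' + a ≤ Psi adj n d θ X Y) :
    Wt adj n d θ X' Y' ≤ Real.exp (-a) * Wt adj n d θ X Y := by
  unfold Wt
  rw [← Real.exp_add]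
  exact Real.exp_le_exp.2 (by linarith)

end STP_

open STP_ in
theorem p_STP (h_DPO : T_DPO) (h_DPI : T_DPI) (h_OVL : T_OVL) (h_GAI : T_GAI) (h_FFF : T_FFF) :
    T_STP := by
  intro adj n d g hR hd θ hθ X Y hX hY u hu hmax hmax'
  have hd1 : 1 ≤ d := by omega
  have hd0 : (0 : ℝ) < d := by exact_mod_cast hd1
  have huX : u ∈ X := (mem_filter.1 hu).1
  have hin := h_DPI adj n d hR hd1 θ hθ X Y hX hY u hu
  have hout := h_DPO adj n d hR hd1 θ hθ X Y hX hY u huX
  obtain ⟨f1, f2, -, -, f5, f6⟩ := h_FFF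
  have hW : 0 < Wt adj n d θ X Y := Real.exp_pos _
  have hgr : 1 ≤ gr g := by
    unfold gr
    have := Real.exp_pos (-(g : ℝ))
    linarith
  have hin' : Psi adj n d θ (X.erase u) (Y \ nb adj Y u) +
      (7 + (inc adj n X Y u : ℝ) / d / 10) ≤ Psi adj n d θ X Y := by linarith
  have win := wt_le hin'
  have wout := wt_le hout
  have e7 : Real.exp (-(7 + (inc adj n X Y u : ℝ) / d / 10)) =
      Real.exp (-7) * Real.exp (-((inc adj n X Y u : ℝ) / d / 10)) := by
    rw [← Real.exp_add]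
    congr 1
    ring
  rw [e7] at win
  have hE7 : 0 < Real.exp (-7) := Real.exp_pos _
  rcases le_or_gt (inc adj n X Y u) (10 * g * d) with hle | hgt
  · -- small inner cost
    have hov := h_OVL adj n d g hR hd X Y hX hY u hu hle hmax'
    have hgai := h_GAI adj n d hR hd1 X Y hX hY u hu hmax hov
    have hc0 : (0 : ℝ) ≤ (inc adj n X Y u : ℝ) / d / 10 := by positivity
    have he1 : Real.exp (-((inc adj n X Y u : ℝ) / d / 10)) ≤ 1 :=
      Real.exp_le_one_iff.2 (by linarith)
    have he0 := Real.exp_pos (-((inc adj n X Y u : ℝ) / d / 10))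
    generalize Real.exp (-((inc adj n X Y u : ℝ) / d / 10)) = e at win hgai he1 he0
    generalize (∑ i ∈ (hi adj d X Y).erase u, (Ff ((inc adj n X Y i : ℝ) / d) -
        Ff ((inc adj n X Y i : ℝ) / d + ((ov adj Y u i).card : ℝ) / d))) / d = S at wout hgai
    have h1 : Real.exp (-S) ≤ 1 - 1 / 400 * e / 2 := by
      refine le_trans (Real.exp_le_exp.2 (by linarith)) (f5 (1 / 400 * e) (by positivity) ?_)
      linarith
    have h2 : Real.exp (-7) * e ≤ 1 / 800 * e := mul_le_mul_of_nonneg_right f6 he0.le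
    have h3 : Wt adj n d θ (X.erase u) Y ≤ (1 - 1 / 400 * e / 2) * Wt adj n d θ X Y :=
      wout.trans (mul_le_mul_of_nonneg_right h1 hW.le)
    have h4 : Wt adj n d θ (X.erase u) (Y \ nb adj Y u) ≤ 1 / 800 * e * Wt adj n d θ X Y :=
      win.trans (mul_le_mul_of_nonneg_right h2 hW.le)
    have h5 : 1 * Wt adj n d θ X Y ≤ gr g * Wt adj n d θ X Y :=
      mul_le_mul_of_nonneg_right hgr hW.le
    have h6 : (1 - 1 / 400 * e / 2) * Wt adj n d θ X Y + 1 / 800 * e * Wt adj n d θ X Y =
        1 * Wt adj n d θ X Y := by ring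
    linarith
  · -- large inner cost
    have hc : (g : ℝ) ≤ (inc adj n X Y u : ℝ) / d / 10 := by
      have h1 : ((10 * g * d : ℕ) : ℝ) ≤ inc adj n X Y u := by exact_mod_cast hgt.le
      push_cast at h1
      rw [le_div_iff₀ (by norm_num : (0 : ℝ) < 10), le_div_iff₀ hd0]
      linarith
    have he : Real.exp (-((inc adj n X Y u : ℝ) / d / 10)) ≤ Real.exp (-(g : ℝ)) :=
      Real.exp_le_exp.2 (by linarith)
    have hg0 := Real.exp_pos (-(g : ℝ))
    have h7 : Real.exp (-7) ≤ 1 := by linarith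
    have h2 : Real.exp (-7) * Real.exp (-((inc adj n X Y u : ℝ) / d / 10)) ≤
        1 * Real.exp (-(g : ℝ)) :=
      mul_le_mul h7 he (Real.exp_pos _).le zero_le_one
    have h4 : Wt adj n d θ (X.erase u) (Y \ nb adj Y u) ≤
        1 * Real.exp (-(g : ℝ)) * Wt adj n d θ X Y :=
      win.trans (mul_le_mul_of_nonneg_right h2 hW.le)
    have hS : 0 ≤ (∑ i ∈ (hi adj d X Y).erase u, (Ff ((inc adj n X Y i : ℝ) / d) -
        Ff ((inc adj n X Y i : ℝ) / d + ((ov adj Y u i).card : ℝ) / d))) / d := by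
      refine div_nonneg (sum_nonneg fun i _ => ?_) hd0.le
      have h8 := f2 ((inc adj n X Y i : ℝ) / d)
        ((inc adj n X Y i : ℝ) / d + ((ov adj Y u i).card : ℝ) / d)
        (le_add_of_nonneg_right (by positivity))
      linarith
    have h3 : Wt adj n d θ (X.erase u) Y ≤ 1 * Wt adj n d θ X Y :=
      wout.trans (mul_le_mul_of_nonneg_right (Real.exp_le_one_iff.2 (by linarith)) hW.le)
    have h6 : gr g * Wt adj n d θ X Y = 1 * Wt adj n d θ X Y +
        1 * Real.exp (-(g : ℝ)) * Wt adj n d θ X Y := by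
      unfold gr
      ring
    linarith

end Pool.Agent.BisRt
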