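import Pool.Agent.BisRt.Targets

/-!
# One step and the weights (target STW of the project BisRt)
-/

set_option autoImplicit false

namespace Pool.Agent.BisRt

open Finset Pool.Agent.PT Pool.Agent.BisTh Pool.Agent.BisRg

namespace STW_

theorem one_le_gr (g : ℕ) : 1 ≤ gr g := by
  unfold gr
  have := Real.exp_pos (-(g : ℝ))
  linarith

theorem Mc_nonneg (n d g K : ℕ) : 0 ≤ Mc n d g K := by
  unfold Mc
  have h1 := one_le_gr g
  positivity

theorem length_le {n : ℕ} {l : List ℕ} (h : l.Nodup) (h' : ∀ i ∈ l, i < n) : l.length ≤ n := by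
  have h1 : l.toFinset ⊆ range n := by
    intro i hi
    rw [List.mem_toFinset] at hi
    exact Finset.mem_range.2 (h' i hi)
  have h2 := Finset.card_le_card h1
  rw [List.toFinset_card_of_nodup h, Finset.card_range] at h2
  exact h2

theorem dropped (h_CBD : T_CBD) (h_WRT : T_WRT) (h_LNK : T_LNK) {R : List (List Bool)}
    {n d g K : ℕ} (hR : Reg (aj R) n d) (hd : 125 * g + 10 ≤ d) {s : SI} (hs : GoodS n s)
    (hK : ¬ ed R (List.range n) s ≤ K) :
    (cs R s : ℝ) ≤ Mc n d g K * WS R n d (3 / 5) s := by
  have hd1 : 1 ≤ d := by omega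
  have hd0 : (0 : ℝ) < d := by exact_mod_cast hd1
  obtain ⟨hpos, hcmp, -, -⟩ := h_WRT R n d hd1 s
  have hE := (h_LNK R n s hs).2.2.2.2
  have h1 := h_CBD R n d g hR hd s hs
  have hlen : s.1.length + s.2.length ≤ 2 * n := by
    have a1 := length_le hs.1 hs.2.2.1
    have a2 := length_le hs.2.1 hs.2.2.2
    omega
  have hg := one_le_gr g
  have hpow : gr g ^ (s.1.length + s.2.length) ≤ gr g ^ (2 * n) :=
    pow_le_pow_right₀ hg hlen
  have hKE : (K : ℝ) ≤ (Ed (aj R) n s.1.toFinset s.2.toFinset : ℝ) := by
    have : K ≤ Ed (aj R) n s.1.toFinset s.2.toFinset := by omega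
    exact_mod_cast this
  have hexp : Real.exp (-(9 / 100 * ((Ed (aj R) n s.1.toFinset s.2.toFinset : ℝ) / d))) ≤
      Real.exp (-(9 / 100 * ((K : ℝ) / d))) := by
    apply Real.exp_le_exp.2
    have : (K : ℝ) / d ≤ (Ed (aj R) n s.1.toFinset s.2.toFinset : ℝ) / d :=
      div_le_div_of_nonneg_right hKE hd0.le
    linarith
  have hg0 : 0 ≤ gr g := by linarith
  calc (cs R s : ℝ) ≤ 2 ^ n * gr g ^ (s.1.length + s.2.length) * WS R n d (69 / 100) s := h1
    _ = 2 ^ n * gr g ^ (s.1.length + s.2.length) *
        (Real.exp (-(9 / 100 * ((Ed (aj R) n s.1.toFinset s.2.toFinset : ℝ) / d))) *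
          WS R n d (3 / 5) s) := by rw [hcmp]
    _ ≤ 2 ^ n * gr g ^ (2 * n) *
        (Real.exp (-(9 / 100 * ((K : ℝ) / d))) * WS R n d (3 / 5) s) := by
        gcongr
    _ = Mc n d g K * WS R n d (3 / 5) s := by
        unfold Mc
        ring

theorem filt (h_CBD : T_CBD) (h_WRT : T_WRT) (h_LNK : T_LNK) {R : List (List Bool)}
    {n d g K : ℕ} (hR : Reg (aj R) n d) (hd : 125 * g + 10 ≤ d) (l : List SI)
    (hl : ∀ s ∈ l, GoodS n s) :
    ((l.filter fun s' => decide (ed R (List.range n) s' ≤ K)).map (WS R n d (3 / 5))).sum ≤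
      (l.map (WS R n d (3 / 5))).sum ∧
    (((l.map (cs R)).sum : ℕ) : ℝ) + Mc n d g K *
      ((l.filter fun s' => decide (ed R (List.range n) s' ≤ K)).map (WS R n d (3 / 5))).sum ≤
      ((l.filter fun s' => decide (ed R (List.range n) s' ≤ K)).map
        fun s' => (cs R s' : ℝ)).sum + Mc n d g K * (l.map (WS R n d (3 / 5))).sum := by
  induction l with
  | nil => simp
  | cons s l ih =>
    obtain ⟨i1, i2⟩ := ih (fun s' h' => hl s' (List.mem_cons_of_mem _ h'))
    have hs := hl s List.mem_cons_self
    have hd1 : 1 ≤ d := by omega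
    have hpos := (h_WRT R n d hd1 s).1
    by_cases hK : ed R (List.range n) s ≤ K
    · have hf : (s :: l).filter (fun s' => decide (ed R (List.range n) s' ≤ K)) =
          s :: l.filter (fun s' => decide (ed R (List.range n) s' ≤ K)) := by
        rw [List.filter_cons_of_pos]
        simpa using hK
      rw [hf]
      simp only [List.map_cons, List.sum_cons, Nat.cast_add]
      constructor
      · linarith
      · nlinarith
    · have hf : (s :: l).filter (fun s' => decide (ed R (List.range n) s' ≤ K)) =
          l.filter (fun s' => decide (ed R (List.range n) s' ≤ K)) := by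
        rw [List.filter_cons_of_neg]
        simpa using hK
      have hdr := dropped h_CBD h_WRT h_LNK hR hd hs hK
      rw [hf]
      simp only [List.map_cons, List.sum_cons, Nat.cast_add]
      constructor
      · linarith
      · nlinarith

end STW_

open STW_ in
theorem p_STW (h_BST : T_BST) (h_KID : T_KID) (h_CSK : T_CSK) (h_WKD : T_WKD) (h_CBD : T_CBD)
    (h_WRT : T_WRT) (h_LNK : T_LNK) : T_STW := by
  intro R n d g K hR hd s hs
  have hd1 : 1 ≤ d := by omega
  have hpos := (h_WRT R n d hd1 s).1
  have hg := one_le_gr g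
  have hM := Mc_nonneg n d g K
  by_cases hC : cands d R (List.range n) s = []
  · have hst : stepT d K R (List.range n) s = [s] := by
      unfold stepT
      rw [hC]
      rfl
    rw [hst]
    simp only [List.map_cons, List.map_nil, List.sum_cons, List.sum_nil, add_zero]
    have h1 : WS R n d (3 / 5) s ≤ gr g * WS R n d (3 / 5) s := by nlinarith
    refine ⟨h1, ?_⟩
    have h2 := mul_le_mul_of_nonneg_left h1 hM
    linarith
  · have hst : stepT d K R (List.range n) s =
        (kids R (best (cands d R (List.range n) s)) s).filter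
          (fun s' => decide (ed R (List.range n) s' ≤ K)) := by
      unfold stepT
      have : (cands d R (List.range n) s).isEmpty = false := by
        rw [Bool.eq_false_iff]
        intro h
        exact hC (List.isEmpty_iff.1 h)
      rw [this]
      rfl
    have hch := (h_BST R n d s hs).2 hC
    have hW := h_WKD R n d g hR hd (3 / 5) le_rfl s _ hs hch
    have key : (∀ s' ∈ kids R (best (cands d R (List.range n) s)) s, GoodS n s') ∧
        ((kids R (best (cands d R (List.range n) s)) s).map (cs R)).sum = cs R s := by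
      generalize best (cands d R (List.range n) s) = c at hch hW ⊢
      obtain ⟨b, u, m⟩ := c
      cases b with
      | false =>
        have hu : u ∈ s.1 := by
          have := (hch.1 rfl).1
          unfold hi at this
          exact List.mem_toFinset.1 (Finset.mem_filter.1 this).1
        obtain ⟨s₁, s₂, hk, g1, g2, -⟩ := (h_KID R n s hs).1 u m hu
        refine ⟨?_, (h_CSK R s hs.1 hs.2.1).1 u m hu⟩
        rw [hk]
        intro s' hs'
        simp only [List.mem_cons, List.not_mem_nil, or_false] at hs'
        rcases hs' with rfl | rfl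
        · exact g1
        · exact g2
      | true =>
        have hu : u ∈ s.2 := by
          have := (hch.2.1 rfl).1
          unfold hi at this
          exact List.mem_toFinset.1 (Finset.mem_filter.1 this).1
        obtain ⟨s₁, s₂, hk, g1, g2, -⟩ := (h_KID R n s hs).2 u m hu
        refine ⟨?_, (h_CSK R s hs.1 hs.2.1).2 u m hu⟩
        rw [hk]
        intro s' hs'
        simp only [List.mem_cons, List.not_mem_nil, or_false] at hs'
        rcases hs' with rfl | rfl
        · exact g1
        · exact g2
    obtain ⟨kg, kc⟩ := key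
    obtain ⟨f1, f2⟩ := filt (K := K) h_CBD h_WRT h_LNK hR hd _ kg
    rw [hst]
    rw [kc] at f2
    refine ⟨f1.trans hW, ?_⟩
    have h2 := mul_le_mul_of_nonneg_left hW hM
    linarith

end Pool.Agent.BisRt
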