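import Pool.Agent.BisRt.Targets

/-!
# The weights of the children
-/

set_option autoImplicit false

namespace Pool.Agent.BisRt

open Finset Pool.Agent.PT Pool.Agent.BisTh Pool.Agent.BisRg

theorem p_WKD (h_STP : T_STP) (h_REG : T_REG) (h_DBL : T_DBL) (h_KID : T_KID) : T_WKD := by
  intro R n d g hR hg θ hθ s c hs hc
  obtain ⟨b, u, m⟩ := c
  obtain ⟨hc1, hc2, hc3, hc4⟩ := hc
  have hX : s.1.toFinset ⊆ range n := fun i hi => by
    rw [List.mem_toFinset] at hi
    exact mem_range.2 (hs.2.2.1 i hi)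
  have hY : s.2.toFinset ⊆ range n := fun i hi => by
    rw [List.mem_toFinset] at hi
    exact mem_range.2 (hs.2.2.2 i hi)
  obtain ⟨hK1, hK2⟩ := h_KID R n s hs
  cases b with
  | false =>
    obtain ⟨hu, hm⟩ := hc1 rfl
    simp only at hu hm hc3 hc4
    have hu' : u ∈ s.1 := by
      have := (mem_filter.1 hu).1
      rwa [List.mem_toFinset] at this
    obtain ⟨s₁, s₂, h1, -, -, h2, h3, h4, h5, -, -⟩ := hK1 u m hu'
    have key := h_STP (aj R) n d g hR hg θ hθ s.1.toFinset s.2.toFinset hX hY u hu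
      (fun i hi => (hc3 i hi).trans (le_of_eq hm)) (fun j hj => (hc4 j hj).trans (le_of_eq hm))
    rw [h1]
    simp only [List.map_cons, List.map_nil, List.sum_cons, List.sum_nil, add_zero]
    unfold WS
    rw [h2, h3, h4, h5]
    exact key
  | true =>
    obtain ⟨hu, hm⟩ := hc2 rfl
    simp only at hu hm hc3 hc4
    have hu' : u ∈ s.2 := by
      have := (mem_filter.1 hu).1
      rwa [List.mem_toFinset] at this
    obtain ⟨s₁, s₂, h1, -, -, h2, h3, h4, h5, -, -⟩ := hK2 u m hu'
    have key := h_STP (tr (aj R)) n d g (h_REG (aj R) n d hR).1 hg θ hθ s.2.toFinset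
      s.1.toFinset hY hX u hu
      (fun i hi => (hc4 i hi).trans (le_of_eq hm)) (fun j hj => (hc3 j hj).trans (le_of_eq hm))
    have hW := (h_DBL (aj R)).2.2.2 n d θ
    rw [h1]
    simp only [List.map_cons, List.map_nil, List.sum_cons, List.sum_nil, add_zero]
    unfold WS
    rw [h2, h3, h4, h5, hW, hW, hW]
    exact key

end Pool.Agent.BisRt
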