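import Pool.Agent.BisRt.Targets

/-!
# MP_29585b_lc, BRT: elementary facts on the weights
-/

set_option autoImplicit false

namespace Pool.Agent.BisRt

open Finset Pool.Agent.PT Pool.Agent.BisTh Pool.Agent.BisRg

namespace WRT_

lemma Ff_nonneg (x : ℝ) : 0 ≤ Ff x := by
  unfold Ff
  positivity

lemma Ff_le (x : ℝ) (hx : 0 ≤ x) : Ff x ≤ 5 := by
  unfold Ff
  have h0 : -(x / 10) ≤ 0 := by linarith
  have h : Real.exp (-(x / 10)) ≤ 1 := Real.exp_le_one_iff.mpr h0
  linarith

lemma Sf_nonneg (adj : ℕ → ℕ → Bool) (n d : ℕ) (X Y : Finset ℕ) : 0 ≤ Sf adj n d X Y :=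
  sum_nonneg fun _ _ => Ff_nonneg _

lemma Sf_le (adj : ℕ → ℕ → Bool) (n d : ℕ) (X Y : Finset ℕ) :
    Sf adj n d X Y ≤ 5 * X.card := by
  calc Sf adj n d X Y ≤ ∑ _i ∈ hi adj d X Y, (5 : ℝ) :=
        sum_le_sum fun i _ => Ff_le _ (by positivity)
    _ = 5 * (hi adj d X Y).card := by
        rw [sum_const, nsmul_eq_mul, mul_comm]
    _ ≤ 5 * X.card := by
        have h : (hi adj d X Y).card ≤ X.card := card_le_card (filter_subset _ _)
        have h' : ((hi adj d X Y).card : ℝ) ≤ X.card := by exact_mod_cast h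
        linarith

lemma card_root (n : ℕ) : (List.range n).toFinset.card = n := by
  rw [List.toFinset_card_of_nodup List.nodup_range, List.length_range]

end WRT_

theorem p_WRT : T_WRT := by
  intro R n d hd s
  have hd0 : (0 : ℝ) < d := by exact_mod_cast hd
  refine ⟨Real.exp_pos _, ?_, fun θ => ?_, ?_⟩
  · unfold WS Wt
    rw [← Real.exp_add]
    congr 1
    unfold Psi
    ring
  · unfold WS Wt
    apply Real.exp_le_exp.mpr
    unfold Psi
    have h1 : 0 ≤ 35 * (((s.1.toFinset.card : ℝ) + s.2.toFinset.card) / d) := by positivity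
    have h2 : 0 ≤ (Sf (aj R) n d s.1.toFinset s.2.toFinset +
        Sf (tr (aj R)) n d s.2.toFinset s.1.toFinset) / d :=
      div_nonneg (add_nonneg (WRT_.Sf_nonneg _ _ _ _ _) (WRT_.Sf_nonneg _ _ _ _ _)) hd0.le
    linarith
  · unfold WS Wt
    apply Real.exp_le_exp.mpr
    unfold Psi root
    have hX := WRT_.card_root n
    set X := (List.range n).toFinset with hXdef
    have h1 : Sf (aj R) n d X X ≤ 5 * n := by
      have := WRT_.Sf_le (aj R) n d X X
      rwa [hX] at this
    have h2 : Sf (tr (aj R)) n d X X ≤ 5 * n := by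
      have := WRT_.Sf_le (tr (aj R)) n d X X
      rwa [hX] at this
    have h3 : (0 : ℝ) ≤ 3 / 5 * ((Ed (aj R) n X X : ℝ) / d) := by positivity
    have h4 : (Sf (aj R) n d X X + Sf (tr (aj R)) n d X X) / d ≤ 10 * ((n : ℝ) / d) := by
      rw [← mul_div_assoc]
      gcongr
      linarith
    have h5 : 35 * (((X.card : ℝ) + X.card) / d) = 70 * ((n : ℝ) / d) := by
      rw [hX]; ring
    rw [h5]
    linarith

end Pool.Agent.BisRt
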