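import Pool.Agent.BisRt.Defs

/-!
# Targets of the project BisRt (MP_29585b_lc)

Notation in the comments: `h(i)` is the number of neighbours of `i ∈ X` in `Y` (for `j ∈ Y`: in
`X`), `r(i) = d - h(i)` the number of its neighbours outside `Y` (outside `X`), `N = nb adj Y u`.
-/

set_option autoImplicit false

namespace Pool.Agent.BisRt

open Finset Pool.Agent.PT Pool.Agent.BisTh Pool.Agent.BisRg

/-- Common neighbours of `i` and `u` in `Y`. -/
def ov (adj : ℕ → ℕ → Bool) (Y : Finset ℕ) (u i : ℕ) : Finset ℕ := nb adj Y i ∩ nb adj Y u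

/-- The rows of the left vertices of a state. -/
def rws (R : List (List Bool)) (s : SI) : List (List Bool) := s.1.map fun i => R.getD i []

/-- The initial state. -/
def root (n : ℕ) : SI := (List.range n, List.range n)

/-- The weight of a state. -/
noncomputable def WS (R : List (List Bool)) (n d : ℕ) (θ : ℝ) (s : SI) : ℝ :=
  Wt (aj R) n d θ s.1.toFinset s.2.toFinset

/-- A state where no vertex has more than `d / 5` neighbours. -/
def Low (R : List (List Bool)) (d : ℕ) (s : SI) : Prop :=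
  hi (aj R) d s.1.toFinset s.2.toFinset = ∅ ∧ hi (tr (aj R)) d s.2.toFinset s.1.toFinset = ∅

/-- `c` (side, vertex, inner cost) is a vertex of maximal inner cost among all vertices of both
sides with more than `d / 5` neighbours. -/
def Chosen (adj : ℕ → ℕ → Bool) (n d : ℕ) (X Y : Finset ℕ) (c : Bool × ℕ × ℕ) : Prop :=
  (c.1 = false → c.2.1 ∈ hi adj d X Y ∧ c.2.2 = inc adj n X Y c.2.1) ∧
  (c.1 = true → c.2.1 ∈ hi (tr adj) d Y X ∧ c.2.2 = inc (tr adj) n Y X c.2.1) ∧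
  (∀ i ∈ hi adj d X Y, inc adj n X Y i ≤ c.2.2) ∧
  ∀ j ∈ hi (tr adj) d Y X, inc (tr adj) n Y X j ≤ c.2.2

/-- `1 + exp (- g)`. -/
noncomputable def gr (g : ℕ) : ℝ := 1 + Real.exp (-(g : ℝ))

/-- The factor for dropped states. -/
noncomputable def Mc (n d g K : ℕ) : ℝ :=
  2 ^ n * gr g ^ (2 * n) * Real.exp (-(9 / 100 * ((K : ℝ) / d)))

/-! ### Sets of vertices -/

/-- REG. Regularity is symmetric; `h(i) + r(i) = d` (the filters of `Y` and `range n \ Y` partition
the filter of `range n`). -/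
def T_REG : Prop :=
  ∀ (adj : ℕ → ℕ → Bool) (n d : ℕ), Reg adj n d → Reg (tr adj) n d ∧
    (∀ Y : Finset ℕ, Y ⊆ range n → ∀ i < n,
      (nb adj Y i).card + (nb adj (range n \ Y) i).card = d) ∧
    ∀ Y : Finset ℕ, Y ⊆ range n → ∀ i < n,
      (nb adj Y i).card ≤ d ∧ (nb (tr adj) Y i).card ≤ d

/-- DBL. Double counting (`Finset.sum_comm` for the indicator of adjacency; see
`Finset.sum_card_bipartiteAbove_eq_sum_card_bipartiteBelow`). Third part: `∑_{i ∈ X} h(i) =`
`d |X| - ∑_{i ∈ X} r(i)`, `∑_{i ∈ X} r(i) = ∑_{j ∉ Y} |N(j) ∩ X| = ∑_{j ∉ Y} (d - |N(j) \ X|)`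
`= d (n - |Y|) - Ed`. Fourth part: `Psi` is symmetric by the second part (`tr (tr adj) = adj` by
`rfl`). -/
def T_DBL : Prop :=
  ∀ adj : ℕ → ℕ → Bool,
    (∀ X Y : Finset ℕ, ∑ i ∈ X, (nb adj Y i).card = ∑ j ∈ Y, (nb (tr adj) X j).card) ∧
    (∀ (n : ℕ) (X Y : Finset ℕ), Ed adj n X Y = Ed (tr adj) n Y X) ∧
    (∀ n d : ℕ, Reg adj n d → ∀ X Y : Finset ℕ, X ⊆ range n → Y ⊆ range n →
      d * (X.card + Y.card) + Ed adj n X Y = d * n + ∑ i ∈ X, (nb adj Y i).card) ∧
    ∀ (n d : ℕ) (θ : ℝ) (X Y : Finset ℕ), Wt adj n d θ X Y = Wt (tr adj) n d θ Y X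

/-- OUT. Removing `u` from `X`: `range n \ X.erase u = insert u (range n \ X)`. (2): for every `j`
the number `|N(j) \ X|` increases by `1` if `adj u j`, by `0` otherwise; sum over `nb adj Y i`.
(3), (4): `nb (tr adj) (X.erase u) j` is `(nb (tr adj) X j).erase u`, and the term of `i = u` in
`inc (tr adj) n Y X j` is `(nb adj (range n \ Y) u).card`. -/
def T_OUT : Prop :=
  ∀ (adj : ℕ → ℕ → Bool) (n : ℕ) (X Y : Finset ℕ), X ⊆ range n → Y ⊆ range n → ∀ u ∈ X,
    Ed adj n (X.erase u) Y = Ed adj n X Y + (nb adj (range n \ Y) u).card ∧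
    (∀ i : ℕ, inc adj n (X.erase u) Y i = inc adj n X Y i + (ov adj Y u i).card) ∧
    (∀ j : ℕ, adj u j = true → inc (tr adj) n Y (X.erase u) j +
      (nb adj (range n \ Y) u).card = inc (tr adj) n Y X j) ∧
    ∀ j : ℕ, adj u j = false → inc (tr adj) n Y (X.erase u) j = inc (tr adj) n Y X j

/-- INN. Removing `u` from `X` and `N` from `Y`. (1): `range n \ (Y \ N)` is the disjoint union of
`range n \ Y` and `N`, so the new number is `Ed + |nb adj (range n \ Y) u|` plus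
`∑_{i ∈ insert u (range n \ X)} |{j ∈ N : adj i j}| = ∑_{j ∈ N} (1 + |N(j) \ X|) = |N| + inc u`, and
`|nb adj (range n \ Y) u| + |N| = d`. (2): for `j ∈ Y \ N` the vertex `u` is not adjacent to `j`, and
`nb adj Y i` is the disjoint union of `nb adj (Y \ N) i` and `ov adj Y u i`. (3): the outer index
set does not change (`u` is not adjacent to `j`), the inner sets become larger. (4): the left side
is `∑_{j ∈ N} |N(j) \ X| * |nb (tr adj) X j|` and `|nb (tr adj) X j| ≤ d`. -/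
def T_INN : Prop :=
  ∀ (adj : ℕ → ℕ → Bool) (n d : ℕ), Reg adj n d → ∀ X Y : Finset ℕ, X ⊆ range n →
    Y ⊆ range n → ∀ u ∈ X,
    Ed adj n (X.erase u) (Y \ nb adj Y u) = Ed adj n X Y + d + inc adj n X Y u ∧
    (∀ i : ℕ, inc adj n (X.erase u) (Y \ nb adj Y u) i +
      ∑ j ∈ ov adj Y u i, (nb (tr adj) (range n \ X) j).card = inc adj n X Y i) ∧
    (∀ j ∈ Y \ nb adj Y u,
      inc (tr adj) n Y X j ≤ inc (tr adj) n (Y \ nb adj Y u) (X.erase u) j) ∧
    ∑ i ∈ X, ∑ j ∈ ov adj Y u i, (nb (tr adj) (range n \ X) j).card ≤ d * inc adj n X Y u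

/-- FFF. (3): `5 e^(-x/10) (1 - e^(-(y-x)/10))`, `1 - e^(-s) ≤ s`. (4): with `s = y / 10`,
`1 - e^(-s) ≥ 1 - 1 / (1 + s) = s / (1 + s) ≥ s / 1.1`. (5): `e^(-g) ≤ 1 / (1 + g)`. (6):
`Real.exp_one_gt_d9`. -/
def T_FFF : Prop :=
  (∀ x : ℝ, 0 < Ff x) ∧ (∀ x y : ℝ, x ≤ y → Ff y ≤ Ff x) ∧
  (∀ x y : ℝ, 0 ≤ x → x ≤ y → Ff x - Ff y ≤ (y - x) / 2) ∧
  (∀ x y : ℝ, 0 ≤ y → y ≤ 1 → 2 / 5 * y * Real.exp (-(x / 10)) ≤ Ff x - Ff (x + y)) ∧
  (∀ g : ℝ, 0 ≤ g → g ≤ 1 → Real.exp (-g) ≤ 1 - g / 2) ∧ Real.exp (-7) ≤ 1 / 800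

/-- DPO. The potential when `u` is removed. `Ed` increases by `r = r(u)`: change `- θ r / d`; the
second term decreases; `hi adj d (X.erase u) Y = (hi adj d X Y).erase u`, and there `inc` increases
by `|ov|`: this is the sum on the left side (the term of `u` itself, if present, is `≥ 0`); on the
right side the set `hi (tr adj) d Y (X.erase u)` is contained in `hi (tr adj) d Y X` (`Ff ≥ 0`), and
for `j ∈ N` the argument decreases by `r / d`, so the sum of `Ff` increases by at most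
`|N| * (r / d) / 2 ≤ r / 2` (T_FFF (3), `|N| ≤ d`), all other arguments are unchanged. Together
`- θ r / d + r / (2 d) ≤ 0`. -/
def T_DPO : Prop :=
  ∀ (adj : ℕ → ℕ → Bool) (n d : ℕ), Reg adj n d → 1 ≤ d → ∀ θ : ℝ, 3 / 5 ≤ θ →
    ∀ X Y : Finset ℕ, X ⊆ range n → Y ⊆ range n → ∀ u ∈ X,
    Psi adj n d θ (X.erase u) Y + (∑ i ∈ (hi adj d X Y).erase u,
      (Ff ((inc adj n X Y i : ℝ) / d) -
        Ff ((inc adj n X Y i : ℝ) / d + ((ov adj Y u i).card : ℝ) / d))) / d ≤
      Psi adj n d θ X Y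

/-- DPI. The potential when `u` and its neighbours are removed, `c = inc u / d`. The first term
changes by `- θ (1 + c)`; the second by `- 35 (1 + |N|) / d ≤ - 7` (as `5 |N| > d`). Left side: the
new set `hi` is contained in the old one, arguments decrease by `s(i) / d` with
`s(i) = ∑_{j ∈ ov} |N(j) \ X|`, `∑ s(i) ≤ d * inc u` (T_INN (4)), so the sum of `Ff` increases by at
most `inc u / 2 = d c / 2`. Right side: the set becomes smaller and arguments do not decrease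
(T_INN (3)), so the sum does not increase. Together `- θ (1 + c) - 7 + c / 2 ≤ - 7 - c / 10`. -/
def T_DPI : Prop :=
  ∀ (adj : ℕ → ℕ → Bool) (n d : ℕ), Reg adj n d → 1 ≤ d → ∀ θ : ℝ, 3 / 5 ≤ θ →
    ∀ X Y : Finset ℕ, X ⊆ range n → Y ⊆ range n → ∀ u ∈ hi adj d X Y,
    Psi adj n d θ (X.erase u) (Y \ nb adj Y u) + 7 + (inc adj n X Y u : ℝ) / d / 10 ≤
      Psi adj n d θ X Y

/-- OVL. Call `j ∈ Y` low if `5 h(j) ≤ d`, then `5 r(j) ≥ 4 d`. As `∑_{j ∈ N} r(j) = inc u ≤`
`10 g d`, the number `m` of low `j ∈ N` satisfies `4 d m ≤ 50 g d`, so `10 m ≤ 125 g` (`d ≥ 1`), and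
the number of other `j ∈ N` is at least `h(u) - m` with `10 (h(u) - m) ≥ 2 d - 125 g ≥ d`. For each
of these `j` (in `hi (tr adj) d Y X`) `inc (tr adj) n Y X j ≤ inc u ≤ 10 g d`; in the same way at
most `m'` with `10 m' ≤ 125 g` of its neighbours in `X` are low, and the number of
`i ∈ (hi adj d X Y).erase u` adjacent to `j` is at least `h(j) - m' - 1`, and
`10 (h(j) - m' - 1) ≥ 2 d - 125 g - 10 ≥ d`. The sum on the right counts all pairs `(i, j)` with
`j ∈ N`, `i ∈ (hi adj d X Y).erase u`, `adj i j`. -/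
def T_OVL : Prop :=
  ∀ (adj : ℕ → ℕ → Bool) (n d g : ℕ), Reg adj n d → 125 * g + 10 ≤ d →
    ∀ X Y : Finset ℕ, X ⊆ range n → Y ⊆ range n → ∀ u ∈ hi adj d X Y,
    inc adj n X Y u ≤ 10 * g * d →
    (∀ j ∈ hi (tr adj) d Y X, inc (tr adj) n Y X j ≤ inc adj n X Y u) →
    d * d ≤ 100 * ∑ i ∈ (hi adj d X Y).erase u, (ov adj Y u i).card

/-- GAI. With `c(i) = inc i / d ≤ c = inc u / d` and `o(i) = |ov| / d ≤ 1` (T_REG), T_FFF (4) gives
`Ff (c(i)) - Ff (c(i) + o(i)) ≥ (2 / 5) o(i) e^(-c/10)`; the sum over `i`, divided by `d`, is at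
least `(2 / 5) e^(-c/10) * (∑ |ov|) / d ^ 2 ≥ (2 / 5) e^(-c/10) / 100`. -/
def T_GAI : Prop :=
  ∀ (adj : ℕ → ℕ → Bool) (n d : ℕ), Reg adj n d → 1 ≤ d → ∀ X Y : Finset ℕ, X ⊆ range n →
    Y ⊆ range n → ∀ u ∈ hi adj d X Y,
    (∀ i ∈ hi adj d X Y, inc adj n X Y i ≤ inc adj n X Y u) →
    d * d ≤ 100 * ∑ i ∈ (hi adj d X Y).erase u, (ov adj Y u i).card →
    1 / 400 * Real.exp (-((inc adj n X Y u : ℝ) / d / 10)) ≤
      (∑ i ∈ (hi adj d X Y).erase u, (Ff ((inc adj n X Y i : ℝ) / d) -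
        Ff ((inc adj n X Y i : ℝ) / d + ((ov adj Y u i).card : ℝ) / d))) / d

/-- STP. The step inequality. Put `W = Wt adj n d θ X Y`, `c = inc u / d`. Always
`Wt (in) ≤ e^(-7) e^(-c/10) W` (T_DPI) and `Wt (out) ≤ W` (T_DPO; the sum there is `≥ 0` since `Ff`
is antitone). If `inc u > 10 g d` then `c > 10 g` and `Wt (in) ≤ e^(-g) W`. If `inc u ≤ 10 g d`
then T_OVL, T_GAI: `Wt (out) ≤ e^(-q) W` with `q = e^(-c/10) / 400 ≤ 1`, `e^(-q) ≤ 1 - q / 2` and
`e^(-7) ≤ 1 / 800`, so the sum is at most `W`. -/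
def T_STP : Prop :=
  ∀ (adj : ℕ → ℕ → Bool) (n d g : ℕ), Reg adj n d → 125 * g + 10 ≤ d → ∀ θ : ℝ, 3 / 5 ≤ θ →
    ∀ X Y : Finset ℕ, X ⊆ range n → Y ⊆ range n → ∀ u ∈ hi adj d X Y,
    (∀ i ∈ hi adj d X Y, inc adj n X Y i ≤ inc adj n X Y u) →
    (∀ j ∈ hi (tr adj) d Y X, inc (tr adj) n Y X j ≤ inc adj n X Y u) →
    Wt adj n d θ (X.erase u) Y + Wt adj n d θ (X.erase u) (Y \ nb adj Y u) ≤
      gr g * Wt adj n d θ X Y

/-! ### States -/

/-- LNK. The lists compute the quantities of the sets (`List.toFinset_card_of_nodup`,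
`List.toFinset_filter`, `List.length_flatMap`, `List.sum_toFinset` or
`Finset.sum_list_map_count`-free: `Finset.sum` over `toFinset` of a list without duplicates is the
sum of the mapped list). `cmp (List.range n) I` has no duplicates and its `toFinset` is
`range n \ I.toFinset`. -/
def T_LNK : Prop :=
  ∀ (R : List (List Bool)) (n : ℕ) (s : SI), GoodS n s →
    (∀ i, (nbr R s.2 i).length = (nb (aj R) s.2.toFinset i).card) ∧
    (∀ j, (nbl R s.1 j).length = (nb (tr (aj R)) s.1.toFinset j).card) ∧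
    (∀ i, incL R (List.range n) s i = inc (aj R) n s.1.toFinset s.2.toFinset i) ∧
    (∀ j, incR R (List.range n) s j = inc (tr (aj R)) n s.2.toFinset s.1.toFinset j) ∧
    ed R (List.range n) s = Ed (aj R) n s.1.toFinset s.2.toFinset

/-- EDG. The same for `dg`, `dgR`, `edges` of the rows (`nadj (R.getD i []) j = !(aj R i j)`). -/
def T_EDG : Prop :=
  ∀ (R : List (List Bool)) (n : ℕ) (s : SI), GoodS n s →
    (∀ i, dg (R.getD i []) s.2 = (nb (aj R) s.2.toFinset i).card) ∧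
    (∀ j, dgR (rws R s) j = (nb (tr (aj R)) s.1.toFinset j).card) ∧
    edges (rws R s) s.2 = ∑ i ∈ s.1.toFinset, (nb (aj R) s.2.toFinset i).card

/-- BST. `best l ∈ l` for `l ≠ []` and its third component is maximal (induction for the fold);
the elements of `cands` are exactly the vertices of the two sets `hi` with their inner costs
(T_LNK). -/
def T_BST : Prop :=
  ∀ (R : List (List Bool)) (n D : ℕ) (s : SI), GoodS n s →
    (cands D R (List.range n) s = [] → Low R D s) ∧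
    (cands D R (List.range n) s ≠ [] → Chosen (aj R) n D s.1.toFinset s.2.toFinset
      (best (cands D R (List.range n) s)))

/-- KID. The children of a state. -/
def T_KID : Prop :=
  ∀ (R : List (List Bool)) (n : ℕ) (s : SI), GoodS n s →
    (∀ u m : ℕ, u ∈ s.1 → ∃ s₁ s₂ : SI, kids R (false, u, m) s = [s₁, s₂] ∧
      GoodS n s₁ ∧ GoodS n s₂ ∧
      s₁.1.toFinset = s.1.toFinset.erase u ∧ s₁.2.toFinset = s.2.toFinset ∧
      s₂.1.toFinset = s.1.toFinset.erase u ∧
      s₂.2.toFinset = s.2.toFinset \ nb (aj R) s.2.toFinset u ∧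
      s₁.1.length + s₁.2.length < s.1.length + s.2.length ∧
      s₂.1.length + s₂.2.length < s.1.length + s.2.length) ∧
    ∀ v m : ℕ, v ∈ s.2 → ∃ s₁ s₂ : SI, kids R (true, v, m) s = [s₁, s₂] ∧
      GoodS n s₁ ∧ GoodS n s₂ ∧
      s₁.2.toFinset = s.2.toFinset.erase v ∧ s₁.1.toFinset = s.1.toFinset ∧
      s₂.2.toFinset = s.2.toFinset.erase v ∧
      s₂.1.toFinset = s.1.toFinset \ nb (tr (aj R)) s.1.toFinset v ∧
      s₁.1.length + s₁.2.length < s.1.length + s.2.length ∧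
      s₂.1.length + s₂.2.length < s.1.length + s.2.length

/-- CSK. The number of independent pairs of a state is the sum over the children. Left: `s.1` is a
permutation of `u :: s.1.filter (· ≠ u)` (no duplicates), `T_PRM` of BisRg (`Pool.Agent.BisRg.p_PRM`)
and the definition of `cnt`. Right: `s.2` is a permutation of `v :: s.2.filter (· ≠ v)` and
`cnt_cons_right`; `List.filter_map`. -/
def T_CSK : Prop :=
  ∀ (R : List (List Bool)) (s : SI), s.1.Nodup → s.2.Nodup →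
    (∀ u m : ℕ, u ∈ s.1 → ((kids R (false, u, m) s).map (cs R)).sum = cs R s) ∧
    ∀ v m : ℕ, v ∈ s.2 → ((kids R (true, v, m) s).map (cs R)).sum = cs R s

/-- WKD. The weights of the children: T_STP for `aj R` resp. for `tr (aj R)` and the state `(Y, X)`
(T_REG, and T_DBL (4) to exchange the sides). -/
def T_WKD : Prop :=
  ∀ (R : List (List Bool)) (n d g : ℕ), Reg (aj R) n d → 125 * g + 10 ≤ d → ∀ θ : ℝ,
    3 / 5 ≤ θ → ∀ (s : SI) (c : Bool × ℕ × ℕ), GoodS n s →
    Chosen (aj R) n d s.1.toFinset s.2.toFinset c →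
    ((kids R c s).map (WS R n d θ)).sum ≤ gr g * WS R n d θ s

/-- WRT. Weights: positive; comparison of the two values of `θ`; a lower bound; the initial weight
(`Ed = 0`, `inc = 0`, `Ff 0 = 5`: exponent at most `35 * 2 n / d + 2 * 5 n / d`). Leaf: all terms
of `Psi` except the first one are `≥ 0`. -/
def T_WRT : Prop :=
  ∀ (R : List (List Bool)) (n d : ℕ), 1 ≤ d → ∀ s : SI,
    0 < WS R n d (3 / 5) s ∧
    WS R n d (69 / 100) s = Real.exp (-(9 / 100 * ((Ed (aj R) n s.1.toFinset s.2.toFinset : ℝ) / d)))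
      * WS R n d (3 / 5) s ∧
    (∀ θ : ℝ, Real.exp (-(θ * ((Ed (aj R) n s.1.toFinset s.2.toFinset : ℝ) / d))) ≤
      WS R n d θ s) ∧
    WS R n d (3 / 5) (root n) ≤ Real.exp (80 * ((n : ℝ) / d))

/-- LFB. The bound for a leaf. Let `e = edges (rws R s) s.2`, `x` the number of vertices; by T_EDG,
T_DBL (3): `d x + Ed = d n + e`. `T_MAS` of BisRg (`p_MAS p_EFL`) with `d / 5 ≥ 1` in place of `d`
and `r = (4/3) ^ (1 / (d / 5))`: `r ^ e * cnt ≤ 2 ^ x`. As `r ^ d ≥ r ^ (5 (d / 5)) = (4/3) ^ 5 ≥ 4`,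
the `d`-th power gives `4 ^ e * cnt ^ d ≤ 2 ^ (d x) = 2 ^ (d n + e) / 2 ^ Ed`, so
`cnt ^ d * 2 ^ Ed ≤ 2 ^ (d n)`, that is `cnt ≤ 2 ^ n * 2 ^ (- Ed / d)`, and `69 / 100 ≤ log 2`
(`Real.log_two_gt_d9`). -/
def T_LFB : Prop :=
  ∀ (R : List (List Bool)) (n d : ℕ), Reg (aj R) n d → 5 ≤ d → ∀ s : SI, GoodS n s →
    Low R d s → (cs R s : ℝ) ≤
      2 ^ n * Real.exp (-(69 / 100 * ((Ed (aj R) n s.1.toFinset s.2.toFinset : ℝ) / d)))

/-- LFE. The error of a leaf: `T_LER` of BisRg (`tLER`) with `D = d`, `c = 0`, `M = n`; its last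
hypothesis is T_DBL (3) with T_EDG. -/
def T_LFE : Prop :=
  ∀ (R : List (List Bool)) (n d : ℕ), Reg (aj R) n d → 1 ≤ d → ∀ s : SI, GoodS n s →
    Low R d s → ∀ k : ℕ, 2 ^ k * (cs R s - apx (6 * k) (rws R s) s.2) ≤ 2 ^ n

/-- CBD. Strong induction on `s.1.length + s.2.length`. If `cands = []`: T_BST, T_LFB, T_WRT (3),
`gr g ≥ 1`. Otherwise with `c = best (cands ..)`: `cs R s` is the sum over the two children
(T_CSK, T_KID), each of them is smaller, and T_WKD with `θ = 69 / 100`. -/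
def T_CBD : Prop :=
  ∀ (R : List (List Bool)) (n d g : ℕ), Reg (aj R) n d → 125 * g + 10 ≤ d → ∀ s : SI,
    GoodS n s → (cs R s : ℝ) ≤
      2 ^ n * gr g ^ (s.1.length + s.2.length) * WS R n d (69 / 100) s

/-- STS. Elementary facts about one step. -/
def T_STS : Prop :=
  ∀ (R : List (List Bool)) (n D K : ℕ) (s : SI), GoodS n s →
    (∀ s' ∈ stepT D K R (List.range n) s, GoodS n s' ∧
      (ed R (List.range n) s ≤ K → ed R (List.range n) s' ≤ K) ∧
      (Low R D s' ∨ s'.1.length + s'.2.length < s.1.length + s.2.length)) ∧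
    ((stepT D K R (List.range n) s).map (cs R)).sum ≤ cs R s ∧
    (stepT D K R (List.range n) s).length ≤ 2

/-- STW. One step and the weights. If `cands = []` then `stepT = [s]` and everything is clear
(`gr g ≥ 1`). Otherwise (`c = best ..`) T_WKD with `θ = 3 / 5` gives the first inequality. Second
one: `cs R s` is the sum over both children; a child with `ed > K` is dropped, and for it
`cs R s' ≤ 2 ^ n * gr g ^ (2 n) * WS (69/100) s' ≤ Mc * WS (3/5) s'` by T_CBD, T_WRT (2) and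
`Ed ≥ K` (T_LNK); `s'.1.length + s'.2.length ≤ 2 n` for `GoodS n s'`. So
`cs R s ≤ ∑_{kept} cs + Mc * ∑_{dropped} WS` and `∑_{kept} WS + ∑_{dropped} WS ≤ gr g * WS`. -/
def T_STW : Prop :=
  ∀ (R : List (List Bool)) (n d g K : ℕ), Reg (aj R) n d → 125 * g + 10 ≤ d → ∀ s : SI,
    GoodS n s →
    ((stepT d K R (List.range n) s).map (WS R n d (3 / 5))).sum ≤ gr g * WS R n d (3 / 5) s ∧
    (cs R s : ℝ) +
        Mc n d g K * ((stepT d K R (List.range n) s).map (WS R n d (3 / 5))).sum ≤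
      ((stepT d K R (List.range n) s).map fun s' => (cs R s' : ℝ)).sum +
        Mc n d g K * (gr g * WS R n d (3 / 5) s)

/-- RND. All rounds. Let `L_j` be the list after `j` rounds without the guard, `Φ` the sum of the
weights (`θ = 3 / 5`). Then all states are `GoodS` with `ed ≤ K` (the root has `ed = 0`), each of
them is `Low` (and stays the same from then on: `stepT = [s]`; note that `Low` implies
`cands = []`) or has at most `2 n - j` vertices; `Φ (L_j) ≤ gr g ^ j * e^(80 n / d)` (T_STW, T_WRT);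
`L_j.length ≤ e^((3/5) K / d) * Φ (L_j)` (T_WRT (3), T_LNK), so the guard never acts; and
`cs R root ≤ ∑_{L_j} cs + Mc * (gr g ^ j * Φ (L_0) - Φ (L_j))` by induction:
`cs (L_j) + Mc Φ (L_{j+1}) ≤ cs (L_{j+1}) + Mc gr g Φ (L_j)`. After `2 n` rounds a state which is
not known to be `Low` has no vertices at all, so it is `Low`. -/
def T_RND : Prop :=
  ∀ (R : List (List Bool)) (n d g K : ℕ) (P : Un), Reg (aj R) n d → 125 * g + 10 ≤ d →
    gr g ^ (2 * n) * Real.exp (80 * ((n : ℝ) / d)) * Real.exp (3 / 5 * ((K : ℝ) / d)) ≤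
      P.length →
    (∀ s ∈ rounds d K P R (List.range n) [root n], GoodS n s ∧ Low R d s) ∧
    (rounds d K P R (List.range n) [root n]).length ≤ P.length ∧
    (cs R (root n) : ℝ) ≤
      ((rounds d K P R (List.range n) [root n]).map fun s => (cs R s : ℝ)).sum +
        Mc n d g K * (gr g ^ (2 * n) * Real.exp (80 * ((n : ℝ) / d)))

/-- RLB. The lower bound, for all parameters: T_STS and induction; the guard replaces a list by
the empty list. -/
def T_RLB : Prop :=
  ∀ (R : List (List Bool)) (n D K : ℕ) (P : Un),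
    ((rounds D K P R (List.range n) [root n]).map (cs R)).sum ≤ cs R (root n)

/-- NUM. (1) `e^(-(size n + 1)) ≤ 2 ^ (-(size n + 1)) ≤ 1 / (2 n)`, `(1 + x) ^ (2 n) ≤ e^(2 n x)`.
Let `m = size w + size t + 1`. From `2 ^ k ≤ w`: `k < size w` (`Nat.lt_size`), and
`n / d ≤ k`, `K / d = 1000 m`. (2): the exponent is at most `1 + 80 k + 600 m ≤ 680 m`,
`e^(680 m) ≤ 2 ^ (1020 m)` (`e ≤ 2.8 ≤ 2 ^ (3/2)`), and `2 ^ m ≤ 2 (2 w) (2 t) ≤ B ^ 2` with
`B = 2 w + 2 t + 3`; so at most `B ^ 2040`. (3): the exponent is at most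
`2 + 80 k - 90 m ≤ - size t - 1` and `2 t ≤ 2 ^ (size t + 1)`. -/
def T_NUM : Prop :=
  (∀ n : ℕ, 1 ≤ n → gr (Nat.size n + 1) ^ (2 * n) ≤ Real.exp 1) ∧
  ∀ n d k w t : ℕ, 1 ≤ d → n ≤ d * k → 2 ^ k ≤ w → 1 ≤ t →
    Real.exp 1 * Real.exp (80 * ((n : ℝ) / d)) *
      Real.exp (3 / 5 * (((d * (1000 * (Nat.size w + Nat.size t + 1)) : ℕ) : ℝ) / d)) ≤
      (((2 * w + 2 * t + 3) ^ 2100 : ℕ) : ℝ) ∧
    2 * (t : ℝ) * (Real.exp 1 *
      Real.exp (-(9 / 100 * (((d * (1000 * (Nat.size w + Nat.size t + 1)) : ℕ) : ℝ) / d))) *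
      (Real.exp 1 * Real.exp (80 * ((n : ℝ) / d)))) ≤ 1

/-- ERR. Put `n = R.length`, `L = rounds ..`. By `tot_flatMap_leafExp` (BisTh/Algo.lean)
`algTD D W T R` is the sum over `s ∈ L` of `apx (bud (capT W T) (T ++ T)).length (rws R s) s.2`
(`toSt R s = (rws R s, s.2)`); lower bound by `apx_le`, T_RLB. Error, `T.length ≥ 1`,
`g = size n + 1`, `125 g + 10 ≤ d` since `size n = log n + 1`: `d ≤ n` (regularity),
`limD d W T (range n) = d * (1000 (size w + size t + 1))` (`rep_length`, `Nat.size_eq_bits_len`),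
`(capT W T).length = (2 w + 2 t + 3) ^ 2100` (`pw_length`), so T_NUM gives the hypothesis of T_RND
and `2 t (cs root - ∑_L cs) ≤ 2 ^ n`. The budget has length `6 k'`, `k' = size (2 t) + 3 size (cap)`,
so `2 ^ k' ≥ 2 t * cap`, and by T_LFE the total error of the at most `cap` leaves is at most
`2 ^ n / (2 t)`. -/
def T_ERR : Prop :=
  (∀ (D : ℕ) (W T : Un) (R : List (List Bool)), algTD D W T R ≤ cs R (root R.length)) ∧
  ∀ (d k : ℕ) (W T : Un) (R : List (List Bool)), 1 ≤ R.length → Reg (aj R) R.length d →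
    125 * (Nat.log 2 R.length + 3) ≤ d → R.length ≤ d * k → 2 ^ k ≤ W.length →
    T.length * (cs R (root R.length) - algTD d W T R) ≤ 2 ^ R.length

/-- ALT. Maximum over `D ≤ R.length` (`maxL`, see `P_ALW.lean` in BisRg), `d ≤ R.length` by
regularity. If `R = []` then `algTD 0 W T [] = 1 = cs [] (root 0)`. -/
def T_ALT : Prop :=
  (∀ (W T : Un) (R : List (List Bool)), algT W T R ≤ cs R (root R.length)) ∧
  ∀ (d k : ℕ) (W T : Un) (R : List (List Bool)), Reg (aj R) R.length d →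
    125 * (Nat.log 2 R.length + 3) ≤ d → R.length ≤ d * k → 2 ^ k ≤ W.length →
    T.length * (cs R (root R.length) - algT W T R) ≤ 2 ^ R.length

/-- GRA. Graphs and rows: `count_eq`, `rowsOf`, `nadj_rowOf` in BisTh/Leaf.lean, BisTh/Count.lean
(for `i < a` and `j ≥ b` the value `aj (rowsOf G) i j` is `false`); degrees as in
`P_NRS.lean`, `P_DEG.lean` of BisRg. -/
def T_GRA : Prop :=
  ∀ G : Bip, G.a = G.b →
    (rowsOf G).length = G.a ∧ cs (rowsOf G) (root G.a) = G.count ∧ 2 ^ G.a ≤ G.count ∧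
    ∀ d : ℕ, NearRegular G d 0 → Reg (aj (rowsOf G)) G.a d

/-! ### Polynomial time -/

/-- Input of one step: parameters, rows, all vertices, state. -/
abbrev InS : Type := ℕ × List (List Bool) × List ℕ × SI

/-- PTC. The candidates and the chosen one in polynomial time. -/
def T_PTC : Prop :=
  Fact Core →
    PolyF (fun x : InS => cands x.1 x.2.1 x.2.2.1 x.2.2.2) ∧
    PolyF (fun x : InS => ed x.2.1 x.2.2.1 x.2.2.2) ∧
    PolyF (fun l : List (Bool × ℕ × ℕ) => best l)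

/-- PTS. One step in polynomial time; sizes: the states of `stepT` consist of sublists of the
lists of `s` (or are `s`), and there are at most two of them. -/
def T_PTS : Prop :=
  (Fact Core → PolyF (fun x : ℕ × InS => stepT x.2.1 x.1 x.2.2.1 x.2.2.2.1 x.2.2.2.2)) ∧
  ∀ (D K : ℕ) (R : List (List Bool)) (V : List ℕ) (s : SI),
    (stepT D K R V s).length ≤ 2 ∧ ∀ s' ∈ stepT D K R V s, sz s' ≤ sz s

/-- PTR. All rounds in polynomial time (`PolyF.foldl`; because of the guard every intermediate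
list has at most `2 * P.length + 1` states, each of size at most `sz (V, V)`); compare
`P_LPT.lean` of BisRg. -/
def T_PTR : Prop :=
  Fact Core → PolyF (fun x : (ℕ × ℕ) × Un × List (List Bool) × List ℕ =>
    rounds x.1.1 x.1.2 x.2.1 x.2.2.1 x.2.2.2 [(x.2.2.2, x.2.2.2)])

/-- PTA. The value for a fixed `D`; compare `P_WPT.lean` of BisRg (`bud`, `leafExp`, `tot`). -/
def T_PTA : Prop :=
  Fact Core → PolyF (fun x : ℕ × Un × Un × List (List Bool) =>
    algTD x.1 x.2.1 x.2.2.1 x.2.2.2)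

/-- PTX. The whole algorithm. -/
def T_PTX : Prop :=
  Fact Core → PolyF (fun x : In₂ => algU x.1 x.2.1 x.2.2.1 x.2.2.2)

/-! ### Final statements -/

/-- ST5. Machine for `algU` as in `P_ST1.lean` of BisRg (`parse₂`); if `G.a ≠ G.b` the value is
`0`. -/
def T_ST5 : Prop := Statement5

/-- ST6. The maximum of `algU W T B R` with `W = pw c (B ++ un R ++ [true])` (`n ≤ d * k` with
`k = q * log n`, `2 ^ k ≤ n ^ q`) and, for the finitely many `n` where
`d < 125 (log n + 3)` is possible (`n ≤ q d log n ≤ 125 q (log n + 3) log n` implies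
`n ≤ n₀ (q)`), of `algW W₀ T B R` of BisRg with a constant list `W₀` of length `≥ 2 ^ n₀`: there
`tALW` with `D = 1`, `c = n₀` (`Cond 1 c` is trivial for `c ≥ min`, all `Sub` are at most
`2 ^ n₀`). Compare `P_ST2.lean` of BisRg. If `log n = 0` then `n ≤ 0`. -/
def T_ST6 : Prop := Statement6

end Pool.Agent.BisRt
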